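import Mathlib

/-!
# Unicycle states: rotor walks and last-exit walks with a sink

`W` is a set of vertices, `D` a set of directions, `nx x e` the neighbour of `x` in direction `e`.
A configuration is a map `ρ : W → D`.  For a finite set `V` the complement of `V` is the sink.
-/

set_option autoImplicit false

namespace Pool.Agent.H32.OW

open Function

variable {W D : Type*} [DecidableEq W] (nx : W → D → W)

/-- Follow the rotor at `x`. -/
def fol (ρ : W → D) (x : W) : W := nx x (ρ x)

/-- Follow the rotor in `V`, go to `a` outside `V`. -/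
def nxt (V : Finset W) (a : W) (ρ : W → D) (x : W) : W := if x ∈ V then nx x (ρ x) else a

/-- `ρ` is acyclic on `V`: every forward path leaves `V`. -/
def Acyc (V : Finset W) (ρ : W → D) : Prop := ∀ x ∈ V, ∃ k, (fol nx ρ)^[k] x ∉ V

/-- Unicycle states: the unique cycle passes through the position of the chip. -/
def Good (V : Finset W) (a : W) (s : W × (W → D)) : Prop :=
  ∀ v, ∃ k, (nxt nx V a s.2)^[k] v = s.1

/-- One step of a chip: use direction `e` in `V`, restart at `a` outside `V`. -/
def cstep (V : Finset W) (a : W) (s : W × (W → D)) (e : D) : W × (W → D) :=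
  if s.1 ∈ V then (nx s.1 e, update s.2 s.1 e) else (a, s.2)

lemma iter_congr {f g : W → W} {x v : W} (h : ∀ y, y ≠ x → f y = g y) :
    ∀ k, (∀ j < k, f^[j] v ≠ x) → g^[k] v = f^[k] v := by
  intro k
  induction k with
  | zero => intro _; rfl
  | succ k ih =>
    intro hk
    rw [iterate_succ_apply', iterate_succ_apply', ih fun j hj => hk j (by omega)]
    exact (h _ (hk k (by omega))).symm

/-- minimal number of iterations -/
lemma exists_min_iter {f : W → W} {x v : W} (h : ∃ k, f^[k] v = x) :
    ∃ k, f^[k] v = x ∧ ∀ j < k, f^[j] v ≠ x := by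
  classical
  exact ⟨Nat.find h, Nat.find_spec h, fun j hj => Nat.find_min h hj⟩

lemma nxt_update {V : Finset W} {a x : W} {ρ : W → D} {e : D} {y : W} (hy : y ≠ x) :
    nxt nx V a ρ y = nxt nx V a (update ρ x e) y := by
  simp [nxt, update_of_ne hy]

lemma nxt_update_self {V : Finset W} {a x : W} {ρ : W → D} {e : D} (hx : x ∈ V) :
    nxt nx V a (update ρ x e) x = nx x e := by
  simp [nxt, hx]

lemma cstep_good {V : Finset W} {a : W} {s : W × (W → D)} {e : D} (hs : Good nx V a s) :
    Good nx V a (cstep nx V a s e) := by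
  unfold cstep
  split_ifs with hx
  · intro v
    obtain ⟨k, hk, hmin⟩ := exists_min_iter (hs v)
    have h1 : (nxt nx V a (update s.2 s.1 e))^[k] v = (nxt nx V a s.2)^[k] v :=
      iter_congr (fun y hy => nxt_update nx hy) k hmin
    refine ⟨k + 1, ?_⟩
    rw [iterate_succ_apply', h1, hk]
    exact nxt_update_self nx hx
  · intro v
    obtain ⟨k, hk⟩ := hs v
    refine ⟨k + 1, ?_⟩
    rw [iterate_succ_apply', hk]
    simp [nxt, hx]

/-- After a step, the former position is a periodic point that is sent to the new position. -/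
lemma cstep_periodic {V : Finset W} {a : W} {s : W × (W → D)} {e : D} (hs : Good nx V a s) :
    s.1 ∈ periodicPts (nxt nx V a (cstep nx V a s e).2) ∧
      nxt nx V a (cstep nx V a s e).2 s.1 = (cstep nx V a s e).1 := by
  unfold cstep
  split_ifs with hx
  · have h2 : nxt nx V a (update s.2 s.1 e) s.1 = nx s.1 e := nxt_update_self nx hx
    refine ⟨?_, h2⟩
    obtain ⟨k, hk, hmin⟩ := exists_min_iter (hs (nx s.1 e))
    have h1 : (nxt nx V a (update s.2 s.1 e))^[k] (nx s.1 e) = (nxt nx V a s.2)^[k] (nx s.1 e) :=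
      iter_congr (fun y hy => nxt_update nx hy) k hmin
    refine ⟨k + 1, by omega, ?_⟩
    show (nxt nx V a (update s.2 s.1 e))^[k + 1] s.1 = s.1
    rw [iterate_succ_apply, h2, h1, hk]
  · have h2 : nxt nx V a s.2 s.1 = a := by simp [nxt, hx]
    refine ⟨?_, h2⟩
    obtain ⟨k, hk⟩ := hs a
    refine ⟨k + 1, by omega, ?_⟩
    show (nxt nx V a s.2)^[k + 1] s.1 = s.1
    rw [iterate_succ_apply, h2, hk]

/-- The former position is determined by the new state. -/
lemma cstep_pos_inj {V : Finset W} {a : W} {s s' : W × (W → D)} {e e' : D}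
    (hs : Good nx V a s) (hs' : Good nx V a s')
    (h : cstep nx V a s e = cstep nx V a s' e') : s.1 = s'.1 := by
  have h1 := cstep_periodic nx (e := e) hs
  have h2 := cstep_periodic nx (e := e') hs'
  rw [← h] at h2
  exact (bijOn_periodicPts (nxt nx V a (cstep nx V a s e).2)).injOn h1.1 h2.1
    (h1.2.trans h2.2.symm)

/-- The configuration off the present position does not change. -/
lemma cstep_snd {V : Finset W} {a : W} {s : W × (W → D)} {e : D} :
    (cstep nx V a s e).2 = if s.1 ∈ V then update s.2 s.1 e else s.2 := by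
  unfold cstep
  split_ifs <;> rfl

lemma cstep_inj {V : Finset W} {a : W} {s s' : W × (W → D)} {e e' : D}
    (hs : Good nx V a s) (hs' : Good nx V a s')
    (h : cstep nx V a s e = cstep nx V a s' e')
    (h0 : s.1 ∈ V → s.1 = s'.1 → s.2 s.1 = s'.2 s'.1) : s = s' := by
  have h1 := cstep_pos_inj nx hs hs' h
  have h2 : (cstep nx V a s e).2 = (cstep nx V a s' e').2 := by rw [h]
  rw [cstep_snd, cstep_snd] at h2
  refine Prod.ext h1 ?_
  by_cases hx : s.1 ∈ V
  · rw [if_pos hx, if_pos (h1 ▸ hx)] at h2
    funext y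
    by_cases hy : y = s.1
    · rw [hy]
      have := h0 hx h1
      rw [this, h1]
    · have h3 := congrFun h2 y
      rwa [update_of_ne hy, update_of_ne (h1 ▸ hy)] at h3
  · rwa [if_neg hx, if_neg (h1 ▸ hx)] at h2

/-- The direction is determined in `V`. -/
lemma cstep_dir {V : Finset W} {a : W} {s s' : W × (W → D)} {e e' : D} (hx : s.1 ∈ V)
    (h1 : s.1 = s'.1) (h : cstep nx V a s e = cstep nx V a s' e') : e = e' := by
  have h2 : (cstep nx V a s e).2 s.1 = (cstep nx V a s' e').2 s.1 := by rw [h]
  rw [cstep_snd, cstep_snd, if_pos hx, if_pos (h1 ▸ hx), update_self, h1, update_self] at h2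
  exact h2

/-! ### From acyclic configurations to good states -/

lemma exists_exit {V : Finset W} {ρ : W → D} (h : Acyc nx V ρ) (x : W) :
    ∃ k, (fol nx ρ)^[k] x ∉ V ∧ ∀ j < k, (fol nx ρ)^[j] x ∈ V := by
  classical
  have h1 : ∃ k, (fol nx ρ)^[k] x ∉ V := by
    by_cases hx : x ∈ V
    · exact h x hx
    · exact ⟨0, hx⟩
  exact ⟨Nat.find h1, Nat.find_spec h1, fun j hj => not_not.mp (Nat.find_min h1 hj)⟩

lemma nxt_eq_fol {V : Finset W} {a : W} {ρ : W → D} {x : W} (hx : x ∈ V) :
    nxt nx V a ρ x = fol nx ρ x := by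
  simp [nxt, fol, hx]

lemma nxt_iter {V : Finset W} {a : W} {ρ : W → D} {x : W} :
    ∀ k, (∀ j < k, (fol nx ρ)^[j] x ∈ V) → (nxt nx V a ρ)^[k] x = (fol nx ρ)^[k] x := by
  intro k
  induction k with
  | zero => intro _; rfl
  | succ k ih =>
    intro hk
    rw [iterate_succ_apply', iterate_succ_apply', ih fun j hj => hk j (by omega)]
    exact nxt_eq_fol nx (hk k (by omega))

/-- An acyclic configuration gives a good state with the chip in the sink. -/
lemma good_of_acyc {V : Finset W} {ρ : W → D} (h : Acyc nx V ρ) (a : W) :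
    ∃ z, z ∉ V ∧ Good nx V a (z, ρ) := by
  obtain ⟨k, hk, hk'⟩ := exists_exit nx h a
  refine ⟨_, hk, fun v => ?_⟩
  obtain ⟨m, hm, hm'⟩ := exists_exit nx h v
  refine ⟨k + (m + 1), ?_⟩
  rw [iterate_add_apply, iterate_succ_apply', nxt_iter nx m hm']
  have h1 : nxt nx V a ρ ((fol nx ρ)^[m] v) = a := by simp [nxt, hm]
  show (nxt nx V a ρ)^[k] (nxt nx V a ρ ((fol nx ρ)^[m] v)) = _
  rw [h1, nxt_iter nx k hk']

/-- The configuration of a good state with the chip in the sink is acyclic. -/
lemma acyc_of_good {V : Finset W} {a : W} {s : W × (W → D)} (hs : Good nx V a s)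
    (hz : s.1 ∉ V) : Acyc nx V s.2 := by
  intro x _
  by_contra hcon
  push Not at hcon
  obtain ⟨k, hk⟩ := hs x
  rw [nxt_iter nx k fun j _ => hcon j] at hk
  exact hz (hk ▸ hcon k)

/-- The position in the sink is determined by the configuration. -/
lemma good_sink_unique {V : Finset W} {a : W} {s s' : W × (W → D)} (hs : Good nx V a s)
    (hs' : Good nx V a s') (hz : s.1 ∉ V) (hz' : s'.1 ∉ V) (h : s.2 = s'.2) : s = s' := by
  refine Prod.ext ?_ h
  -- both are the first exit of the path from `a`
  have key : ∀ t : W × (W → D), Good nx V a t → t.1 ∉ V → ∀ k, (fol nx t.2)^[k] a ∉ V →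
      (∀ j < k, (fol nx t.2)^[j] a ∈ V) → t.1 = (fol nx t.2)^[k] a := by
    intro t ht htz k hk hk'
    obtain ⟨m, hm, hmin⟩ := exists_min_iter (ht a)
    have hkm : k ≤ m := by
      by_contra hlt
      push Not at hlt
      rw [nxt_iter nx m fun j hj => hk' j (by omega)] at hm
      exact htz (hm ▸ hk' m hlt)
    rcases Nat.eq_or_lt_of_le hkm with h1 | h1
    · rw [← hm, ← h1, nxt_iter nx k hk']
    · exfalso
      -- at step k + 1 the path is back at `a`
      have h2 : (nxt nx V a t.2)^[k + 1] a = a := by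
        rw [iterate_succ_apply', nxt_iter nx k hk']
        simp [nxt, hk]
      have h3 : (nxt nx V a t.2)^[m - (k + 1)] a = t.1 := by
        rw [← hm]
        conv_rhs => rw [show m = (m - (k + 1)) + (k + 1) by omega, iterate_add_apply, h2]
      exact hmin (m - (k + 1)) (by omega) h3
  have hac : Acyc nx V s.2 := acyc_of_good nx hs hz
  obtain ⟨k, hk, hk'⟩ := exists_exit nx hac a
  have e1 := key s hs hz k hk hk'
  have e2 := key s' hs' hz' k (h ▸ hk) (fun j hj => h ▸ hk' j hj)
  rw [e1, e2, h]

end Pool.Agent.H32.OW
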