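import Pool.Agent.H32.OW.Inv

/-!
# Random walkers cut the paths along the rotors
-/

set_option autoImplicit false

namespace Pool.Agent.H32.OW

open Function Finset

variable {W D : Type*} [DecidableEq W] [Fintype D] (nx : W → D → W)

/-! ### Trails -/

omit [Fintype D] in
lemma trail_spec {ρ : W → D} {y x : W} (h : Leads nx ρ y x) :
    ∃ k, (fol nx ρ)^[k] y = x ∧ (∀ j < k, (fol nx ρ)^[j] y ≠ x) ∧
      trail nx ρ y x = (range (k + 1)).image (fun j => (fol nx ρ)^[j] y) := by
  classical
  refine ⟨Nat.find h, Nat.find_spec h, fun j hj => Nat.find_min h hj, ?_⟩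
  unfold trail
  rw [dif_pos h]

omit [Fintype D] in
lemma trail_eq {ρ : W → D} {y x : W} {k : ℕ} (h1 : (fol nx ρ)^[k] y = x)
    (h2 : ∀ j < k, (fol nx ρ)^[j] y ≠ x) :
    trail nx ρ y x = (range (k + 1)).image (fun j => (fol nx ρ)^[j] y) := by
  obtain ⟨m, h3, h4, h5⟩ := trail_spec nx (⟨k, h1⟩ : Leads nx ρ y x)
  have : m = k := by
    rcases lt_trichotomy m k with h | h | h
    · exact absurd h3 (h2 m h)
    · exact h
    · exact absurd h1 (h4 k h)
  rw [h5, this]

omit [Fintype D] in
lemma trail_update {ρ : W → D} {y x z : W} {e : D} (h : Leads nx (update ρ z e) y x)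
    (hz : z ∉ trail nx (update ρ z e) y x) :
    Leads nx ρ y x ∧ trail nx ρ y x = trail nx (update ρ z e) y x := by
  obtain ⟨k, h1, h2, h3⟩ := trail_spec nx h
  have h4 : ∀ j ≤ k, (fol nx (update ρ z e))^[j] y ≠ z := by
    intro j hj heq
    apply hz
    rw [h3]
    exact mem_image.mpr ⟨j, mem_range.mpr (by omega), heq⟩
  have h5 : ∀ j ≤ k, (fol nx ρ)^[j] y = (fol nx (update ρ z e))^[j] y := by
    intro j hj
    refine iter_congr (x := z) (fun w hw => ?_) j fun i hi => h4 i (by omega)
    simp [fol, update_of_ne hw]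
  have h6 : (fol nx ρ)^[k] y = x := (h5 k le_rfl).trans h1
  refine ⟨⟨k, h6⟩, ?_⟩
  rw [trail_eq nx h6 fun j hj => by rw [h5 j hj.le]; exact h2 j hj, h3]
  refine image_congr fun j hj => ?_
  exact h5 j (by have := mem_range.mp (mem_coe.mp hj); omega)

omit [Fintype D] in
lemma trail_next {ρ : W → D} {y x z : W} (h : Leads nx ρ y x) (hz : z ∈ trail nx ρ y x)
    (hzx : z ≠ x) : fol nx ρ z ∈ trail nx ρ y x := by
  obtain ⟨k, h1, h2, h3⟩ := trail_spec nx h
  rw [h3] at hz ⊢
  obtain ⟨j, hj, rfl⟩ := mem_image.mp hz
  rw [mem_range] at hj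
  have hjk : j ≠ k := by
    rintro rfl
    exact hzx h1
  refine mem_image.mpr ⟨j + 1, mem_range.mpr (by omega), ?_⟩
  rw [iterate_succ_apply']

/-! ### Elementary properties of `miss` -/

variable {V : Finset W}

lemma miss_out {A : Finset W} {z : W} (hz : z ∉ V) (n : ℕ) : miss nx V A n z = 1 := by
  cases n <;> simp [miss, hz]

lemma miss_nonneg {A : Finset W} : ∀ (n : ℕ) (z : W), 0 ≤ miss nx V A n z := by
  intro n
  induction n with
  | zero => intro z; simp only [miss]; split_ifs <;> norm_num
  | succ n ih =>
    intro z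
    simp only [miss]
    split_ifs
    · exact le_rfl
    · exact av_nonneg fun e => ih _
    · norm_num

lemma miss_le_one [Nonempty D] {A : Finset W} : ∀ (n : ℕ) (z : W), miss nx V A n z ≤ 1 := by
  intro n
  induction n with
  | zero => intro z; simp only [miss]; split_ifs <;> norm_num
  | succ n ih =>
    intro z
    simp only [miss]
    split_ifs
    · norm_num
    · exact av_le fun e => ih _
    · norm_num

lemma miss_anti {A B : Finset W} (h : A ⊆ B) : ∀ (n : ℕ) (z : W),
    miss nx V B n z ≤ miss nx V A n z := by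
  intro n
  induction n with
  | zero => intro z; exact le_rfl
  | succ n ih =>
    intro z
    by_cases hz : z ∈ V
    · by_cases hB : z ∈ B
      · have : miss nx V B (n + 1) z = 0 := by simp [miss, hz, hB]
        rw [this]
        exact miss_nonneg nx _ _
      · have hA : z ∉ A := fun h' => hB (h h')
        simp only [miss, if_pos hz, if_neg hB, if_neg hA]
        exact av_mono fun e => ih _
    · rw [miss_out nx hz, miss_out nx hz]

lemma miss_mem {A : Finset W} {z : W} (hz : z ∈ V) (hA : z ∈ A) (n : ℕ) :
    miss nx V A n z = 0 := by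
  cases n <;> simp [miss, hz, hA]

lemma miss_succ_in {A : Finset W} {z : W} (hz : z ∈ V) (hA : z ∉ A) (n : ℕ) :
    miss nx V A (n + 1) z = av fun e => miss nx V A n (nx z e) := by
  simp [miss, hz, hA]

/-! ### One walker -/

open Classical in
/-- The sum over the starting points `y` in `S` of `c` of the trail from `y` to `x`. -/
noncomputable def bsum (S : Finset W) (x : W) (c : Finset W → ℝ) (ρ : W → D) : ℝ :=
  ∑ y ∈ S, if Leads nx ρ y x then c (trail nx ρ y x) else 0

lemma bsum_nonneg {S : Finset W} {x : W} {c : Finset W → ℝ} (hc : ∀ A, 0 ≤ c A) (ρ : W → D) :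
    0 ≤ bsum nx S x c ρ :=
  sum_nonneg fun y _ => by split_ifs; exacts [hc _, le_rfl]

/-- One walker: the bound is updated by the probability to miss the trail. -/
lemma one_walker [Nonempty D] {x : W} (hx : x ∈ V) {F : (W → D) → ℝ}
    (hF1 : ∀ ρ, F ρ ≤ 1) {c0 : ℝ}
    (hc0 : 0 ≤ c0) (S : Finset W) {c : Finset W → ℝ} (hc : ∀ A, 0 ≤ c A)
    (hcV : ∀ A, ¬ A ⊆ V → c A = 0) (hF : ∀ ρ, F ρ ≤ c0 + bsum nx S x c ρ) :
    ∀ (n : ℕ) (z : W) (ρ : W → D), vv nx V F n z ρ ≤
      (miss nx V ∅ n z - miss nx V {x} n z) + c0 +
        bsum nx S x (fun A => c A * miss nx V A n z) ρ := by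
  classical
  have hnn : ∀ n z ρ, 0 ≤ bsum nx S x (fun A => c A * miss nx V A n z) ρ := fun n z ρ =>
    bsum_nonneg nx (fun A => mul_nonneg (hc A) (miss_nonneg nx _ _)) ρ
  have hout : ∀ n z ρ, z ∉ V → vv nx V F n z ρ ≤
      (miss nx V ∅ n z - miss nx V {x} n z) + c0 +
        bsum nx S x (fun A => c A * miss nx V A n z) ρ := by
    intro n z ρ hz
    rw [vv_out nx hz, miss_out nx hz, miss_out nx hz]
    have : (fun A => c A * miss nx V A n z) = c := by
      funext A
      rw [miss_out nx hz, mul_one]
    rw [this]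
    linarith [hF ρ]
  intro n
  induction n with
  | zero =>
    intro z ρ
    by_cases hz : z ∈ V
    · have h1 : vv nx V F 0 z ρ = 0 := by simp [vv, hz]
      have h2 : ∀ A, miss nx V A 0 z = 0 := fun A => by simp [miss, hz]
      rw [h1, h2, h2]
      have := hnn 0 z ρ
      linarith
    · exact hout 0 z ρ hz
  | succ n ih =>
    intro z ρ
    by_cases hz : z ∈ V
    swap
    · exact hout _ z ρ hz
    have hle1 : ∀ (m : ℕ) (z : W) (ρ : W → D), vv nx V F m z ρ ≤ miss nx V ∅ m z := by
      intro m
      induction m with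
      | zero => intro z ρ; simp only [vv, miss]; split_ifs; exacts [le_rfl, hF1 ρ]
      | succ m ihm =>
        intro z ρ
        simp only [vv, miss]
        split_ifs with h1 h2
        · simp at h2
        · exact av_mono fun e => ihm _ _
        · exact hF1 ρ
    by_cases hzx : z = x
    · rw [hzx, miss_mem nx hx (mem_singleton_self x)]
      have h1 := hle1 (n + 1) x ρ
      have h2 := hnn (n + 1) x ρ
      linarith
    · have h1 : vv nx V F (n + 1) z ρ ≤
          av fun e => (miss nx V ∅ n (nx z e) - miss nx V {x} n (nx z e)) + c0 +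
            bsum nx S x (fun A => c A * miss nx V A (n + 1) z) ρ +
            (bsum nx S x (fun A => c A * miss nx V A n (nx z e)) (update ρ z e) -
              bsum nx S x (fun A => c A * miss nx V A (n + 1) z) ρ) := by
        rw [vv, if_pos hz]
        refine av_mono fun e => ?_
        have := ih (nx z e) (update ρ z e)
        linarith
      have h2 : av (fun e => bsum nx S x (fun A => c A * miss nx V A n (nx z e)) (update ρ z e)) ≤
          bsum nx S x (fun A => c A * miss nx V A (n + 1) z) ρ := by
        unfold bsum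
        rw [av_sum]
        refine sum_le_sum fun y _ => ?_
        have h3 : ∀ e, (if Leads nx (update ρ z e) y x then
            c (trail nx (update ρ z e) y x) *
              miss nx V (trail nx (update ρ z e) y x) n (nx z e) else 0) ≤
            if Leads nx ρ y x ∧ z ∉ trail nx ρ y x then
              c (trail nx ρ y x) * miss nx V (trail nx ρ y x) n (nx z e) else 0 := by
          intro e
          by_cases hL : Leads nx (update ρ z e) y x
          · rw [if_pos hL]
            by_cases hzt : z ∈ trail nx (update ρ z e) y x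
            · -- the next vertex is on the trail
              have h4 := trail_next nx hL hzt hzx
              have h5 : fol nx (update ρ z e) z = nx z e := by simp [fol]
              rw [h5] at h4
              have h6 : c (trail nx (update ρ z e) y x) *
                  miss nx V (trail nx (update ρ z e) y x) n (nx z e) = 0 := by
                by_cases hsub : trail nx (update ρ z e) y x ⊆ V
                · rw [miss_mem nx (hsub h4) h4, mul_zero]
                · rw [hcV _ hsub, zero_mul]
              rw [h6]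
              split_ifs
              · exact mul_nonneg (hc _) (miss_nonneg nx _ _)
              · exact le_rfl
            · obtain ⟨h4, h5⟩ := trail_update nx hL hzt
              rw [← h5] at hzt ⊢
              rw [if_pos ⟨h4, hzt⟩]
          · rw [if_neg hL]
            split_ifs
            · exact mul_nonneg (hc _) (miss_nonneg nx _ _)
            · exact le_rfl
        refine (av_mono h3).trans ?_
        by_cases hL : Leads nx ρ y x
        · by_cases hzt : z ∈ trail nx ρ y x
          · simp only [hL, hzt, not_true_eq_false, and_false, if_false, if_true]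
            rw [av_const]
            exact mul_nonneg (hc _) (miss_nonneg nx _ _)
          · simp only [hL, hzt, not_false_eq_true, and_self, if_true]
            rw [av_mul_left, miss_succ_in nx hz hzt]
        · simp only [hL, false_and, if_false]
          rw [av_const]
      have h3 : av (fun e => (miss nx V ∅ n (nx z e) - miss nx V {x} n (nx z e)) + c0 +
            bsum nx S x (fun A => c A * miss nx V A (n + 1) z) ρ +
            (bsum nx S x (fun A => c A * miss nx V A n (nx z e)) (update ρ z e) -
              bsum nx S x (fun A => c A * miss nx V A (n + 1) z) ρ)) =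
          (miss nx V ∅ (n + 1) z - miss nx V {x} (n + 1) z) + c0 +
            bsum nx S x (fun A => c A * miss nx V A (n + 1) z) ρ +
            (av (fun e => bsum nx S x (fun A => c A * miss nx V A n (nx z e)) (update ρ z e)) -
              bsum nx S x (fun A => c A * miss nx V A (n + 1) z) ρ) := by
        rw [av_add, av_add, av_add, av_sub, av_sub, av_const, av_const,
          miss_succ_in nx hz (notMem_empty z), miss_succ_in nx hz (by simpa using hzx)]
      rw [h3] at h1
      linarith

/-! ### Many walkers -/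

/-- Walkers are launched from the vertices `w i`, each with probability `ε`. -/
lemma many_walkers [Nonempty D] {ι : Type*} {x : W} (hx : x ∈ V) (o : D) (S : Finset W)
    {ε : ℝ} (hε : 0 ≤ ε) (hε1 : ε ≤ 1) (n : ℕ) (w : ι → W) (I : Finset ι) :
    ∀ {F : (W → D) → ℝ}, (∀ ρ, 0 ≤ F ρ) → (∀ ρ, F ρ ≤ 1) → ∀ {c0 : ℝ}, 0 ≤ c0 →
      ∀ {c : Finset W → ℝ}, (∀ A, 0 ≤ c A) → (∀ A, ¬ A ⊆ V → c A = 0) →
      (∀ ρ, F ρ ≤ c0 + bsum nx S x c ρ) →
      ∑ ρ ∈ AV nx V o, F ρ ≤ ∑ ρ ∈ AV nx V o, (c0 + ε * ∑ i ∈ I, (1 - miss nx V {x} n (w i)) +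
        bsum nx S x (fun A => c A * ∏ i ∈ I, (1 - ε * (1 - miss nx V A n (w i)))) ρ) := by
  classical
  induction I using Finset.induction_on with
  | empty =>
    intro F _ _ c0 _ c _ _ hF
    refine sum_le_sum fun ρ _ => ?_
    simpa using hF ρ
  | insert i I hi ih =>
    intro F hF0 hF1 c0 hc0 c hc hcV hF
    have hm1 : ∀ A, 0 ≤ 1 - ε * (1 - miss nx V A n (w i)) := by
      intro A
      have h1 := miss_nonneg nx (V := V) (A := A) n (w i)
      have h2 := miss_le_one nx (V := V) (A := A) n (w i)
      nlinarith
    have hmx : 0 ≤ miss nx V ∅ n (w i) - miss nx V {x} n (w i) :=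
      sub_nonneg.mpr (miss_anti nx (empty_subset _) n (w i))
    -- the new functional
    set F' : (W → D) → ℝ := fun ρ => (1 - ε) * F ρ + ε * vv nx V F n (w i) ρ with hF'
    have hv1 : ∀ ρ, vv nx V F n (w i) ρ ≤ 1 := by
      intro ρ
      have h1 := vv_one_sub nx (V := V) F n (w i) ρ
      have h2 := vv_nonneg nx (V := V) (F := fun ρ => 1 - F ρ)
        (fun ρ => by linarith [hF1 ρ]) n (w i) ρ
      have h3 := miss_le_one nx (V := V) (A := ∅) n (w i)
      linarith
    have h1 := ih (F := F') (fun ρ => add_nonneg (mul_nonneg (by linarith) (hF0 ρ))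
        (mul_nonneg hε (vv_nonneg nx hF0 _ _ _)))
      (fun ρ => by
        have := hF1 ρ
        have := hv1 ρ
        simp only [hF']
        nlinarith)
      (c0 := c0 + ε * (miss nx V ∅ n (w i) - miss nx V {x} n (w i)))
      (add_nonneg hc0 (mul_nonneg hε hmx))
      (c := fun A => c A * (1 - ε * (1 - miss nx V A n (w i))))
      (fun A => mul_nonneg (hc A) (hm1 A))
      (fun A hA => by rw [hcV A hA, zero_mul])
      (fun ρ => by
        have h2 := one_walker nx hx hF1 hc0 S hc hcV hF n (w i) ρ
        have h3 := hF ρ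
        have h4 : bsum nx S x (fun A => c A * (1 - ε * (1 - miss nx V A n (w i)))) ρ =
            (1 - ε) * bsum nx S x c ρ +
              ε * bsum nx S x (fun A => c A * miss nx V A n (w i)) ρ := by
          unfold bsum
          rw [mul_sum, mul_sum, ← sum_add_distrib]
          refine sum_congr rfl fun y _ => ?_
          split_ifs <;> ring
        rw [h4]
        simp only [hF']
        have h5 : 0 ≤ 1 - ε := by linarith
        nlinarith [mul_le_mul_of_nonneg_left h3 h5, mul_le_mul_of_nonneg_left h2 hε])
    have h2 := le_sum_vv nx (V := V) hF1 o (w i) n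
    have h3 : ∑ ρ ∈ AV nx V o, F ρ ≤ ∑ ρ ∈ AV nx V o, F' ρ +
        (AV nx V o).card * (ε * (1 - miss nx V ∅ n (w i))) := by
      have h4 : ∑ ρ ∈ AV nx V o, F' ρ = (1 - ε) * ∑ ρ ∈ AV nx V o, F ρ +
          ε * ∑ ρ ∈ AV nx V o, vv nx V F n (w i) ρ := by
        simp only [hF', sum_add_distrib, mul_sum]
      rw [h4]
      nlinarith [mul_le_mul_of_nonneg_left h2 hε]
    refine h3.trans ?_
    have h5 : ((AV nx V o).card : ℝ) * (ε * (1 - miss nx V ∅ n (w i))) =
        ∑ ρ ∈ AV nx V o, ε * (1 - miss nx V ∅ n (w i)) := by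
      rw [sum_const, nsmul_eq_mul]
    rw [h5]
    refine (add_le_add_left h1 _).trans ?_
    rw [← sum_add_distrib]
    refine sum_le_sum fun ρ _ => ?_
    rw [sum_insert hi]
    have h6 : (fun A => c A * (1 - ε * (1 - miss nx V A n (w i))) *
        ∏ j ∈ I, (1 - ε * (1 - miss nx V A n (w j)))) =
        fun A => c A * ∏ j ∈ insert i I, (1 - ε * (1 - miss nx V A n (w j))) := by
      funext A
      rw [prod_insert hi, mul_assoc]
    rw [h6]
    nlinarith

end Pool.Agent.H32.OW
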