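import Mathlib

/-!
# Rotor walks and the oriented wired uniform spanning forest on `ℤ^d`: definitions
-/

set_option autoImplicit false

open Filter Topology MeasureTheory

namespace Pool.Agent.H32.OW

/-- The vertices of the lattice `ℤ^d`. -/
abbrev Vtx (d : ℕ) := Fin d → ℤ

/-- The `2d` directions of `ℤ^d`: a coordinate and a sign (`true` is `+`, `false` is `-`). -/
abbrev Dir (d : ℕ) := Fin d × Bool

variable {d : ℕ}

/-- The neighbour of the vertex `x` in direction `e`. -/
def nb (x : Vtx d) (e : Dir d) : Vtx d :=
  fun j => x j + if j = e.1 then (if e.2 then 1 else -1) else 0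

/-- The graph distance of `ℤ^d`. -/
def gdist (x y : Vtx d) : ℕ := ∑ j, (x j - y j).natAbs

/-- A rotor configuration of `ℤ^d`: the rotor at `x` points to the neighbour `nb x (ρ x)`. -/
abbrev Config (d : ℕ) := Vtx d → Dir d

/-- One step of the rotor walk with mechanism `τ` from (position, configuration): the rotor at the
present position is turned, and the walker moves to the neighbour it then points to. -/
def rstep (τ : Vtx d → Equiv.Perm (Dir d)) (s : Vtx d × Config d) : Vtx d × Config d :=
  (nb s.1 (τ s.1 (s.2 s.1)), Function.update s.2 s.1 (τ s.1 (s.2 s.1)))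

/-- Position and configuration after `t` steps of the rotor walk started at `a` from `ρ`. -/
def rwalk (τ : Vtx d → Equiv.Perm (Dir d)) (a : Vtx d) (ρ : Config d) (t : ℕ) :
    Vtx d × Config d :=
  (rstep τ)^[t] (a, ρ)

/-- `τ` is a rotor mechanism: every `τ x` is a cyclic permutation of the directions (one orbit). -/
def IsRotorMechanism (τ : Vtx d → Equiv.Perm (Dir d)) : Prop :=
  ∀ x e e', ∃ k : ℕ, (τ x ^ k) e = e'

/-- The rotor walk is transient: every vertex is visited finitely often. -/
def IsTransient (τ : Vtx d → Equiv.Perm (Dir d)) (a : Vtx d) (ρ : Config d) : Prop :=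
  ∀ x, {t : ℕ | (rwalk τ a ρ t).1 = x}.Finite

open Classical in
/-- The final configuration `σ(ρ)(x) = lim_t ρ_t(x)`: the direction `e` with `ρ_t(x) = e` for all
large `t` (if there is none, which does not happen when the walk is transient, the value is
`ρ(x)`). -/
noncomputable def finalConfig (τ : Vtx d → Equiv.Perm (Dir d)) (a : Vtx d) (ρ : Config d) :
    Config d :=
  fun x => if h : ∃ e, ∀ᶠ t in atTop, (rwalk τ a ρ t).2 x = e then h.choose else ρ x

/-- The vertices at distance less than `r` from `a` (the ball of radius `r` without the set `Z_r`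
of vertices at distance exactly `r`). -/
noncomputable def inner (a : Vtx d) (r : ℕ) : Finset (Vtx d) :=
  (Fintype.piFinset fun j => Finset.Icc (a j - (r : ℤ)) (a j + (r : ℤ))).filter
    fun x => gdist x a < r

/-- An oriented subgraph in which the vertices of `V` have outdegree one and all others outdegree
zero is a map `F` from `V` to the directions; it has no directed cycle. -/
def NoCycle (V : Finset (Vtx d)) (F : V → Dir d) : Prop :=
  ¬ ∃ (k : ℕ) (x : ℕ → V), 0 < k ∧ x k = x 0 ∧ ∀ i < k, (x (i + 1) : Vtx d) = nb (x i) (F (x i))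

/-- The probability `OUSF(G_r, Z_r)[B ⊆ F]`: `F` is uniform among the oriented subgraphs without
directed cycles of the ball of radius `r` about `a` in which the vertices at distance `r` have
outdegree zero and all others outdegree one; `B` is a finite set of directed edges (a tail and a
direction). -/
noncomputable def ousf (a : Vtx d) (r : ℕ) (B : Finset (Vtx d × Dir d)) : ℝ :=
  ({F : inner a r → Dir d | NoCycle (inner a r) F ∧
      ∀ b ∈ B, ∃ h : b.1 ∈ inner a r, F ⟨b.1, h⟩ = b.2}.ncard : ℝ) /
    ({F : inner a r → Dir d | NoCycle (inner a r) F}.ncard : ℝ)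

/-- `μ` is the law of the oriented wired uniform spanning forest of `ℤ^d`, defined by the
exhaustion by balls about `a`: `μ[B ⊆ F] = lim_r OUSF(G_r, Z_r)[B ⊆ F]` for every finite set `B` of
directed edges. -/
def IsOWUSF (a : Vtx d) (μ : Measure (Config d)) : Prop :=
  IsProbabilityMeasure μ ∧ ∀ B : Finset (Vtx d × Dir d),
    Tendsto (fun r => ousf a r B) atTop (𝓝 (μ.real {ρ | ∀ b ∈ B, ρ b.1 = b.2}))

/-- The law `μ` is rotor walk stationary for the rotor walk with mechanism `τ` started at `a`. -/
def IsStationary (τ : Vtx d → Equiv.Perm (Dir d)) (a : Vtx d) (μ : Measure (Config d)) : Prop :=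
  (∀ᵐ ρ ∂μ, IsTransient τ a ρ) ∧ μ.map (finalConfig τ a) = μ

end Pool.Agent.H32.OW
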