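import Pool.Agent.H32.OW.Geo

/-!
# The finite volume laws form a Cauchy net
-/

set_option autoImplicit false

namespace Pool.Agent.H32.OW

open Function Finset Filter Topology

section general

variable {W D : Type*} [DecidableEq W] [Fintype D] (nx : W → D → W)

/-- `F` depends only on the rotors in `S`. -/
def DepOn {α : Type*} (S : Finset W) (F : (W → D) → α) : Prop :=
  ∀ ρ ρ' : W → D, (∀ x ∈ S, ρ x = ρ' x) → F ρ = F ρ'

/-- The mean of `F` for the uniform law on `AV V o`. -/
noncomputable def EV (V : Finset W) (o : D) (F : (W → D) → ℝ) : ℝ :=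
  (∑ ρ ∈ AV nx V o, F ρ) / ((AV nx V o).card : ℝ)

lemma EV_mono {V : Finset W} {o : D} {F G : (W → D) → ℝ} (h : ∀ ρ, F ρ ≤ G ρ) :
    EV nx V o F ≤ EV nx V o G :=
  div_le_div_of_nonneg_right (sum_le_sum fun ρ _ => h ρ) (Nat.cast_nonneg _)

lemma EV_add_const {V : Finset W} {o : D} (hne : (AV nx V o).Nonempty) (F : (W → D) → ℝ)
    (c : ℝ) : EV nx V o (fun ρ => F ρ + c) = EV nx V o F + c := by
  unfold EV
  rw [sum_add_distrib, sum_const, nsmul_eq_mul, add_div]
  have : ((AV nx V o).card : ℝ) ≠ 0 := by exact_mod_cast hne.card_pos.ne'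
  field_simp

lemma EV_vv_le [Nonempty D] {V : Finset W} {o : D} {F : (W → D) → ℝ} (hF : ∀ ρ, 0 ≤ F ρ)
    (x : W) (n : ℕ) : EV nx V o (vv nx V F n x) ≤ EV nx V o F :=
  div_le_div_of_nonneg_right (sum_vv_le nx hF o x n) (Nat.cast_nonneg _)

lemma EV_le_vv [Nonempty D] {V : Finset W} {o : D} (hne : (AV nx V o).Nonempty)
    {F : (W → D) → ℝ} (hF1 : ∀ ρ, F ρ ≤ 1)
    (x : W) (n : ℕ) : EV nx V o F ≤ EV nx V o (vv nx V F n x) + (1 - miss nx V ∅ n x) := by
  have h := le_sum_vv nx (V := V) hF1 o x n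
  have h0 : (0 : ℝ) < (AV nx V o).card := by exact_mod_cast hne.card_pos
  unfold EV
  rw [div_add' _ _ _ h0.ne', div_le_div_iff_of_pos_right h0]
  linarith

/-- The walk changes `F` only if it visits `S`. -/
lemma vv_le_add_gg [Nonempty D] {V S : Finset W} {F : (W → D) → ℝ} (hF0 : ∀ ρ, 0 ≤ F ρ)
    (hF1 : ∀ ρ, F ρ ≤ 1)
    (hS : DepOn S F) : ∀ (n : ℕ) (z : W) (ρ : W → D),
      vv nx V F n z ρ ≤ F ρ + gg nx V S n z := by
  have h1 : ∀ (n : ℕ) (z : W) (ρ : W → D), vv nx V F n z ρ ≤ 1 := by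
    intro n z ρ
    have h1 := vv_one_sub nx (V := V) F n z ρ
    have h2 := vv_nonneg nx (V := V) (F := fun ρ => 1 - F ρ)
      (fun ρ => by linarith [hF1 ρ]) n z ρ
    have h3 := miss_le_one nx (V := V) (A := ∅) n z
    linarith
  intro n
  induction n with
  | zero =>
    intro z ρ
    simp only [vv, gg, add_zero]
    split_ifs
    · exact hF0 ρ
    · exact le_rfl
  | succ n ih =>
    intro z ρ
    by_cases hz : z ∈ V
    · rw [gg_succ_in nx hz]
      by_cases hzS : z ∈ S
      · rw [if_pos hzS]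
        have h2 := h1 (n + 1) z ρ
        have h3 := av_nonneg fun e => gg_nonneg nx (V := V) (A := S) n (nx z e)
        linarith [hF0 ρ]
      · rw [if_neg hzS, zero_add, vv, if_pos hz]
        have h2 : ∀ e, vv nx V F n (nx z e) (update ρ z e) ≤ F ρ + gg nx V S n (nx z e) := by
          intro e
          refine (ih (nx z e) (update ρ z e)).trans ?_
          have h3 : F (update ρ z e) = F ρ := by
            refine hS _ _ fun x hx => update_of_ne ?_ _ _
            rintro rfl
            exact hzS hx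
          rw [h3]
        refine (av_mono h2).trans ?_
        rw [av_add, av_const]
    · rw [vv_out nx hz, gg_out nx hz, add_zero]

/-- Comparison of the walks stopped at the exits of `V ⊆ V'`. -/
lemma vv_compare [Nonempty D] {V V' S : Finset W} (hVV : V ⊆ V') {F : (W → D) → ℝ}
    (hF0 : ∀ ρ, 0 ≤ F ρ) (hF1 : ∀ ρ, F ρ ≤ 1) (hS : DepOn S F) {δ : ℝ}
    (hδ0 : 0 ≤ δ) (hδ : ∀ z, z ∉ V → ∀ n, gg nx V' S n z ≤ δ) :
    ∀ (n : ℕ) (z : W) (ρ : W → D), vv nx V' F n z ρ ≤ vv nx V F n z ρ + δ := by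
  intro n
  induction n with
  | zero =>
    intro z ρ
    by_cases hz : z ∈ V
    · simp only [vv, if_pos hz, if_pos (hVV hz)]
      linarith
    · rw [vv_out nx hz]
      exact (vv_le_add_gg nx hF0 hF1 hS 0 z ρ).trans (add_le_add le_rfl (hδ z hz 0))
  | succ n ih =>
    intro z ρ
    by_cases hz : z ∈ V
    · rw [vv, vv, if_pos hz, if_pos (hVV hz)]
      refine (av_mono fun e => ih (nx z e) (update ρ z e)).trans ?_
      rw [av_add, av_const]
    · rw [vv_out nx hz]
      exact (vv_le_add_gg nx hF0 hF1 hS _ z ρ).trans (add_le_add le_rfl (hδ z hz _))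

lemma vv_compare' [Nonempty D] {V V' S : Finset W} (hVV : V ⊆ V') {F : (W → D) → ℝ}
    (hF0 : ∀ ρ, 0 ≤ F ρ) (hF1 : ∀ ρ, F ρ ≤ 1) (hS : DepOn S F) {δ : ℝ}
    (hδ0 : 0 ≤ δ) (hδ : ∀ z, z ∉ V → ∀ n, gg nx V' S n z ≤ δ) (n : ℕ) (z : W) (ρ : W → D) :
    vv nx V F n z ρ ≤ vv nx V' F n z ρ + δ + (1 - miss nx V' ∅ n z) := by
  have h1 := vv_compare nx hVV (F := fun ρ => 1 - F ρ) (fun ρ => by linarith [hF1 ρ])
    (fun ρ => by linarith [hF0 ρ]) (fun ρ ρ' h => by
      show 1 - F ρ = 1 - F ρ'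
      rw [hS ρ ρ' h]) hδ0 hδ n z ρ
  rw [vv_one_sub, vv_one_sub] at h1
  have h2 := miss_le_one nx (V := V) (A := ∅) n z
  linarith

/-- The walk launched from `z` uses only the rotors of `S`. -/
lemma vv_dep {V S : Finset W} {F : (W → D) → ℝ} (hS : DepOn S F) :
    ∀ (n : ℕ) (z : W), DepOn S (vv nx V F n z) := by
  intro n
  induction n with
  | zero =>
    intro z ρ ρ' h
    simp only [vv]
    rw [hS ρ ρ' h]
  | succ n ih =>
    intro z ρ ρ' h
    simp only [vv]
    rw [hS ρ ρ' h]
    have : (fun e => vv nx V F n (nx z e) (update ρ z e)) =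
        fun e => vv nx V F n (nx z e) (update ρ' z e) := by
      funext e
      refine ih _ _ _ fun x hx => ?_
      by_cases hxz : x = z
      · rw [hxz, update_self, update_self]
      · rw [update_of_ne hxz, update_of_ne hxz, h x hx]
    rw [this]

/-- The rotor at the starting point is forgotten. -/
lemma vv_dep_start {V S : Finset W} {F : (W → D) → ℝ} {x : W} (hS : DepOn (insert x S) F)
    (hx : x ∈ V) (n : ℕ) : DepOn S (vv nx V F n x) := by
  cases n with
  | zero =>
    intro ρ ρ' _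
    simp [vv, hx]
  | succ n =>
    intro ρ ρ' h
    rw [vv, vv, if_pos hx, if_pos hx]
    congr 1
    funext e
    refine vv_dep nx hS n _ _ _ fun y hy => ?_
    by_cases hyx : y = x
    · rw [hyx, update_self, update_self]
    · rw [update_of_ne hyx, update_of_ne hyx]
      exact h y ((mem_insert.mp hy).resolve_left hyx)

/-- Comparison of the finite volume laws. -/
lemma EV_compare [Nonempty D] {H : W → ℝ} (H0 : ∀ z, 0 < H z)
    (H1 : ∀ z, av (fun e => H (nx z e)) < H z) {V V' S : Finset W} (hSV : S ⊆ V)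
    (hVV : V ⊆ V') (o : D) (hne : (AV nx V o).Nonempty) (hne' : (AV nx V' o).Nonempty) {δ : ℝ}
    (hδ0 : 0 ≤ δ) (hδ : ∀ z, z ∉ V → ∀ n, gg nx V' S n z ≤ δ) (T : Finset W) (hT : T ⊆ S) :
    ∀ {F : (W → D) → ℝ}, (∀ ρ, 0 ≤ F ρ) → (∀ ρ, F ρ ≤ 1) → DepOn T F →
      |EV nx V o F - EV nx V' o F| ≤ T.card * δ := by
  classical
  have hlim : ∀ (U : Finset W) (z : W), Tendsto (fun n => 1 - miss nx U ∅ n z) atTop (𝓝 0) := by
    intro U z
    obtain ⟨c, -, hcb⟩ := gg_bdd nx H0 H1 U
    have h1 : (fun n => 1 - miss nx U ∅ n z) = fun n => gg nx U U (n + 1) z - gg nx U U n z := by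
      funext n
      exact one_sub_miss_empty nx n z
    rw [h1]
    exact gg_diff_tendsto nx (C := c * H z) fun n => hcb U (Subset.refl _) n z
  induction T using Finset.induction_on with
  | empty =>
    intro F _ _ hF
    have h1 : ∀ U : Finset W, (AV nx U o).Nonempty → EV nx U o F = F (fun _ => o) := by
      intro U hU
      unfold EV
      rw [sum_congr rfl fun ρ _ => hF ρ (fun _ => o) (by simp), sum_const, nsmul_eq_mul]
      have : ((AV nx U o).card : ℝ) ≠ 0 := by exact_mod_cast hU.card_pos.ne'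
      field_simp
    rw [h1 V hne, h1 V' hne']
    simp
  | insert x T hx ih =>
    intro F hF0 hF1 hF
    have hxS : x ∈ S := hT (mem_insert_self x T)
    have hTS : T ⊆ S := fun y hy => hT (mem_insert_of_mem hy)
    have hFS : DepOn S F := fun ρ ρ' h => hF ρ ρ' fun y hy => h y (hT hy)
    -- the estimate for every `n`
    have key : ∀ n, |EV nx V o F - EV nx V' o F| ≤
        T.card * δ + δ + (1 - miss nx V ∅ n x) + 2 * (1 - miss nx V' ∅ n x) := by
      intro n
      have hG1 : ∀ ρ, vv nx V F n x ρ ≤ 1 := by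
        intro ρ
        have h1 := vv_one_sub nx (V := V) F n x ρ
        have h2 := vv_nonneg nx (V := V) (F := fun ρ => 1 - F ρ)
          (fun ρ => by linarith [hF1 ρ]) n x ρ
        have h3 := miss_le_one nx (V := V) (A := ∅) n x
        linarith
      have h1 := ih hTS (F := vv nx V F n x) (vv_nonneg nx hF0 n x) hG1
        (vv_dep_start nx hF (hSV hxS) n)
      have h2 := EV_vv_le nx (V := V) (o := o) hF0 x n
      have h3 := EV_le_vv nx hne hF1 x n
      have h4 := EV_vv_le nx (V := V') (o := o) hF0 x n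
      have h5 := EV_le_vv nx hne' hF1 x n
      have h6 : EV nx V' o (vv nx V' F n x) ≤ EV nx V' o (vv nx V F n x) + δ := by
        rw [← EV_add_const nx hne']
        exact EV_mono nx fun ρ => vv_compare nx hVV hF0 hF1 hFS hδ0 hδ n x ρ
      have h7 : EV nx V' o (vv nx V F n x) ≤
          EV nx V' o (vv nx V' F n x) + (δ + (1 - miss nx V' ∅ n x)) := by
        rw [← EV_add_const nx hne']
        refine EV_mono nx fun ρ => ?_
        have := vv_compare' nx hVV hF0 hF1 hFS hδ0 hδ n x ρ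
        linarith
      have h8 := miss_le_one nx (V := V) (A := ∅) n x
      have h9 := miss_le_one nx (V := V') (A := ∅) n x
      rw [abs_le] at h1 ⊢
      constructor
      · linarith [h1.1]
      · linarith [h1.2]
    have hl : Tendsto (fun n => T.card * δ + δ + (1 - miss nx V ∅ n x) +
        2 * (1 - miss nx V' ∅ n x)) atTop (𝓝 (T.card * δ + δ + 0 + 2 * 0)) :=
      ((hlim V x).const_add _).add ((hlim V' x).const_mul 2)
    have := ge_of_tendsto' hl key
    rw [card_insert_of_notMem hx]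
    push_cast
    linarith

end general

variable {d : ℕ}

/-- The constant configuration is acyclic on every finite set. -/
lemma acyc_const (V : Finset (Vtx d)) (o : Dir d) : Acyc nb V (fun _ => o) := by
  intro x _
  by_contra hcon
  push Not at hcon
  have h1 : ∀ k : ℕ, ((fol nb (fun _ => o))^[k] x) o.1 = x o.1 + k * (if o.2 then 1 else -1) := by
    intro k
    induction k with
    | zero => simp
    | succ k ih =>
      rw [iterate_succ_apply']
      have h3 : ∀ y : Vtx d, (fol nb (fun _ => o) y) o.1 = y o.1 + (if o.2 then 1 else -1) := by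
        intro y
        simp [fol, nb]
      rw [h3, ih]
      push_cast
      ring
  have h2 : Injective fun k : ℕ => (fol nb (fun _ => o))^[k] x := by
    intro k l h
    have h3 := congrFun h o.1
    simp only [h1] at h3
    split_ifs at h3 <;> omega
  exact Set.infinite_of_injective_forall_mem h2 (fun k => mem_coe.mpr (hcon k)) V.finite_toSet

lemma AV_nonempty (V : Finset (Vtx d)) (o : Dir d) : (AV nb V o).Nonempty :=
  ⟨fun _ => o, by rw [mem_AV]; exact ⟨fun _ _ => rfl, acyc_const V o⟩⟩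

/-- The finite volume laws form a Cauchy net. -/
theorem EV_cauchy (hd : 3 ≤ d) (o : Dir d) (S : Finset (Vtx d)) {δ : ℝ} (hδ : 0 < δ) :
    ∃ V₀ : Finset (Vtx d), ∀ V V', V₀ ⊆ V → V₀ ⊆ V' → ∀ F : Config d → ℝ,
      (∀ ρ, 0 ≤ F ρ) → (∀ ρ, F ρ ≤ 1) → DepOn S F → |EV nb V o F - EV nb V' o F| ≤ δ := by
  classical
  obtain ⟨H, C, hC, H0, H1, H2, -⟩ := exists_lyapunov d hd
  have : Nonempty (Fin d) := ⟨⟨0, by omega⟩⟩
  set η := H 0 - av (fun e => H (nb 0 e)) with hη
  have hη0 : 0 < η := sub_pos.mpr (H1 0)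
  -- choose `N`
  obtain ⟨N, hN⟩ := exists_nat_gt (2 * S.card * (S.card * (C / η)) / δ)
  set N' := N + 1 with hN'
  set V₀ := S ∪ S.biUnion (fun s => inner s (N' ^ 2)) with hV₀
  have key : ∀ V V', V₀ ⊆ V → V ⊆ V' → ∀ F : Config d → ℝ,
      (∀ ρ, 0 ≤ F ρ) → (∀ ρ, F ρ ≤ 1) → DepOn S F → |EV nb V o F - EV nb V' o F| ≤ δ / 2 := by
    intro V V' hV hVV F hF0 hF1 hF
    have hSV : S ⊆ V := subset_union_left.trans hV
    have h1 := EV_compare nb H0 H1 hSV hVV o (AV_nonempty V o) (AV_nonempty V' o)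
      (δ := S.card * (C / N') / η) (by positivity) (fun z hz n => by
        refine (gg_le_sum H0 H1 V' S n z).trans ?_
        refine div_le_div_of_nonneg_right ?_ hη0.le
        rw [← nsmul_eq_mul, ← sum_const]
        refine sum_le_sum fun s hs => H2 _ N' (by omega) ?_
        rw [gdist_sub]
        by_contra hcon
        push Not at hcon
        refine hz (hV ?_)
        rw [hV₀, mem_union, mem_biUnion]
        exact Or.inr ⟨s, hs, mem_inner.mpr hcon⟩) S (Subset.refl _) hF0 hF1 hF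
    refine h1.trans ?_
    have hN0 : (0 : ℝ) < N' := by rw [hN']; positivity
    rw [div_lt_iff₀ hδ] at hN
    have h2 : (S.card : ℝ) * (S.card * (C / N') / η) = S.card * (S.card * (C / η)) / N' := by
      field_simp
    rw [h2, div_le_iff₀ hN0]
    have h3 : (N' : ℝ) = N + 1 := by rw [hN']; push_cast; ring
    rw [h3]
    nlinarith
  refine ⟨V₀, fun V V' hV hV' F hF0 hF1 hF => ?_⟩
  have h1 := key V (V ∪ V') hV subset_union_left F hF0 hF1 hF
  have h2 := key V' (V ∪ V') hV' subset_union_right F hF0 hF1 hF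
  rw [abs_le] at h1 h2 ⊢
  constructor <;> linarith [h1.1, h1.2, h2.1, h2.2]

end Pool.Agent.H32.OW
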