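import Pool.Agent.H32.OW.Chip

/-!
# Walks with a sink: definitions

`W` is a set of vertices, `D` a finite set of directions, `nx x e` the neighbour of `x` in
direction `e`.  The complement of the finite set `V` is the sink.
-/

set_option autoImplicit false

namespace Pool.Agent.H32.OW

open Function Finset

variable {W D : Type*} [DecidableEq W] [Fintype D] (nx : W → D → W)

/-- The average over the directions. -/
noncomputable def av (f : D → ℝ) : ℝ := (∑ e, f e) / (Fintype.card D : ℝ)

/-- Simple random walk started at `z` and stopped when it leaves `V`; at every step the direction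
used is written at the vertex that is left.  `vv V F n z ρ` is the expectation of `F` of the final
configuration on the event that the walk leaves `V` within `n` steps. -/
noncomputable def vv (V : Finset W) (F : (W → D) → ℝ) : ℕ → W → (W → D) → ℝ
  | 0, z, ρ => if z ∈ V then 0 else F ρ
  | n + 1, z, ρ => if z ∈ V then av fun e => vv V F n (nx z e) (update ρ z e) else F ρ

/-- The probability that the walk leaves `V` within `n` steps and does not visit `A` before. -/
noncomputable def miss (V A : Finset W) : ℕ → W → ℝ
  | 0, z => if z ∈ V then 0 else 1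
  | n + 1, z => if z ∈ V then (if z ∈ A then 0 else av fun e => miss V A n (nx z e)) else 1

/-- The expected number of visits to `A` among the first `n` steps and before the walk
leaves `V`. -/
noncomputable def gg (V A : Finset W) : ℕ → W → ℝ
  | 0, _ => 0
  | n + 1, z => if z ∈ V then (if z ∈ A then 1 else 0) + av fun e => gg V A n (nx z e) else 0

lemma finite_conf (V : Finset W) (o : D) : {ρ : W → D | ∀ x, x ∉ V → ρ x = o}.Finite := by
  classical
  have : Finite {ρ : W → D | ∀ x, x ∉ V → ρ x = o} := by
    apply Finite.of_injective (fun (ρ : {ρ : W → D | ∀ x, x ∉ V → ρ x = o}) (v : V) => ρ.1 v.1)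
    intro ρ ρ' h
    apply Subtype.ext
    funext x
    by_cases hx : x ∈ V
    · exact congrFun h ⟨x, hx⟩
    · rw [ρ.2 x hx, ρ'.2 x hx]
  exact Set.toFinite _

lemma finite_AV (V : Finset W) (o : D) :
    {ρ : W → D | (∀ x, x ∉ V → ρ x = o) ∧ Acyc nx V ρ}.Finite :=
  (finite_conf V o).subset fun _ h => h.1

/-- The rotor configurations that are acyclic on `V` and equal to `o` off `V`. -/
noncomputable def AV (V : Finset W) (o : D) : Finset (W → D) := (finite_AV nx V o).toFinset

lemma mem_AV {V : Finset W} {o : D} {ρ : W → D} :
    ρ ∈ AV nx V o ↔ (∀ x, x ∉ V → ρ x = o) ∧ Acyc nx V ρ := by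
  simp [AV]

/-- The probability of the event `E` for the uniform measure on `AV V o`. -/
noncomputable def PV (V : Finset W) (o : D) (E : Set (W → D)) : ℝ :=
  open Classical in
  ((AV nx V o).filter fun ρ => ρ ∈ E).card / ((AV nx V o).card : ℝ)

/-- The path from `y` along the rotors reaches `x`. -/
def Leads (ρ : W → D) (y x : W) : Prop := ∃ k, (fol nx ρ)^[k] y = x

open Classical in
/-- The vertices of the path from `y` along the rotors up to the first visit to `x` (empty if there
is none). -/
noncomputable def trail (ρ : W → D) (y x : W) : Finset W :=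
  if h : Leads nx ρ y x then (range (Nat.find h + 1)).image (fun j => (fol nx ρ)^[j] y) else ∅

/-! ### The rotor walk -/

/-- One step of the rotor walk. -/
def vstep (τ : W → Equiv.Perm D) (s : W × (W → D)) : W × (W → D) :=
  (nx s.1 (τ s.1 (s.2 s.1)), update s.2 s.1 (τ s.1 (s.2 s.1)))

/-- Position and configuration of the rotor walk from `a` after `t` steps. -/
def rw (τ : W → Equiv.Perm D) (a : W) (ρ : W → D) (t : ℕ) : W × (W → D) :=
  (vstep nx τ)^[t] (a, ρ)

open Classical in
/-- The first time at which the rotor walk is outside `V` (zero if there is none). -/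
noncomputable def exitTime (τ : W → Equiv.Perm D) (a : W) (V : Finset W) (ρ : W → D) : ℕ :=
  if h : ∃ t, (rw nx τ a ρ t).1 ∉ V then Nat.find h else 0

/-- The configuration of the rotor walk when it leaves `V`. -/
noncomputable def sig (τ : W → Equiv.Perm D) (a : W) (V : Finset W) (ρ : W → D) : W → D :=
  (rw nx τ a ρ (exitTime nx τ a V ρ)).2

end Pool.Agent.H32.OW
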