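import Pool.Agent.H32.OW.Defs
import Pool.Agent.H32.OW.Model

/-!
# A Lyapunov function of simple random walk on `ℤ^d`, `d ≥ 3`
-/

set_option autoImplicit false

open Filter Topology MeasureTheory

namespace Pool.Agent.H32.OW

/-- The scalar inequality for fourth roots. -/
lemma lyap_scalar {p q s : ℝ} (hp : 0 < p) (hq : 0 < q) (hps : p ^ 4 = 1 + s)
    (hqs : q ^ 4 = 1 - s) (hs : s ^ 2 ≤ 1 / 9) :
    p⁻¹ + q⁻¹ ≤ 2 * (1 + 3 / 16 * s ^ 2) := by
  set t := s ^ 2 with ht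
  have ht0 : 0 ≤ t := sq_nonneg s
  have hpq : 0 < p * q := mul_pos hp hq
  have h4 : (p * q) ^ 4 = 1 - t := by rw [mul_pow, hps, hqs, ht]; ring
  have h2 : ((p * q) ^ 2) ^ 2 = 1 - t := by rw [← h4]; ring
  have hle2 : (p * q) ^ 2 ≤ 1 - t / 2 := by
    nlinarith [sq_nonneg ((p * q) ^ 2 - 1), sq_nonneg t]
  have hle1 : p * q ≤ 1 - t / 4 := by
    nlinarith [sq_nonneg (p * q - 1), sq_nonneg t]
  have hsq : p ^ 2 + q ^ 2 ≤ 2 - t / 4 := by
    have h5 : (p ^ 2 + q ^ 2) ^ 2 ≤ (2 - t / 4) ^ 2 := by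
      have : (p ^ 2 + q ^ 2) ^ 2 = 2 + 2 * (p * q) ^ 2 := by
        have : (p ^ 2 + q ^ 2) ^ 2 = p ^ 4 + q ^ 4 + 2 * (p * q) ^ 2 := by ring
        rw [this, hps, hqs]; ring
      rw [this]
      nlinarith [sq_nonneg t]
    exact le_of_sq_le_sq h5 (by nlinarith)
  have hsum : p + q ≤ 2 * (1 - 3 * t / 32) := by
    have h5 : (p + q) ^ 2 ≤ (2 * (1 - 3 * t / 32)) ^ 2 := by
      have : (p + q) ^ 2 = p ^ 2 + q ^ 2 + 2 * (p * q) := by ring
      rw [this]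
      nlinarith [sq_nonneg t]
    exact le_of_sq_le_sq h5 (by nlinarith)
  have hinv : 1 ≤ (p * q) * (1 + 9 * t / 32) := by
    by_contra hcon
    push Not at hcon
    have h6 : ((p * q) * (1 + 9 * t / 32)) ^ 4 < 1 :=
      pow_lt_one₀ (by positivity) hcon (by norm_num)
    rw [mul_pow, h4] at h6
    have h7 : 1 + 9 * t / 8 ≤ (1 + 9 * t / 32) ^ 4 := by
      have : (1 + 9 * t / 32) ^ 4 = 1 + 9 * t / 8 + 6 * (9 * t / 32) ^ 2 + 4 * (9 * t / 32) ^ 3 +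
        (9 * t / 32) ^ 4 := by ring
      rw [this]
      have : 0 ≤ 6 * (9 * t / 32) ^ 2 + 4 * (9 * t / 32) ^ 3 + (9 * t / 32) ^ 4 := by positivity
      linarith
    have h8 : (1 - t) * (1 + 9 * t / 8) ≤ (1 - t) * (1 + 9 * t / 32) ^ 4 :=
      mul_le_mul_of_nonneg_left h7 (by linarith)
    nlinarith
  have h9 : p⁻¹ + q⁻¹ = (p + q) / (p * q) := by field_simp; ring
  rw [h9, div_le_iff₀ hpq]
  have h10 : (p + q) ≤ 2 * (1 - 3 * t / 32) * ((p * q) * (1 + 9 * t / 32)) := by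
    nlinarith
  nlinarith [mul_nonneg hpq.le (sq_nonneg t)]

lemma lyap_two {u a : ℝ} (hu : 0 < u) (ha : 9 * a ^ 2 ≤ u ^ 2) :
    (u + a) ^ (-(1 / 4) : ℝ) + (u - a) ^ (-(1 / 4) : ℝ) ≤
      2 * u ^ (-(1 / 4) : ℝ) * (1 + 3 / 16 * (a ^ 2 / u ^ 2)) := by
  set s := a / u with hs
  have hs2 : s ^ 2 = a ^ 2 / u ^ 2 := by rw [hs, div_pow]
  have hs9 : s ^ 2 ≤ 1 / 9 := by
    rw [hs2, div_le_iff₀ (by positivity)]; linarith
  have hs1 : |s| < 1 := by
    rw [← abs_one (α := ℝ), ← sq_lt_sq]; linarith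
  obtain ⟨h1, h2⟩ := abs_lt.mp hs1
  have e1 : u + a = u * (1 + s) := by rw [hs]; field_simp
  have e2 : u - a = u * (1 - s) := by rw [hs]; field_simp
  rw [e1, e2, Real.mul_rpow hu.le (by linarith), Real.mul_rpow hu.le (by linarith), ← mul_add,
    Real.rpow_neg (by linarith : (0 : ℝ) ≤ 1 + s), Real.rpow_neg (by linarith : (0 : ℝ) ≤ 1 - s)]
  have key := lyap_scalar (p := (1 + s) ^ (1 / 4 : ℝ)) (q := (1 - s) ^ (1 / 4 : ℝ)) (s := s)
    (Real.rpow_pos_of_pos (by linarith) _) (Real.rpow_pos_of_pos (by linarith) _)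
    (by rw [← Real.rpow_natCast, ← Real.rpow_mul (by linarith)]; norm_num)
    (by rw [← Real.rpow_natCast, ← Real.rpow_mul (by linarith)]; norm_num) hs9
  have hu' : 0 < u ^ (-(1 / 4) : ℝ) := Real.rpow_pos_of_pos hu _
  have := mul_le_mul_of_nonneg_left key hu'.le
  rw [← hs2]
  linarith

lemma lyap_last {u : ℝ} (hu : 1 < u) :
    u ^ (-(1 / 4) : ℝ) * (1 + 1 / (4 * u)) ≤ (u - 1) ^ (-(1 / 4) : ℝ) := by
  set y := 1 / u with hy
  have hu0 : 0 < u := by linarith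
  have hy0 : 0 < y := by positivity
  have hy1 : y < 1 := by rw [hy, div_lt_one hu0]; exact hu
  have e1 : u - 1 = u * (1 - y) := by rw [hy]; field_simp
  have e2 : 1 + 1 / (4 * u) = 1 + y / 4 := by rw [hy]; field_simp
  rw [e1, e2, Real.mul_rpow hu0.le (by linarith)]
  refine mul_le_mul_of_nonneg_left ?_ (Real.rpow_pos_of_pos hu0 _).le
  set r := (1 - y) ^ (1 / 4 : ℝ) with hr
  have hr0 : 0 < r := Real.rpow_pos_of_pos (by linarith) _
  have hr4 : r ^ 4 = 1 - y := by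
    rw [hr, ← Real.rpow_natCast, ← Real.rpow_mul (by linarith)]; norm_num
  rw [Real.rpow_neg (by linarith : (0 : ℝ) ≤ 1 - y), ← hr, le_inv_comm₀ (by positivity) hr0]
  rw [← one_div, le_div_iff₀ (by positivity)]
  by_contra hcon
  push Not at hcon
  have h1 : (1 : ℝ) < (r * (1 + y / 4)) ^ 4 := one_lt_pow₀ hcon (by norm_num)
  rw [mul_pow, hr4] at h1
  have h2 : (1 - y) * (1 + y / 4) ^ 4 =
      1 - (5 / 8 * y ^ 2 + 5 / 16 * y ^ 3 + 15 / 256 * y ^ 4 + y ^ 5 / 256) := by ring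
  rw [h2] at h1
  have : 0 ≤ 5 / 8 * y ^ 2 + 5 / 16 * y ^ 3 + 15 / 256 * y ^ 4 + y ^ 5 / 256 := by positivity
  linarith

/-- The squared Euclidean norm. -/
noncomputable def nsq {d : ℕ} (z : Vtx d) : ℝ := ∑ j, (z j : ℝ) ^ 2

lemma nsq_nonneg {d : ℕ} (z : Vtx d) : 0 ≤ nsq z := Finset.sum_nonneg fun _ _ => sq_nonneg _

lemma nsq_nb {d : ℕ} (z : Vtx d) (e : Dir d) :
    nsq (nb z e) = nsq z + 1 + (if e.2 then 2 * (z e.1 : ℝ) else -(2 * (z e.1 : ℝ))) := by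
  unfold nsq nb
  rw [← Finset.add_sum_erase _ _ (Finset.mem_univ e.1),
    ← Finset.add_sum_erase _ (fun j => (z j : ℝ) ^ 2) (Finset.mem_univ e.1)]
  have h1 : ∑ j ∈ Finset.univ.erase e.1,
      ((z j + if j = e.1 then (if e.2 then 1 else -1) else 0 : ℤ) : ℝ) ^ 2 =
      ∑ j ∈ Finset.univ.erase e.1, (z j : ℝ) ^ 2 := by
    refine Finset.sum_congr rfl fun j hj => ?_
    rw [if_neg (Finset.ne_of_mem_erase hj), add_zero]
  rw [h1, if_pos rfl]
  cases e.2 <;> simp <;> ring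

/-- The Lyapunov function. -/
noncomputable def lyap {d : ℕ} (z : Vtx d) : ℝ := (nsq z + 36) ^ (-(1 / 4) : ℝ)

lemma av_lyap {d : ℕ} (hd : 3 ≤ d) (z : Vtx d) : av (fun e => lyap (nb z e)) < lyap z := by
  set u := nsq z + 37 with hu
  have hz := nsq_nonneg z
  have hu0 : 0 < u := by linarith
  have hg : 0 < u ^ (-(1 / 4) : ℝ) := Real.rpow_pos_of_pos hu0 _
  have hcard : (Fintype.card (Dir d) : ℝ) = 2 * d := by
    simp [Fintype.card_prod, mul_comm]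
  have hd0 : (0 : ℝ) < d := by exact_mod_cast (by omega : 0 < d)
  have hd3 : (3 : ℝ) ≤ d := by exact_mod_cast hd
  have hsum : ∑ e : Dir d, lyap (nb z e) =
      ∑ i : Fin d, ((u + 2 * (z i : ℝ)) ^ (-(1 / 4) : ℝ) + (u - 2 * (z i : ℝ)) ^ (-(1 / 4) : ℝ)) := by
    rw [Fintype.sum_prod_type]
    refine Finset.sum_congr rfl fun i _ => ?_
    rw [Fintype.sum_bool]
    unfold lyap
    rw [nsq_nb, nsq_nb]
    simp only [if_true, Bool.false_eq_true, if_false]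
    rw [hu]
    congr 2 <;> ring
  have hle : ∑ e : Dir d, lyap (nb z e) ≤
      ∑ i : Fin d, 2 * u ^ (-(1 / 4) : ℝ) * (1 + 3 / 16 * ((2 * (z i : ℝ)) ^ 2 / u ^ 2)) := by
    rw [hsum]
    refine Finset.sum_le_sum fun i _ => lyap_two hu0 ?_
    have h1 : (z i : ℝ) ^ 2 ≤ nsq z :=
      Finset.single_le_sum (f := fun j => (z j : ℝ) ^ 2) (fun _ _ => sq_nonneg _) (Finset.mem_univ i)
    nlinarith
  have heq : ∑ i : Fin d, 2 * u ^ (-(1 / 4) : ℝ) * (1 + 3 / 16 * ((2 * (z i : ℝ)) ^ 2 / u ^ 2)) =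
      2 * u ^ (-(1 / 4) : ℝ) * (d + 3 / 4 * (nsq z / u ^ 2)) := by
    rw [← Finset.mul_sum, Finset.sum_add_distrib]
    congr 1
    simp only [Finset.sum_const, Finset.card_univ, Fintype.card_fin, nsmul_eq_mul, mul_one]
    congr 1
    unfold nsq
    rw [Finset.sum_div, Finset.mul_sum]
    exact Finset.sum_congr rfl fun i _ => by ring
  have hlt : nsq z / u ^ 2 < 1 / u := by
    rw [div_lt_div_iff₀ (by positivity) hu0]
    nlinarith
  have hbound : av (fun e => lyap (nb z e)) < u ^ (-(1 / 4) : ℝ) * (1 + 1 / (4 * u)) := by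
    unfold av
    rw [hcard, div_lt_iff₀ (by positivity)]
    refine (hle.trans_eq heq).trans_lt ?_
    have h1 : 2 * u ^ (-(1 / 4) : ℝ) * (d + 3 / 4 * (nsq z / u ^ 2)) <
        2 * u ^ (-(1 / 4) : ℝ) * (d + 3 / 4 * (1 / u)) := by
      refine mul_lt_mul_of_pos_left ?_ (by positivity)
      linarith
    refine h1.trans_le ?_
    have h2 : 2 * u ^ (-(1 / 4) : ℝ) * (d + 3 / 4 * (1 / u)) ≤
        2 * u ^ (-(1 / 4) : ℝ) * (d + d / 4 * (1 / u)) := by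
      refine mul_le_mul_of_nonneg_left ?_ (by positivity)
      have : 0 < 1 / u := by positivity
      nlinarith
    refine h2.trans_eq ?_
    field_simp
  refine hbound.trans_le ((lyap_last (by linarith)).trans_eq ?_)
  unfold lyap
  rw [hu]
  congr 1
  ring

theorem exists_lyapunov (d : ℕ) (hd : 3 ≤ d) : ∃ (H : Vtx d → ℝ) (C : ℝ), 0 < C ∧
    (∀ z, 0 < H z) ∧ (∀ z, av (fun e => H (nb z e)) < H z) ∧
    (∀ z (n : ℕ), 0 < n → n ^ 2 ≤ gdist z 0 → H z ≤ C / n) ∧ (∀ z, H z ≤ H 0) := by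
  have hd0 : (0 : ℝ) < d := by exact_mod_cast (by omega : 0 < d)
  have hd1 : (1 : ℝ) ≤ d := by exact_mod_cast (by omega : 1 ≤ d)
  refine ⟨lyap, d, hd0, fun z => Real.rpow_pos_of_pos (by linarith [nsq_nonneg z]) _,
    av_lyap hd, fun z n hn hz => ?_, fun z => ?_⟩
  · have h1 : ((gdist z 0 : ℕ) : ℝ) ^ 2 ≤ d * nsq z := by
      have h2 : ((gdist z 0 : ℕ) : ℝ) = ∑ j, |(z j : ℝ)| := by
        unfold gdist
        push_cast
        refine Finset.sum_congr rfl fun j _ => ?_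
        simp [Nat.cast_natAbs]
      have h3 := sq_sum_le_card_mul_sum_sq (s := (Finset.univ : Finset (Fin d)))
        (f := fun j => |(z j : ℝ)|)
      rw [h2]
      simpa [nsq] using h3
    have h4 : (n : ℝ) ^ 2 ≤ gdist z 0 := by exact_mod_cast hz
    have hn0 : (0 : ℝ) < n := by exact_mod_cast hn
    have h5 : (n : ℝ) ^ 4 ≤ d * nsq z := by
      have : ((n : ℝ) ^ 2) ^ 2 ≤ ((gdist z 0 : ℕ) : ℝ) ^ 2 :=
        pow_le_pow_left₀ (by positivity) h4 2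
      calc (n : ℝ) ^ 4 = ((n : ℝ) ^ 2) ^ 2 := by ring
        _ ≤ _ := this.trans h1
    have h6 : ((n : ℝ) / d) ^ 4 ≤ nsq z + 36 := by
      rw [div_pow, div_le_iff₀ (by positivity)]
      have h7 : (d : ℝ) ≤ (d : ℝ) ^ 4 := by
        calc (d : ℝ) = (d : ℝ) ^ 1 := (pow_one _).symm
          _ ≤ _ := pow_le_pow_right₀ hd1 (by norm_num)
      nlinarith [nsq_nonneg z]
    unfold lyap
    have h8 : (nsq z + 36) ^ (-(1 / 4) : ℝ) ≤ (((n : ℝ) / d) ^ 4) ^ (-(1 / 4) : ℝ) :=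
      Real.rpow_le_rpow_of_nonpos (by positivity) h6 (by norm_num)
    refine h8.trans_eq ?_
    rw [← Real.rpow_natCast, ← Real.rpow_mul (by positivity)]
    norm_num
    rw [Real.rpow_neg_one, inv_div]
  · unfold lyap
    refine Real.rpow_le_rpow_of_nonpos (by linarith [nsq_nonneg (0 : Vtx d)]) ?_ (by norm_num)
    have : nsq (0 : Vtx d) = 0 := by simp [nsq]
    rw [this]
    linarith [nsq_nonneg z]

end Pool.Agent.H32.OW
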