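import Pool.Agent.H32.OW.Green

/-!
# The finite volume estimate for one-endedness
-/

set_option autoImplicit false

namespace Pool.Agent.H32.OW

open Function Finset Filter Topology

variable {W D : Type*} [DecidableEq W] [Fintype D] (nx : W → D → W)

variable {V : Finset W}

/-- A strictly superharmonic function bounds the numbers of visits. -/
lemma gg_bdd {H : W → ℝ} (H0 : ∀ z, 0 < H z) (H1 : ∀ z, av (fun e => H (nx z e)) < H z)
    (V : Finset W) :
    ∃ c : ℝ, 0 < c ∧ ∀ A ⊆ V, ∀ n z, gg nx V A n z ≤ c * H z := by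
  classical
  obtain ⟨η, hη, hη'⟩ : ∃ η : ℝ, 0 < η ∧ ∀ z ∈ V, η ≤ H z - av (fun e => H (nx z e)) := by
    induction V using Finset.induction_on with
    | empty => exact ⟨1, one_pos, by simp⟩
    | insert v V _ ih =>
      obtain ⟨η, hη, hη'⟩ := ih
      refine ⟨min η (H v - av (fun e => H (nx v e))), lt_min hη (sub_pos.mpr (H1 v)), ?_⟩
      intro z hz
      rcases mem_insert.mp hz with rfl | hz
      · exact min_le_right _ _
      · exact (min_le_left _ _).trans (hη' z hz)
  refine ⟨η⁻¹, inv_pos.mpr hη, fun A hA n z => ?_⟩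
  refine gg_le_of_super nx (h := fun z => η⁻¹ * H z)
    (fun z => mul_nonneg (inv_pos.mpr hη).le (H0 z).le) (fun z => ?_) n z
  rw [av_mul_left]
  have h1 : η⁻¹ * η = 1 := inv_mul_cancel₀ hη.ne'
  split_ifs with h
  · have h2 := mul_le_mul_of_nonneg_left (hη' z (hA h)) (inv_pos.mpr hη).le
    rw [mul_sub, h1] at h2
    linarith
  · have h2 := mul_le_mul_of_nonneg_left (H1 z).le (inv_pos.mpr hη).le
    linarith

/-- The finite volume estimate. -/
theorem bad_bound [Nonempty D] (rev : D → D) (hrev : ∀ x e, nx (nx x e) (rev e) = x)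
    (hrr : ∀ e, rev (rev e) = e) {H : W → ℝ} (H0 : ∀ z, 0 < H z)
    (H1 : ∀ z, av (fun e => H (nx z e)) < H z) {x : W} (hx : x ∈ V) (o : D) (S : Finset W)
    {ε : ℝ} (hε : 0 ≤ ε) (hε1 : ε ≤ 1) {N : ℕ} {C : ℝ} (hC : 0 < C)
    (hsub : ∀ ρ ∈ AV nx V o, ∀ y ∈ S, Leads nx ρ y x → trail nx ρ y x ⊆ V →
      ∃ A ⊆ trail nx ρ y x, A.card = N ∧ ∀ k, ∀ a ∈ A, gg nx V A k a ≤ C) :
    PV nx V o {ρ | ∃ y ∈ S, Leads nx ρ y x ∧ trail nx ρ y x ⊆ V} ≤
      ε * Fintype.card D + S.card * Real.exp (-(ε * Fintype.card D * N / C)) := by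
  classical
  obtain ⟨c, hc, hcb⟩ := gg_bdd nx H0 H1 V
  set Bad : Set (W → D) := {ρ | ∃ y ∈ S, Leads nx ρ y x ∧ trail nx ρ y x ⊆ V} with hBad
  set F : (W → D) → ℝ := fun ρ => if ρ ∈ Bad then 1 else 0 with hF
  set cc : Finset W → ℝ := fun A => if A ⊆ V then 1 else 0 with hcc
  set Dc : ℝ := (Fintype.card D : ℝ) with hDc
  have hDc0 : 0 < Dc := by rw [hDc]; exact_mod_cast Fintype.card_pos
  -- error terms
  set u : ℕ → ℝ := fun n => ∑ A ∈ V.powerset, ∑ z ∈ V, (gg nx V A (n + 1) z - gg nx V A n z)
    with hu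
  set t : ℕ → ℝ := fun n => ∑ p ∈ bdry nx V, (1 - miss nx V ∅ n p.1) with ht
  have hu0 : Tendsto u atTop (𝓝 0) := by
    have : Tendsto u atTop (𝓝 (∑ A ∈ V.powerset, ∑ z ∈ V, (0 : ℝ))) := by
      refine tendsto_finsetSum _ fun A hA => tendsto_finsetSum _ fun z _ => ?_
      exact gg_diff_tendsto nx (C := c * H z) fun n => hcb A (mem_powerset.mp hA) n z
    simpa using this
  have ht0 : Tendsto t atTop (𝓝 0) := by
    have : Tendsto t atTop (𝓝 (∑ p ∈ bdry nx V, (0 : ℝ))) := by
      refine tendsto_finsetSum _ fun p _ => ?_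
      have h1 : (fun n => 1 - miss nx V ∅ n p.1) =
          fun n => gg nx V V (n + 1) p.1 - gg nx V V n p.1 := by
        funext n
        exact one_sub_miss_empty nx n p.1
      rw [h1]
      exact gg_diff_tendsto nx (C := c * H p.1) fun n => hcb V (Subset.refl _) n p.1
    simpa using this
  have hdiff : ∀ (A : Finset W) (n : ℕ) (z : W), 0 ≤ gg nx V A (n + 1) z - gg nx V A n z :=
    fun A n z => sub_nonneg.mpr (gg_mono_succ nx n z)
  have hu1 : ∀ A ⊆ V, ∀ n, ∑ z ∈ V, (gg nx V A (n + 1) z - gg nx V A n z) ≤ u n := by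
    intro A hA n
    exact single_le_sum (f := fun A => ∑ z ∈ V, (gg nx V A (n + 1) z - gg nx V A n z))
      (fun A _ => sum_nonneg fun z _ => hdiff A n z) (mem_powerset.mpr hA)
  -- the bound for every `n`
  have key : ∀ n, PV nx V o Bad ≤
      ε * (t n + Dc) + S.card * Real.exp (-(ε * Dc * (N - u n) / C)) := by
    intro n
    have h1 := many_walkers nx hx o S hε hε1 n (fun p : W × D => p.1) (bdry nx V) (F := F)
      (fun ρ => by simp only [hF]; split_ifs <;> norm_num)
      (fun ρ => by simp only [hF]; split_ifs <;> norm_num) (c0 := 0) le_rfl (c := cc)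
      (fun A => by simp only [hcc]; split_ifs <;> norm_num)
      (fun A hA => by simp only [hcc, if_neg hA])
      (fun ρ => by
        simp only [hF]
        split_ifs with h
        · obtain ⟨y, hy, h2, h3⟩ := h
          rw [zero_add]
          unfold bsum
          have h4 := single_le_sum (s := S)
            (f := fun y => if Leads nx ρ y x then cc (trail nx ρ y x) else 0)
            (fun y _ => by
              split_ifs
              · simp only [hcc]; split_ifs <;> norm_num
              · exact le_rfl) hy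
          refine le_trans ?_ h4
          simp only [hcc]
          rw [if_pos h2, if_pos h3]
        · rw [zero_add]
          exact bsum_nonneg nx (fun A => by simp only [hcc]; split_ifs <;> norm_num) ρ)
    have h2 : ∑ p ∈ bdry nx V, (1 - miss nx V {x} n p.1) ≤ t n + Dc := by
      have h3 : ∑ p ∈ bdry nx V, (1 - miss nx V {x} n p.1) ≤
          ∑ p ∈ bdry nx V, ((1 - miss nx V ∅ n p.1) + gg nx V {x} n p.1) :=
        sum_le_sum fun p _ => one_sub_miss_le nx n p.1
      rw [sum_add_distrib, sum_bdry nx rev hrev hrr {x} (by simpa using hx) n] at h3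
      have h4 : 0 ≤ ∑ z ∈ V, (gg nx V {x} (n + 1) z - gg nx V {x} n z) :=
        sum_nonneg fun z _ => hdiff {x} n z
      rw [card_singleton, Nat.cast_one] at h3
      nlinarith
    have h3 : ∀ ρ ∈ AV nx V o,
        bsum nx S x (fun A => cc A * ∏ i ∈ bdry nx V, (1 - ε * (1 - miss nx V A n i.1))) ρ ≤
          S.card * Real.exp (-(ε * Dc * (N - u n) / C)) := by
      intro ρ hρ
      unfold bsum
      rw [← nsmul_eq_mul, ← sum_const]
      refine sum_le_sum fun y hy => ?_
      split_ifs with hL
      swap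
      · exact (Real.exp_pos _).le
      simp only [hcc]
      split_ifs with hsubV
      swap
      · rw [zero_mul]
        exact (Real.exp_pos _).le
      rw [one_mul]
      obtain ⟨A, hA, hAN, hAC⟩ := hsub ρ hρ y hy hL hsubV
      have hAV : A ⊆ V := hA.trans hsubV
      calc ∏ i ∈ bdry nx V, (1 - ε * (1 - miss nx V (trail nx ρ y x) n i.1))
          ≤ ∏ i ∈ bdry nx V, Real.exp (-(ε / C * gg nx V A n i.1)) := by
            refine prod_le_prod (fun i _ => ?_) fun i _ => ?_
            · have h1 := miss_nonneg nx (V := V) (A := trail nx ρ y x) n i.1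
              have h2 := miss_le_one nx (V := V) (A := trail nx ρ y x) n i.1
              nlinarith
            · have h1 := miss_anti nx (V := V) hA n i.1
              have h2 := gg_le_miss nx (V := V) hAC hC.le n i.1
              have h3 : ε / C * gg nx V A n i.1 ≤ ε * (1 - miss nx V A n i.1) := by
                rw [div_mul_eq_mul_div, div_le_iff₀ hC]
                nlinarith [mul_le_mul_of_nonneg_left h2 hε]
              have h4 := Real.add_one_le_exp (-(ε / C * gg nx V A n i.1))
              nlinarith [mul_le_mul_of_nonneg_left h1 hε]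
        _ = Real.exp (-(ε / C * ∑ i ∈ bdry nx V, gg nx V A n i.1)) := by
            rw [← Real.exp_sum, sum_neg_distrib, mul_sum]
        _ ≤ Real.exp (-(ε * Dc * (N - u n) / C)) := by
            rw [Real.exp_le_exp, sum_bdry nx rev hrev hrr A hAV n, hAN]
            have h4 := hu1 A hAV n
            have h5 : ε * Dc * (N - u n) / C ≤
                ε / C * (Dc * (N - ∑ z ∈ V, (gg nx V A (n + 1) z - gg nx V A n z))) := by
              rw [div_mul_eq_mul_div]
              refine div_le_div_of_nonneg_right ?_ hC.le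
              rw [mul_assoc]
              refine mul_le_mul_of_nonneg_left ?_ hε
              refine mul_le_mul_of_nonneg_left ?_ hDc0.le
              linarith
            linarith
    have h4 : ∑ ρ ∈ AV nx V o, F ρ ≤ (AV nx V o).card *
        (ε * (t n + Dc) + S.card * Real.exp (-(ε * Dc * (N - u n) / C))) := by
      refine h1.trans ?_
      rw [← nsmul_eq_mul, ← sum_const]
      refine sum_le_sum fun ρ hρ => ?_
      have h5 := h3 ρ hρ
      have h6 := mul_le_mul_of_nonneg_left h2 hε
      linarith
    have h5 : ∑ ρ ∈ AV nx V o, F ρ = ((AV nx V o).filter fun ρ => ρ ∈ Bad).card := by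
      simp only [hF]
      rw [sum_ite, sum_const_zero, add_zero, sum_const, nsmul_eq_mul, mul_one]
    have hpos : 0 ≤ ε * (t n + Dc) + S.card * Real.exp (-(ε * Dc * (N - u n) / C)) := by
      have : 0 ≤ t n := sum_nonneg fun p _ => by
        linarith [miss_le_one nx (V := V) (A := ∅) n p.1]
      positivity
    rw [h5] at h4
    have h6 : PV nx V o Bad =
        ((AV nx V o).filter fun ρ => ρ ∈ Bad).card / ((AV nx V o).card : ℝ) := by
      unfold PV
      congr!
    rw [h6]
    rcases Nat.eq_zero_or_pos (AV nx V o).card with h0 | h0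
    · rw [h0]
      simpa using hpos
    · rw [div_le_iff₀ (by exact_mod_cast h0), mul_comm]
      exact h4
  have hlim : Tendsto (fun n => ε * (t n + Dc) +
      S.card * Real.exp (-(ε * Dc * (N - u n) / C))) atTop
      (𝓝 (ε * (0 + Dc) + S.card * Real.exp (-(ε * Dc * (N - 0) / C)))) := by
    refine ((ht0.add_const Dc).const_mul ε).add (Tendsto.const_mul _ ?_)
    refine (Real.continuous_exp.tendsto _).comp ?_
    exact (((tendsto_const_nhds.sub hu0).const_mul (ε * Dc)).div_const C).neg
  have := ge_of_tendsto' hlim key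
  simpa using this

end Pool.Agent.H32.OW
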