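import Pool.Agent.H32.OW.Defs
import Pool.Agent.H32.OW.OneEnd
import Pool.Agent.H32.OW.Lyap

/-!
# Geometry of `ℤ^d` and uniform one-endedness
-/

set_option autoImplicit false

namespace Pool.Agent.H32.OW

open Function Finset Filter Topology

variable {d : ℕ}

/-- The opposite direction. -/
def rev (e : Dir d) : Dir d := (e.1, !e.2)

lemma nb_rev (x : Vtx d) (e : Dir d) : nb (nb x e) (rev e) = x := by
  funext j
  rcases e with ⟨i, b⟩
  simp only [nb, rev]
  by_cases h : j = i
  · cases b <;> simp [h]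
  · simp [h]

lemma rev_rev (e : Dir d) : rev (rev e) = e := by
  rcases e with ⟨i, b⟩
  simp [rev]

lemma nb_sub (z a : Vtx d) (e : Dir d) : nb z e - a = nb (z - a) e := by
  funext j
  simp only [nb, Pi.sub_apply]
  ring

lemma gdist_self (x : Vtx d) : gdist x x = 0 := by simp [gdist]

lemma gdist_comm (x y : Vtx d) : gdist x y = gdist y x := by
  unfold gdist
  refine sum_congr rfl fun j _ => ?_
  rw [← Int.natAbs_neg]
  congr 1
  ring

lemma gdist_triangle (x y z : Vtx d) : gdist x z ≤ gdist x y + gdist y z := by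
  unfold gdist
  rw [← sum_add_distrib]
  refine sum_le_sum fun j _ => ?_
  have : x j - z j = (x j - y j) + (y j - z j) := by ring
  rw [this]
  exact Int.natAbs_add_le _ _

lemma gdist_sub (x y : Vtx d) : gdist (x - y) 0 = gdist x y := by
  simp [gdist]

lemma gdist_nb (x : Vtx d) (e : Dir d) : gdist (nb x e) x = 1 := by
  rcases e with ⟨i, b⟩
  unfold gdist
  rw [sum_eq_single i]
  · cases b <;> simp [nb]
  · intro j _ hj
    simp [nb, hj]
  · simp

lemma gdist_nb_le (x y : Vtx d) (e : Dir d) : gdist (nb x e) y ≤ gdist x y + 1 := by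
  have := gdist_triangle (nb x e) x y
  rw [gdist_nb] at this
  omega

lemma gdist_le_nb (x y : Vtx d) (e : Dir d) : gdist x y ≤ gdist (nb x e) y + 1 := by
  have := gdist_triangle x (nb x e) y
  rw [gdist_comm x (nb x e), gdist_nb] at this
  omega

lemma mem_inner {a x : Vtx d} {r : ℕ} : x ∈ inner a r ↔ gdist x a < r := by
  unfold inner
  rw [mem_filter, Fintype.mem_piFinset]
  refine ⟨fun h => h.2, fun h => ⟨fun j => ?_, h⟩⟩
  have h1 : (x j - a j).natAbs ≤ gdist x a :=
    single_le_sum (f := fun j => (x j - a j).natAbs) (fun _ _ => Nat.zero_le _) (mem_univ j)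
  rw [mem_Icc]
  omega

lemma inner_mono {a : Vtx d} {r s : ℕ} (h : r ≤ s) : inner a r ⊆ inner a s := by
  intro x hx
  rw [mem_inner] at hx ⊢
  omega

lemma card_inner_le (a : Vtx d) (r : ℕ) : (inner a r).card ≤ (2 * r + 1) ^ d := by
  unfold inner
  refine (card_filter_le _ _).trans ?_
  rw [Fintype.card_piFinset]
  simp only [Int.card_Icc]
  have : ∀ j : Fin d, (a j + (r : ℤ) + 1 - (a j - (r : ℤ))).toNat = 2 * r + 1 := by
    intro j
    omega
  simp [this]

/-! ### Green function bound -/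

/-- The Lyapunov function bounds the numbers of visits to a finite set. -/
lemma gg_le_sum {H : Vtx d → ℝ} (H0 : ∀ z, 0 < H z) (H1 : ∀ z, av (fun e => H (nb z e)) < H z)
    (V A : Finset (Vtx d)) (n : ℕ) (z : Vtx d) :
    gg nb V A n z ≤ (∑ a ∈ A, H (z - a)) / (H 0 - av (fun e => H (nb 0 e))) := by
  set η := H 0 - av (fun e => H (nb 0 e)) with hη
  have hη0 : 0 < η := sub_pos.mpr (H1 0)
  refine gg_le_of_super nb (h := fun z => (∑ a ∈ A, H (z - a)) / η)
    (fun z => div_nonneg (sum_nonneg fun a _ => (H0 _).le) hη0.le) (fun z => ?_) n z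
  have h1 : (fun e => (∑ a ∈ A, H (nb z e - a)) / η) =
      fun e => (∑ a ∈ A, H (nb (z - a) e)) * η⁻¹ := by
    funext e
    rw [div_eq_mul_inv]
    congr 1
    exact sum_congr rfl fun a _ => by rw [nb_sub]
  simp only [h1]
  rw [av_mul_right, av_sum, div_eq_mul_inv]
  split_ifs with hz
  · have h2 : η + ∑ a ∈ A, av (fun e => H (nb (z - a) e)) ≤ ∑ a ∈ A, H (z - a) := by
      rw [← add_sum_erase A _ hz, ← add_sum_erase A (fun a => H (z - a)) hz]
      have h3 : ∑ a ∈ A.erase z, av (fun e => H (nb (z - a) e)) ≤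
          ∑ a ∈ A.erase z, H (z - a) := sum_le_sum fun a _ => (H1 _).le
      simp only [sub_self]
      linarith
    have h3 := mul_le_mul_of_nonneg_right h2 (inv_pos.mpr hη0).le
    rw [add_mul, mul_inv_cancel₀ hη0.ne'] at h3
    exact h3
  · rw [zero_add]
    exact mul_le_mul_of_nonneg_right (sum_le_sum fun a _ => (H1 _).le) (inv_pos.mpr hη0).le

/-! ### Well spread points on a path -/

/-- A sequence that ends at zero and goes down by at most one takes every smaller value. -/
lemma exists_level {f : ℕ → ℕ} {k m : ℕ} (h0 : m ≤ f 0) (hk : f k = 0)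
    (hstep : ∀ j, f j ≤ f (j + 1) + 1) : ∃ j ≤ k, f j = m := by
  classical
  rcases Nat.eq_zero_or_pos m with rfl | hm
  · exact ⟨k, le_rfl, hk⟩
  -- the last index with value at least `m`
  have h1 : ∃ j, f j ≤ m := ⟨k, by omega⟩
  have h2 := Nat.find_spec h1
  rcases Nat.eq_zero_or_pos (Nat.find h1) with h3 | h3
  · refine ⟨0, Nat.zero_le _, ?_⟩
    rw [h3] at h2
    omega
  · refine ⟨Nat.find h1, Nat.find_min' h1 (by omega), ?_⟩
    have h4 := Nat.find_min h1 (m := Nat.find h1 - 1) (by omega)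
    have h5 := hstep (Nat.find h1 - 1)
    rw [show Nat.find h1 - 1 + 1 = Nat.find h1 by omega] at h5
    omega

lemma exists_spread {ρ : Config d} {x y : Vtx d} (h : Leads nb ρ y x) {N : ℕ}
    (hN : N ^ 3 ≤ gdist y x) :
    ∃ A ⊆ trail nb ρ y x, A.card = N ∧ ∀ a ∈ A, ∀ b ∈ A, a ≠ b → N ^ 2 ≤ gdist a b := by
  classical
  obtain ⟨k, h1, h2, h3⟩ := trail_spec nb h
  have h4 : ∀ i : ℕ, ∃ j, i ≤ N → j ≤ k ∧ gdist ((fol nb ρ)^[j] y) x = i * N ^ 2 := by
    intro i
    by_cases hi : i ≤ N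
    · obtain ⟨j, hj, hj'⟩ := exists_level (f := fun j => gdist ((fol nb ρ)^[j] y) x) (k := k)
        (m := i * N ^ 2) (by
          show i * N ^ 2 ≤ gdist y x
          calc i * N ^ 2 ≤ N * N ^ 2 := Nat.mul_le_mul_right _ hi
            _ = N ^ 3 := by ring
            _ ≤ _ := hN)
        (by rw [h1, gdist_self]) (fun j => by
          rw [iterate_succ_apply']
          exact gdist_le_nb _ _ _)
      exact ⟨j, fun _ => ⟨hj, hj'⟩⟩
    · exact ⟨0, fun h => absurd h hi⟩
  choose J hJ using h4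
  set p : ℕ → Vtx d := fun i => (fol nb ρ)^[J i] y with hp
  have hdist : ∀ i j, i ≤ N → j ≤ N → i < j → N ^ 2 ≤ gdist (p i) (p j) := by
    intro i j hi hj hij
    have h5 := (hJ i hi).2
    have h6 := (hJ j hj).2
    have h7 := gdist_triangle (p j) (p i) x
    rw [gdist_comm (p j) (p i)] at h7
    simp only [hp] at h7 ⊢
    rw [h5, h6] at h7
    have h8 : (i + 1) * N ^ 2 ≤ j * N ^ 2 := Nat.mul_le_mul_right _ hij
    nlinarith
  rcases Nat.eq_zero_or_pos N with hN0 | hN0
  · exact ⟨∅, empty_subset _, by simp [hN0], by simp⟩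
  have hpos : 0 < N ^ 2 := by positivity
  have hinj : Set.InjOn p (Finset.Icc 1 N : Finset ℕ) := by
    intro i hi j hj hij
    rw [mem_coe, mem_Icc] at hi hj
    rcases lt_trichotomy i j with h | h | h
    · have := hdist i j hi.2 hj.2 h
      rw [hij, gdist_self] at this
      omega
    · exact h
    · have := hdist j i hj.2 hi.2 h
      rw [hij, gdist_self] at this
      omega
  refine ⟨(Finset.Icc 1 N).image p, ?_, ?_, ?_⟩
  · intro v hv
    obtain ⟨i, hi, rfl⟩ := mem_image.mp hv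
    rw [mem_Icc] at hi
    rw [h3]
    exact mem_image.mpr ⟨J i, mem_range.mpr (by have := (hJ i hi.2).1; omega), rfl⟩
  · rw [card_image_of_injOn hinj, Nat.card_Icc]
    omega
  · intro v hv w hw hvw
    obtain ⟨i, hi, rfl⟩ := mem_image.mp hv
    obtain ⟨j, hj, rfl⟩ := mem_image.mp hw
    rw [mem_Icc] at hi hj
    rcases lt_trichotomy i j with h | h | h
    · exact hdist i j hi.2 hj.2 h
    · exact absurd (by rw [h]) hvw
    · rw [gdist_comm]
      exact hdist j i hj.2 hi.2 h

/-! ### One-endedness -/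

/-- The past of `x` is not contained in `U`. -/
def BadSet (U : Finset (Vtx d)) (x : Vtx d) : Set (Config d) :=
  {ρ | ∃ y k, y ∉ U ∧ (fol nb ρ)^[k] y = x}

lemma BadSet_anti {U U' : Finset (Vtx d)} (h : U ⊆ U') (x : Vtx d) :
    BadSet U' x ⊆ BadSet U x := by
  rintro ρ ⟨y, k, h1, h2⟩
  exact ⟨y, k, fun h3 => h1 (h h3), h2⟩

/-- The path from outside to `x` can be chosen to start at the outer boundary. -/
lemma BadSet_local {a x : Vtx d} {M : ℕ} (hx : x ∈ inner a M) {ρ : Config d}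
    (h : ρ ∈ BadSet (inner a M) x) :
    ∃ y, M ≤ gdist y a ∧ y ∈ inner a (M + 1) ∧ Leads nb ρ y x ∧
      trail nb ρ y x ⊆ inner a (M + 1) := by
  classical
  obtain ⟨y, k, hy, hk⟩ := h
  -- the shortest such path
  have h1 : ∃ k y, y ∉ inner a M ∧ (fol nb ρ)^[k] y = x := ⟨k, y, hy, hk⟩
  obtain ⟨z, hz, hz'⟩ := Nat.find_spec h1
  set m := Nat.find h1 with hm
  have hmin : ∀ j, 0 < j → j ≤ m → (fol nb ρ)^[j] z ∈ inner a M := by
    intro j hj hjm
    by_contra hcon
    refine Nat.find_min h1 (m := m - j) (by omega) ⟨_, hcon, ?_⟩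
    rw [← iterate_add_apply, show m - j + j = m by omega]
    exact hz'
  have hm0 : 0 < m := by
    rcases Nat.eq_zero_or_pos m with h2 | h2
    · rw [h2] at hz'
      have h3 : z = x := hz'
      rw [h3] at hz
      exact absurd hx hz
    · exact h2
  have h2 : z ∈ inner a (M + 1) := by
    have h3 := hmin 1 one_pos hm0
    rw [mem_inner] at h3 ⊢
    have h4 := gdist_le_nb z a (ρ z)
    have h5 : (fol nb ρ)^[1] z = nb z (ρ z) := rfl
    rw [h5] at h3
    omega
  have hL : Leads nb ρ z x := ⟨m, hz'⟩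
  refine ⟨z, ?_, h2, hL, ?_⟩
  · rw [mem_inner] at hz
    omega
  · obtain ⟨k', h3, h4, h5⟩ := trail_spec nb hL
    have hk' : k' ≤ m := by
      by_contra hcon
      exact h4 m (by omega) hz'
    intro v hv
    rw [h5] at hv
    obtain ⟨j, hj, rfl⟩ := mem_image.mp hv
    rw [mem_range] at hj
    rcases Nat.eq_zero_or_pos j with h6 | h6
    · rw [h6]
      exact h2
    · exact inner_mono (Nat.le_succ M) (hmin j h6 (by omega))

lemma PV_nonneg {W D : Type*} [DecidableEq W] [Fintype D] (nx : W → D → W) (V : Finset W) (o : D)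
    (E : Set (W → D)) : 0 ≤ PV nx V o E := by
  unfold PV
  positivity

lemma PV_mono {W D : Type*} [DecidableEq W] [Fintype D] (nx : W → D → W) (V : Finset W) (o : D)
    {E E' : Set (W → D)} (h : ∀ ρ ∈ AV nx V o, ρ ∈ E → ρ ∈ E') : PV nx V o E ≤ PV nx V o E' := by
  classical
  unfold PV
  refine div_le_div_of_nonneg_right ?_ (Nat.cast_nonneg _)
  refine Nat.cast_le.mpr (card_le_card fun ρ hρ => ?_)
  rw [mem_filter] at hρ ⊢
  exact ⟨hρ.1, h ρ hρ.1 hρ.2⟩

/-- Uniform one-endedness. -/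
theorem one_ended (hd : 3 ≤ d) (a x : Vtx d) (o : Dir d) {δ : ℝ} (hδ : 0 < δ) :
    ∃ M0, ∀ M, M0 ≤ M → ∀ V : Finset (Vtx d), inner a (M + 1) ⊆ V →
      PV nb V o (BadSet (inner a M) x) ≤ δ := by
  obtain ⟨H, C, hC, H0, H1, H2, H3⟩ := exists_lyapunov d hd
  have : Nonempty (Fin d) := ⟨⟨0, by omega⟩⟩
  set η := H 0 - av (fun e => H (nb 0 e)) with hη
  have hη0 : 0 < η := sub_pos.mpr (H1 0)
  set CG := (H 0 + C) / η with hCG
  have hCG0 : 0 < CG := div_pos (add_pos (H0 0) hC) hη0
  set R := gdist x a with hR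
  set Dc : ℝ := (Fintype.card (Dir d) : ℝ) with hDc
  have hDc0 : 0 < Dc := by rw [hDc]; exact_mod_cast Fintype.card_pos
  -- the estimate
  have key : ∀ (N : ℕ), 0 < N → ∀ ε : ℝ, 0 ≤ ε → ε ≤ 1 → ∀ V : Finset (Vtx d),
      inner a (N ^ 3 + R + 1) ⊆ V → PV nb V o (BadSet (inner a (N ^ 3 + R)) x) ≤
        ε * Dc + ((2 * (N ^ 3 + R + 1) + 1 : ℕ) : ℝ) ^ d * Real.exp (-(ε * Dc * N / CG)) := by
    intro N hN ε hε hε1 V hV
    set M := N ^ 3 + R with hM
    have hxM : x ∈ inner a M := by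
      rw [mem_inner, ← hR, hM]
      have : 0 < N ^ 3 := by positivity
      omega
    have hxV : x ∈ V := hV (inner_mono (Nat.le_succ M) hxM)
    set S := (inner a (M + 1)).filter fun y => M ≤ gdist y a with hS
    have h1 := bad_bound nb rev nb_rev rev_rev H0 H1 hxV o S hε hε1 (N := N) (C := CG) hCG0 (by
      intro ρ _ y hy hL hsub
      rw [hS, mem_filter] at hy
      have h2 : N ^ 3 ≤ gdist y x := by
        have h3 := gdist_triangle y x a
        rw [← hR] at h3
        omega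
      obtain ⟨A, hA, hAN, hAd⟩ := exists_spread hL h2
      refine ⟨A, hA, hAN, fun k b hb => ?_⟩
      refine (gg_le_sum H0 H1 V A k b).trans ?_
      rw [hCG]
      refine div_le_div_of_nonneg_right ?_ hη0.le
      rw [← add_sum_erase A _ hb, sub_self]
      have h4 : ∑ c ∈ A.erase b, H (b - c) ≤ ∑ c ∈ A.erase b, C / N := by
        refine sum_le_sum fun c hc => H2 _ N hN ?_
        rw [gdist_sub]
        exact hAd b hb c (mem_of_mem_erase hc) (ne_of_mem_erase hc).symm
      rw [sum_const, nsmul_eq_mul] at h4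
      have h5 : ((A.erase b).card : ℝ) * (C / N) ≤ C := by
        have h6 : ((A.erase b).card : ℝ) ≤ N := by
          rw [← hAN]
          exact_mod_cast card_le_card (erase_subset b A)
        have hN' : (0 : ℝ) < N := by exact_mod_cast hN
        calc ((A.erase b).card : ℝ) * (C / N) ≤ N * (C / N) :=
              mul_le_mul_of_nonneg_right h6 (div_nonneg hC.le hN'.le)
          _ = C := by field_simp
      linarith)
    have h2 : PV nb V o (BadSet (inner a M) x) ≤
        PV nb V o {ρ | ∃ y ∈ S, Leads nb ρ y x ∧ trail nb ρ y x ⊆ V} := by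
      refine PV_mono nb V o fun ρ _ hρ => ?_
      obtain ⟨y, hy1, hy2, hy3, hy4⟩ := BadSet_local hxM hρ
      exact ⟨y, by rw [hS, mem_filter]; exact ⟨hy2, hy1⟩, hy3, hy4.trans hV⟩
    refine h2.trans (h1.trans ?_)
    gcongr
    have h3 : S.card ≤ (2 * (M + 1) + 1) ^ d :=
      (card_filter_le _ _).trans (card_inner_le a (M + 1))
    exact_mod_cast h3
  -- choose `ε`, then `N`
  set ε : ℝ := min 1 (δ / (2 * Dc)) with hε
  have hε0 : 0 < ε := lt_min one_pos (div_pos hδ (by positivity))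
  have hε1 : ε ≤ 1 := min_le_left _ _
  have hε2 : ε * Dc ≤ δ / 2 := by
    have := min_le_right 1 (δ / (2 * Dc))
    calc ε * Dc ≤ δ / (2 * Dc) * Dc := mul_le_mul_of_nonneg_right this hDc0.le
      _ = δ / 2 := by field_simp
  have hlim : Tendsto (fun N : ℕ => ((2 * (N ^ 3 + R + 1) + 1 : ℕ) : ℝ) ^ d *
      Real.exp (-(ε * Dc * N / CG))) atTop (𝓝 0) := by
    set b := ε * Dc / CG with hb
    have hb0 : 0 < b := by positivity
    -- bound by a constant times `N^(3d) exp(-bN)`
    have h1 : Tendsto (fun N : ℕ => (N : ℝ) ^ (3 * d) * Real.exp (-b * N)) atTop (𝓝 0) := by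
      have := (Real.tendsto_pow_mul_exp_neg_atTop_nhds_zero (3 * d)).comp
        ((tendsto_natCast_atTop_atTop (R := ℝ)).const_mul_atTop hb0)
      have h2 := this.const_mul ((b ^ (3 * d))⁻¹)
      rw [mul_zero] at h2
      refine h2.congr fun N => ?_
      simp only [Function.comp]
      rw [mul_pow, ← mul_assoc, ← mul_assoc, inv_mul_cancel₀ (by positivity), one_mul, neg_mul]
    have h2 := h1.const_mul (((2 * (R + 2) + 1 : ℕ) : ℝ) ^ d)
    rw [mul_zero] at h2
    refine squeeze_zero' (Eventually.of_forall fun N => by positivity) ?_ h2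
    filter_upwards [eventually_ge_atTop 1] with N hN
    rw [← mul_assoc]
    have h3 : -(ε * Dc * N / CG) = -b * N := by rw [hb]; ring
    rw [h3]
    refine mul_le_mul_of_nonneg_right ?_ (Real.exp_pos _).le
    rw [pow_mul, ← mul_pow]
    refine pow_le_pow_left₀ (by positivity) ?_ d
    have h4 : 2 * (N ^ 3 + R + 1) + 1 ≤ (2 * (R + 2) + 1) * N ^ 3 := by
      have : 1 ≤ N ^ 3 := Nat.one_le_pow _ _ hN
      nlinarith
    exact_mod_cast h4
  obtain ⟨N, hN, hN1⟩ := ((hlim.eventually_le_const (show (0 : ℝ) < δ / 2 by positivity)).and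
    (eventually_ge_atTop 1)).exists
  refine ⟨N ^ 3 + R, fun M hM V hV => ?_⟩
  have h1 := key N hN1 ε hε0.le hε1 V ((inner_mono (by omega)).trans hV)
  calc PV nb V o (BadSet (inner a M) x) ≤ PV nb V o (BadSet (inner a (N ^ 3 + R)) x) :=
        PV_mono nb V o fun ρ _ hρ => BadSet_anti (inner_mono hM) x hρ
    _ ≤ _ := h1
    _ ≤ δ / 2 + δ / 2 := add_le_add hε2 hN
    _ = δ := by ring

end Pool.Agent.H32.OW
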