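import Pool.Agent.H32.OW.Cut

/-!
# Expected numbers of visits
-/

set_option autoImplicit false

namespace Pool.Agent.H32.OW

open Function Finset Filter Topology

variable {W D : Type*} [DecidableEq W] [Fintype D] (nx : W → D → W)

variable {V : Finset W}

lemma gg_out {A : Finset W} {z : W} (hz : z ∉ V) (n : ℕ) : gg nx V A n z = 0 := by
  cases n <;> simp [gg, hz]

lemma gg_succ_in {A : Finset W} {z : W} (hz : z ∈ V) (n : ℕ) :
    gg nx V A (n + 1) z = (if z ∈ A then 1 else 0) + av fun e => gg nx V A n (nx z e) := by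
  simp [gg, hz]

lemma gg_nonneg {A : Finset W} : ∀ (n : ℕ) (z : W), 0 ≤ gg nx V A n z := by
  intro n
  induction n with
  | zero => intro z; simp [gg]
  | succ n ih =>
    intro z
    by_cases hz : z ∈ V
    · rw [gg_succ_in nx hz]
      refine add_nonneg (by split_ifs <;> norm_num) (av_nonneg fun e => ih _)
    · rw [gg_out nx hz]

lemma gg_mono_succ {A : Finset W} : ∀ (n : ℕ) (z : W),
    gg nx V A n z ≤ gg nx V A (n + 1) z := by
  intro n
  induction n with
  | zero => intro z; rw [show gg nx V A 0 z = 0 from rfl]; exact gg_nonneg nx _ _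
  | succ n ih =>
    intro z
    by_cases hz : z ∈ V
    · rw [gg_succ_in nx hz, gg_succ_in nx hz]
      have := av_mono fun e => ih (nx z e)
      linarith
    · rw [gg_out nx hz, gg_out nx hz]

/-- A superharmonic function bounds the number of visits. -/
lemma gg_le_of_super {A : Finset W} {h : W → ℝ} (h0 : ∀ z, 0 ≤ h z)
    (h1 : ∀ z, (if z ∈ A then 1 else 0) + av (fun e => h (nx z e)) ≤ h z) :
    ∀ (n : ℕ) (z : W), gg nx V A n z ≤ h z := by
  intro n
  induction n with
  | zero => intro z; exact h0 z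
  | succ n ih =>
    intro z
    by_cases hz : z ∈ V
    · rw [gg_succ_in nx hz]
      have := av_mono fun e => ih (nx z e)
      linarith [h1 z]
    · rw [gg_out nx hz]
      exact h0 z

/-- First visit decomposition. -/
lemma gg_le_miss [Nonempty D] {A : Finset W} {C : ℝ} (hC : ∀ (k : ℕ), ∀ a ∈ A, gg nx V A k a ≤ C)
    (hC0 : 0 ≤ C) :
    ∀ (n : ℕ) (z : W), gg nx V A n z ≤ C * (1 - miss nx V A n z) := by
  intro n
  induction n with
  | zero =>
    intro z
    have := miss_le_one nx (V := V) (A := A) 0 z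
    rw [show gg nx V A 0 z = 0 from rfl]
    exact mul_nonneg hC0 (by linarith)
  | succ n ih =>
    intro z
    by_cases hz : z ∈ V
    · by_cases hA : z ∈ A
      · rw [miss_mem nx hz hA]
        have := hC (n + 1) z hA
        linarith
      · rw [gg_succ_in nx hz, miss_succ_in nx hz hA, if_neg hA, zero_add]
        refine (av_mono fun e => ih (nx z e)).trans ?_
        rw [av_mul_left, av_sub, av_const]
    · rw [gg_out nx hz, miss_out nx hz]
      simp

/-- Upper bound for the hitting probability. -/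
lemma one_sub_miss_le [Nonempty D] {x : W} :
    ∀ (n : ℕ) (z : W), 1 - miss nx V {x} n z ≤ (1 - miss nx V ∅ n z) + gg nx V {x} n z := by
  intro n
  induction n with
  | zero => intro z; simp [miss, gg]
  | succ n ih =>
    intro z
    by_cases hz : z ∈ V
    · by_cases hx : z = x
      · rw [miss_mem nx hz (by simp [hx]), gg_succ_in nx hz, if_pos (by simp [hx])]
        have h1 := miss_le_one nx (V := V) (A := ∅) (n + 1) z
        have h2 := av_nonneg fun e => gg_nonneg nx (V := V) (A := {x}) n (nx z e)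
        linarith
      · rw [miss_succ_in nx hz (by simpa using hx), miss_succ_in nx hz (notMem_empty z),
          gg_succ_in nx hz, if_neg (by simpa using hx), zero_add]
        have h1 := av_mono fun e => ih (nx z e)
        rw [av_sub, av_add, av_sub, av_const] at h1
        linarith
    · rw [miss_out nx hz, miss_out nx hz, gg_out nx hz]
      simp

/-! ### Limits -/

lemma gg_diff_tendsto {A : Finset W} {z : W} {C : ℝ} (hC : ∀ n, gg nx V A n z ≤ C) :
    Tendsto (fun n => gg nx V A (n + 1) z - gg nx V A n z) atTop (𝓝 0) := by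
  have h1 : Monotone fun n => gg nx V A n z := monotone_nat_of_le_succ fun n => gg_mono_succ nx n z
  have h2 : Tendsto (fun n => gg nx V A n z) atTop (𝓝 (⨆ n, gg nx V A n z)) :=
    tendsto_atTop_ciSup h1 ⟨C, by rintro _ ⟨n, rfl⟩; exact hC n⟩
  have h3 := (h2.comp (tendsto_add_atTop_nat 1)).sub h2
  simpa using h3

/-- The probability to stay in `V` for `n` steps is the increment of the number of visits. -/
lemma one_sub_miss_empty [Nonempty D] :
    ∀ (n : ℕ) (z : W), 1 - miss nx V ∅ n z = gg nx V V (n + 1) z - gg nx V V n z := by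
  intro n
  induction n with
  | zero =>
    intro z
    by_cases hz : z ∈ V
    · rw [gg_succ_in nx hz]
      simp [miss, gg, hz, av_const]
    · simp [miss, gg, hz]
  | succ n ih =>
    intro z
    by_cases hz : z ∈ V
    · rw [gg_succ_in nx hz, gg_succ_in nx hz, miss_succ_in nx hz (notMem_empty z)]
      have h1 : av (fun e => 1 - miss nx V ∅ n (nx z e)) =
          av fun e => gg nx V V (n + 1) (nx z e) - gg nx V V n (nx z e) := by
        congr 1
        funext e
        exact ih _
      rw [av_sub, av_sub, av_const] at h1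
      linarith
    · rw [gg_out nx hz, gg_out nx hz, miss_out nx hz]
      simp

/-! ### Reversibility -/

/-- The pairs of a vertex of `V` and a direction that leads out of `V`. -/
def bdry (V : Finset W) : Finset (W × D) := (V ×ˢ univ).filter fun p => nx p.1 p.2 ∉ V

lemma sum_bdry (rev : D → D) (hrev : ∀ x e, nx (nx x e) (rev e) = x) (hrr : ∀ e, rev (rev e) = e)
    (A : Finset W) (hA : A ⊆ V) (n : ℕ) :
    ∑ p ∈ bdry nx V, gg nx V A n p.1 =
      (Fintype.card D : ℝ) * (A.card - ∑ z ∈ V, (gg nx V A (n + 1) z - gg nx V A n z)) := by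
  classical
  rcases isEmpty_or_nonempty D with hD | hD
  · simp [bdry]
  have hDc : (Fintype.card D : ℝ) ≠ 0 := by exact_mod_cast Fintype.card_ne_zero
  -- all pairs
  have h1 : ∑ p ∈ V ×ˢ (univ : Finset D), gg nx V A n p.1 =
      (Fintype.card D : ℝ) * ∑ z ∈ V, gg nx V A n z := by
    rw [sum_product, mul_sum]
    simp
  -- inner pairs: reverse the edge
  have h2 : ∑ p ∈ (V ×ˢ (univ : Finset D)).filter (fun p => nx p.1 p.2 ∈ V), gg nx V A n p.1 =
      ∑ p ∈ (V ×ˢ (univ : Finset D)).filter (fun p => nx p.1 p.2 ∈ V),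
        gg nx V A n (nx p.1 p.2) := by
    refine sum_bij' (fun p _ => (nx p.1 p.2, rev p.2)) (fun p _ => (nx p.1 p.2, rev p.2))
      ?_ ?_ ?_ ?_ ?_
    · rintro ⟨z, e⟩ hp
      simp only [mem_filter, mem_product, mem_univ, and_true] at hp ⊢
      exact ⟨hp.2, by rw [hrev]; exact hp.1⟩
    · rintro ⟨z, e⟩ hp
      simp only [mem_filter, mem_product, mem_univ, and_true] at hp ⊢
      exact ⟨hp.2, by rw [hrev]; exact hp.1⟩
    · rintro ⟨z, e⟩ _
      simp [hrev, hrr]
    · rintro ⟨z, e⟩ _
      simp [hrev, hrr]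
    · rintro ⟨z, e⟩ _
      simp [hrev]
  have h3 : ∑ p ∈ (V ×ˢ (univ : Finset D)).filter (fun p => nx p.1 p.2 ∈ V),
        gg nx V A n (nx p.1 p.2) = ∑ p ∈ V ×ˢ (univ : Finset D), gg nx V A n (nx p.1 p.2) := by
    rw [sum_filter]
    refine sum_congr rfl fun p _ => ?_
    split_ifs with h
    · rfl
    · rw [gg_out nx h]
  have h4 : ∑ p ∈ V ×ˢ (univ : Finset D), gg nx V A n (nx p.1 p.2) =
      (Fintype.card D : ℝ) * ∑ z ∈ V, (gg nx V A (n + 1) z - if z ∈ A then 1 else 0) := by
    rw [sum_product, mul_sum]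
    refine sum_congr rfl fun z hz => ?_
    rw [gg_succ_in nx hz, add_sub_cancel_left, av, mul_div_cancel₀ _ hDc]
  have h5 : ∑ p ∈ bdry nx V, gg nx V A n p.1 =
      ∑ p ∈ V ×ˢ (univ : Finset D), gg nx V A n p.1 -
      ∑ p ∈ (V ×ˢ (univ : Finset D)).filter (fun p => nx p.1 p.2 ∈ V), gg nx V A n p.1 := by
    rw [← sum_filter_add_sum_filter_not (V ×ˢ (univ : Finset D)) (fun p => nx p.1 p.2 ∈ V)]
    simp [bdry]
  rw [h5, h1, h2, h3, h4, sum_sub_distrib, sum_sub_distrib]
  have h6 : ∑ z ∈ V, (if z ∈ A then (1 : ℝ) else 0) = A.card := by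
    rw [← sum_filter, sum_const, nsmul_eq_mul, mul_one]
    congr 2
    ext z
    simp only [mem_filter]
    exact ⟨fun h => h.2, fun h => ⟨hA h, h⟩⟩
  rw [h6]
  ring

end Pool.Agent.H32.OW
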