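import Pool.Agent.H32.OW.Model

/-!
# Simple random walk with last-exit arrows preserves the uniform law
-/

set_option autoImplicit false

namespace Pool.Agent.H32.OW

open Function Finset

variable {W D : Type*} [DecidableEq W] [Fintype D] (nx : W → D → W)

section average

variable [Nonempty D]

omit [DecidableEq W] in
lemma av_const (c : ℝ) : av (fun _ : D => c) = c := by
  simp only [av, sum_const, card_univ, nsmul_eq_mul]
  have : (Fintype.card D : ℝ) ≠ 0 := by exact_mod_cast Fintype.card_ne_zero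
  field_simp

end average

lemma av_mono {f g : D → ℝ} (h : ∀ e, f e ≤ g e) : av f ≤ av g :=
  div_le_div_of_nonneg_right (sum_le_sum fun e _ => h e) (Nat.cast_nonneg _)

lemma av_nonneg {f : D → ℝ} (h : ∀ e, 0 ≤ f e) : 0 ≤ av f :=
  div_nonneg (sum_nonneg fun e _ => h e) (Nat.cast_nonneg _)

lemma av_le [Nonempty D] {f : D → ℝ} {c : ℝ} (h : ∀ e, f e ≤ c) : av f ≤ c :=
  (av_mono h).trans (av_const c).le

lemma av_add (f g : D → ℝ) : av (fun e => f e + g e) = av f + av g := by
  simp [av, sum_add_distrib, add_div]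

lemma av_sub (f g : D → ℝ) : av (fun e => f e - g e) = av f - av g := by
  simp [av, sum_sub_distrib, sub_div]

lemma av_mul_left (c : ℝ) (f : D → ℝ) : av (fun e => c * f e) = c * av f := by
  rw [av, av, ← mul_sum, mul_div_assoc]

lemma av_mul_right (c : ℝ) (f : D → ℝ) : av (fun e => f e * c) = av f * c := by
  simp [av, sum_mul, div_mul_eq_mul_div]

lemma av_sum {ι : Type*} (s : Finset ι) (f : ι → D → ℝ) :
    av (fun e => ∑ i ∈ s, f i e) = ∑ i ∈ s, av (f i) := by
  simp only [av]
  rw [sum_comm, sum_div]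

/-! ### The good states -/

lemma finite_good (V : Finset W) (o : D) (a : W) :
    {s : W × (W → D) | (∀ x, x ∉ V → s.2 x = o) ∧ Good nx V a s}.Finite := by
  classical
  refine (((insert a ((V ×ˢ univ).image fun p : W × D => nx p.1 p.2)).finite_toSet).prod
    (finite_conf V o)).subset ?_
  rintro ⟨z, ρ⟩ ⟨h1, h2⟩
  refine Set.mem_prod.mpr ⟨?_, h1⟩
  obtain ⟨k, hk⟩ := h2 a
  cases k with
  | zero =>
    have : a = z := hk
    simp [this]
  | succ k =>
    rw [iterate_succ_apply'] at hk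
    set y := (nxt nx V a ρ)^[k] a with hy
    by_cases hyV : y ∈ V
    · have h3 : nx y (ρ y) = z := by simpa [nxt, hyV] using hk
      simp only [coe_insert, coe_image, Set.mem_insert_iff, Set.mem_image]
      right
      exact ⟨(y, ρ y), by simp [hyV], h3⟩
    · have h3 : a = z := by simpa [nxt, hyV] using hk
      simp [h3]

/-- The finite set of good states. -/
noncomputable def GV (V : Finset W) (o : D) (a : W) : Finset (W × (W → D)) :=
  (finite_good nx V o a).toFinset

lemma mem_GV {V : Finset W} {o : D} {a : W} {s : W × (W → D)} :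
    s ∈ GV nx V o a ↔ (∀ x, x ∉ V → s.2 x = o) ∧ Good nx V a s := by
  simp [GV]

/-- The random step of the chip preserves the counting measure on the good states. -/
lemma sum_cstep (V : Finset W) (o : D) (a : W) (g : W × (W → D) → ℝ) :
    ∑ s ∈ GV nx V o a, ∑ e, g (cstep nx V a s e) =
      (Fintype.card D : ℝ) * ∑ s ∈ GV nx V o a, g s := by
  classical
  set φ : (W × (W → D)) × D → (W × (W → D)) × D :=
    fun p => (cstep nx V a p.1 p.2, if p.1.1 ∈ V then p.1.2 p.1.1 else p.2) with hφ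
  set S : Finset ((W × (W → D)) × D) := GV nx V o a ×ˢ univ with hS
  have hmap : ∀ p ∈ S, φ p ∈ S := by
    rintro ⟨s, e⟩ hp
    rw [hS, mem_product, mem_GV] at hp
    rw [hS, mem_product, mem_GV]
    refine ⟨⟨fun x hx => ?_, cstep_good nx hp.1.2⟩, mem_univ _⟩
    simp only [hφ]
    rw [cstep_snd]
    split_ifs with h
    · rw [update_of_ne]
      · exact hp.1.1 x hx
      · rintro rfl
        exact hx h
    · exact hp.1.1 x hx
  have hinj : Set.InjOn φ S := by
    rintro ⟨s, e⟩ hp ⟨s', e'⟩ hp' h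
    rw [mem_coe, hS, mem_product, mem_GV] at hp hp'
    simp only [hφ, Prod.mk.injEq] at h
    have h1 := cstep_pos_inj nx hp.1.2 hp'.1.2 h.1
    have h2 : s = s' := by
      refine cstep_inj nx hp.1.2 hp'.1.2 h.1 fun hx _ => ?_
      have h3 := h.2
      rw [if_pos hx, if_pos (h1 ▸ hx)] at h3
      exact h3
    refine Prod.ext h2 ?_
    by_cases hx : s.1 ∈ V
    · exact cstep_dir nx hx h1 h.1
    · have h3 := h.2
      rw [if_neg hx, if_neg (h1 ▸ hx)] at h3
      exact h3
  have himage : S.image φ = S :=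
    eq_of_subset_of_card_le (fun p hp => by
      obtain ⟨q, hq, rfl⟩ := mem_image.mp hp
      exact hmap q hq) (card_image_of_injOn hinj).ge
  calc ∑ s ∈ GV nx V o a, ∑ e, g (cstep nx V a s e)
      = ∑ p ∈ S, g (φ p).1 := by rw [hS, sum_product]
    _ = ∑ p ∈ S.image φ, g p.1 := by rw [sum_image hinj]
    _ = ∑ p ∈ S, g p.1 := by rw [himage]
    _ = (Fintype.card D : ℝ) * ∑ s ∈ GV nx V o a, g s := by
      rw [hS, sum_product, mul_sum]
      simp

/-- The good states with the chip in the sink are the acyclic configurations. -/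
lemma sum_sink (V : Finset W) (o : D) (a : W) (g : (W → D) → ℝ) :
    ∑ s ∈ (GV nx V o a).filter (fun s => s.1 ∉ V), g s.2 = ∑ ρ ∈ AV nx V o, g ρ := by
  classical
  refine sum_bij (fun s _ => s.2) ?_ ?_ ?_ ?_
  · intro s hs
    rw [mem_filter, mem_GV] at hs
    exact (mem_AV nx).mpr ⟨hs.1.1, acyc_of_good nx hs.1.2 hs.2⟩
  · intro s hs s' hs' h
    rw [mem_filter, mem_GV] at hs hs'
    exact good_sink_unique nx hs.1.2 hs'.1.2 hs.2 hs'.2 h
  · intro ρ hρ
    rw [mem_AV] at hρ
    obtain ⟨z, hz, hg⟩ := good_of_acyc nx hρ.2 a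
    exact ⟨(z, ρ), by rw [mem_filter, mem_GV]; exact ⟨⟨hρ.1, hg⟩, hz⟩, rfl⟩
  · intro s _
    rfl

/-! ### The walk -/

variable {V : Finset W} {F : (W → D) → ℝ}

lemma vv_out {z : W} (hz : z ∉ V) (n : ℕ) (ρ : W → D) : vv nx V F n z ρ = F ρ := by
  cases n <;> simp [vv, hz]

lemma vv_nonneg (hF : ∀ ρ, 0 ≤ F ρ) : ∀ (n : ℕ) (z : W) (ρ : W → D), 0 ≤ vv nx V F n z ρ := by
  intro n
  induction n with
  | zero => intro z ρ; simp only [vv]; split_ifs; exacts [le_rfl, hF ρ]
  | succ n ih =>
    intro z ρ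
    simp only [vv]
    split_ifs
    · exact av_nonneg fun e => ih _ _
    · exact hF ρ

lemma vv_mono_succ (hF : ∀ ρ, 0 ≤ F ρ) :
    ∀ (n : ℕ) (z : W) (ρ : W → D), vv nx V F n z ρ ≤ vv nx V F (n + 1) z ρ := by
  intro n
  induction n with
  | zero =>
    intro z ρ
    by_cases hz : z ∈ V
    · simp only [vv, if_pos hz]
      exact av_nonneg fun e => by split_ifs; exacts [le_rfl, hF _]
    · rw [vv_out nx hz, vv_out nx hz]
  | succ n ih =>
    intro z ρ
    by_cases hz : z ∈ V
    · rw [vv, vv, if_pos hz, if_pos hz]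
      exact av_mono fun e => ih _ _
    · rw [vv_out nx hz, vv_out nx hz]

/-- The expectation of `F` of the final configuration is at most the mean of `F`. -/
lemma sum_vv_le [Nonempty D] (hF : ∀ ρ, 0 ≤ F ρ) (o : D) (a : W) (n : ℕ) :
    ∑ ρ ∈ AV nx V o, vv nx V F n a ρ ≤ ∑ ρ ∈ AV nx V o, F ρ := by
  classical
  have hD : (0 : ℝ) < Fintype.card D := by exact_mod_cast Fintype.card_pos
  have h1 := sum_cstep nx V o a (fun s => vv nx V F n s.1 s.2)
  -- split the left side
  have h2 : ∀ s ∈ GV nx V o a, ∑ e, vv nx V F n (cstep nx V a s e).1 (cstep nx V a s e).2 =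
      (Fintype.card D : ℝ) *
        (if s.1 ∉ V then vv nx V F n a s.2 else vv nx V F (n + 1) s.1 s.2) := by
    intro s _
    by_cases hs : s.1 ∈ V
    · rw [if_neg (not_not.mpr hs), vv, if_pos hs, av, mul_div_cancel₀ _ hD.ne']
      refine sum_congr rfl fun e _ => ?_
      simp [cstep, hs]
    · rw [if_pos hs]
      simp [cstep, hs]
  rw [sum_congr rfl h2, ← mul_sum] at h1
  have h3 := mul_left_cancel₀ hD.ne' h1
  have h4 : ∑ s ∈ GV nx V o a, vv nx V F n s.1 s.2 ≤
      ∑ s ∈ GV nx V o a, (if s.1 ∉ V then F s.2 else vv nx V F (n + 1) s.1 s.2) := by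
    refine sum_le_sum fun s _ => ?_
    split_ifs with hs
    · exact vv_mono_succ nx hF _ _ _
    · rw [vv_out nx hs]
  rw [← h3, sum_ite, sum_ite] at h4
  have h5 : ∑ s ∈ (GV nx V o a).filter (fun s => s.1 ∉ V), vv nx V F n a s.2 ≤
      ∑ s ∈ (GV nx V o a).filter (fun s => s.1 ∉ V), F s.2 := by linarith
  rwa [sum_sink nx V o a (fun ρ => vv nx V F n a ρ), sum_sink nx V o a F] at h5

lemma vv_one_sub [Nonempty D] (F : (W → D) → ℝ) :
    ∀ (n : ℕ) (z : W) (ρ : W → D),
      vv nx V (fun ρ => 1 - F ρ) n z ρ = miss nx V ∅ n z - vv nx V F n z ρ := by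
  intro n
  induction n with
  | zero => intro z ρ; simp only [vv, miss]; split_ifs <;> ring
  | succ n ih =>
    intro z ρ
    simp only [vv, miss]
    split_ifs with h
    · simp at *
    · rw [← av_sub]
      congr 1
      funext e
      exact ih _ _
    · ring

/-- Lower bound for the expectation of `F` of the final configuration. -/
lemma le_sum_vv [Nonempty D] (hF1 : ∀ ρ, F ρ ≤ 1) (o : D) (a : W) (n : ℕ) :
    ∑ ρ ∈ AV nx V o, F ρ ≤
      ∑ ρ ∈ AV nx V o, vv nx V F n a ρ + (AV nx V o).card * (1 - miss nx V ∅ n a) := by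
  have h := sum_vv_le nx (V := V) (F := fun ρ => 1 - F ρ) (fun ρ => by linarith [hF1 ρ]) o a n
  simp only [vv_one_sub nx F, sum_sub_distrib, sum_const, nsmul_eq_mul, mul_one] at h
  linarith

end Pool.Agent.H32.OW
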