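import Pool.Agent.H32.OW.Defs

/-!
# Limit measure from cylinder limits, and uniqueness
-/

set_option autoImplicit false

open Filter Topology MeasureTheory

namespace Pool.Agent.H32.OW

lemma isClopen_cyl {d : ℕ} (B : Finset (Vtx d × Dir d)) :
    IsClopen {ρ : Config d | ∀ b ∈ B, ρ b.1 = b.2} := by
  have h : {ρ : Config d | ∀ b ∈ B, ρ b.1 = b.2} =
      ⋂ b ∈ B, (fun ρ : Config d => ρ b.1) ⁻¹' {b.2} := by
    ext ρ
    simp
  rw [h]
  exact isClopen_biInter_finset fun b _ => (isClopen_discrete _).preimage (continuous_apply b.1)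

lemma measurableSet_cyl {d : ℕ} (B : Finset (Vtx d × Dir d)) :
    MeasurableSet {ρ : Config d | ∀ b ∈ B, ρ b.1 = b.2} :=
  (isClopen_cyl B).isOpen.measurableSet

theorem exists_limit_measure {d : ℕ} (A : ℕ → Finset (Config d)) (hA : ∀ r, (A r).Nonempty)
    (hlim : ∀ B : Finset (Vtx d × Dir d), ∃ l : ℝ, Tendsto (fun r =>
      (((A r).filter fun ρ => ∀ b ∈ B, ρ b.1 = b.2).card : ℝ) / ((A r).card : ℝ)) atTop (𝓝 l)) :
    ∃ μ : Measure (Config d), IsProbabilityMeasure μ ∧ ∀ B : Finset (Vtx d × Dir d),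
      Tendsto (fun r => (((A r).filter fun ρ => ∀ b ∈ B, ρ b.1 = b.2).card : ℝ) /
        ((A r).card : ℝ)) atTop (𝓝 (μ.real {ρ | ∀ b ∈ B, ρ b.1 = b.2})) := by
  classical
  have hmeas : ∀ r, MeasurableSet (A r : Set (Config d)) := fun r => (A r).measurableSet
  let P : ℕ → ProbabilityMeasure (Config d) := fun r =>
    ⟨ProbabilityTheory.uniformOn (A r : Set (Config d)),
      ProbabilityTheory.isProbabilityMeasure_uniformOn' (A r).finite_toSet
        (by simpa using hA r) (hmeas r)⟩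
  let U : Ultrafilter ℕ := Ultrafilter.of atTop
  have hU : (U : Filter ℕ) ≤ atTop := Ultrafilter.of_le atTop
  let μ : ProbabilityMeasure (Config d) := (U.map P).lim
  have hμ : Tendsto P U (𝓝 μ) := (U.map P).le_nhds_lim
  refine ⟨μ, inferInstance, fun B => ?_⟩
  obtain ⟨l, hl⟩ := hlim B
  have h1 := ProbabilityMeasure.tendsto_measure_of_isClopen_of_tendsto hμ (isClopen_cyl B)
  have h2 : Tendsto (fun r => ((P r {ρ | ∀ b ∈ B, ρ b.1 = b.2} : NNReal) : ℝ)) U
      (𝓝 ((μ {ρ | ∀ b ∈ B, ρ b.1 = b.2} : NNReal) : ℝ)) := (NNReal.continuous_coe.tendsto _).comp h1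
  have h3 : ∀ r, ((P r {ρ | ∀ b ∈ B, ρ b.1 = b.2} : NNReal) : ℝ) =
      (((A r).filter fun ρ => ∀ b ∈ B, ρ b.1 = b.2).card : ℝ) / ((A r).card : ℝ) := by
    intro r
    have e1 : ((P r {ρ | ∀ b ∈ B, ρ b.1 = b.2} : NNReal) : ℝ) =
        (ProbabilityTheory.uniformOn (A r : Set (Config d)) {ρ | ∀ b ∈ B, ρ b.1 = b.2}).toReal := rfl
    have e2 : ProbabilityTheory.uniformOn (A r : Set (Config d)) {ρ | ∀ b ∈ B, ρ b.1 = b.2} =
        ProbabilityTheory.uniformOn (A r : Set (Config d))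
          (((A r).filter fun ρ => ∀ b ∈ B, ρ b.1 = b.2 : Finset (Config d)) : Set (Config d)) := by
      rw [ProbabilityTheory.uniformOn, ProbabilityTheory.cond_apply (hmeas r),
        ProbabilityTheory.cond_apply (hmeas r)]
      congr 2
      ext ρ
      simp
    rw [e1, e2, ProbabilityTheory.uniformOn_apply_finset]
    rw [Finset.inter_eq_right.2 (Finset.filter_subset _ _)]
    rw [ENNReal.toReal_div]
    simp
  simp only [h3] at h2
  have h4 : l = ((μ {ρ | ∀ b ∈ B, ρ b.1 = b.2} : NNReal) : ℝ) :=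
    tendsto_nhds_unique (hl.mono_left hU) (by convert h2)
  have h5 : (μ : Measure (Config d)).real {ρ | ∀ b ∈ B, ρ b.1 = b.2} =
    ((μ {ρ | ∀ b ∈ B, ρ b.1 = b.2} : NNReal) : ℝ) := rfl
  rw [h5, ← h4]
  exact hl

theorem measure_eq_of_cylinders {d : ℕ} (μ ν : Measure (Config d)) [IsProbabilityMeasure μ]
    [IsProbabilityMeasure ν]
    (h : ∀ B : Finset (Vtx d × Dir d),
      μ.real {ρ | ∀ b ∈ B, ρ b.1 = b.2} = ν.real {ρ | ∀ b ∈ B, ρ b.1 = b.2}) : μ = ν := by
  classical
  let S : Set (Set (Config d)) :=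
    {s | ∃ B : Finset (Vtx d × Dir d), s = {ρ : Config d | ∀ b ∈ B, ρ b.1 = b.2}}
  have hpi : IsPiSystem S := by
    rintro _ ⟨B, rfl⟩ _ ⟨B', rfl⟩ _
    refine ⟨B ∪ B', ?_⟩
    ext ρ
    simp only [Set.mem_inter_iff, Set.mem_ofPred_eq, Finset.mem_union]
    constructor
    · rintro ⟨h1, h2⟩ b (hb | hb)
      · exact h1 b hb
      · exact h2 b hb
    · intro h1
      exact ⟨fun b hb => h1 b (Or.inl hb), fun b hb => h1 b (Or.inr hb)⟩
  have hgen : (inferInstance : MeasurableSpace (Config d)) = MeasurableSpace.generateFrom S := by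
    apply le_antisymm
    · apply iSup_le
      intro x
      rw [MeasurableSpace.comap_le_iff_le_map]
      intro s _
      change MeasurableSet[MeasurableSpace.generateFrom S] ((fun ρ : Config d => ρ x) ⁻¹' s)
      have : (fun ρ : Config d => ρ x) ⁻¹' s = ⋃ e ∈ s, {ρ : Config d | ρ x = e} := by
        ext ρ
        simp
      rw [this]
      refine MeasurableSet.biUnion (Set.to_countable s) fun e _ => ?_
      apply MeasurableSpace.measurableSet_generateFrom
      exact ⟨{(x, e)}, by ext ρ; simp⟩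
    · apply MeasurableSpace.generateFrom_le
      rintro _ ⟨B, rfl⟩
      exact measurableSet_cyl B
  refine ext_of_generate_finite S hgen hpi ?_ (by rw [measure_univ, measure_univ])
  rintro _ ⟨B, rfl⟩
  have h1 := h B
  rw [measureReal_def, measureReal_def] at h1
  exact (ENNReal.toReal_eq_toReal_iff' (measure_ne_top _ _) (measure_ne_top _ _)).1 h1

end Pool.Agent.H32.OW
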