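import Pool.Agent.H32.OW.Defs
import Pool.Agent.H32.OW.Model

/-!
# `ousf` as the uniform measure on acyclic configurations
-/

set_option autoImplicit false

namespace Pool.Agent.H32.OW

open Function Finset

namespace OusfAux

variable {d : ℕ}

/-- Extension of a map on `V` by the constant `o`. -/
noncomputable def ext (V : Finset (Vtx d)) (o : Dir d) (F : V → Dir d) : Config d := by
  classical
  exact fun x => if h : x ∈ V then F ⟨x, h⟩ else o

lemma ext_mem {V : Finset (Vtx d)} {o : Dir d} {F : V → Dir d} {x : Vtx d} (h : x ∈ V) :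
    ext V o F x = F ⟨x, h⟩ := by simp [ext, h]

lemma ext_not_mem {V : Finset (Vtx d)} {o : Dir d} {F : V → Dir d} {x : Vtx d} (h : x ∉ V) :
    ext V o F x = o := by simp [ext, h]

lemma ext_injective (V : Finset (Vtx d)) (o : Dir d) : Injective (ext V o) := by
  intro F G h
  funext x
  have := congrFun h x.1
  rwa [ext_mem x.2, ext_mem x.2] at this

lemma noCycle_iff (V : Finset (Vtx d)) (o : Dir d) (F : V → Dir d) :
    NoCycle V F ↔ Acyc nb V (ext V o F) := by
  constructor
  · intro hF x hx
    by_contra hcon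
    push Not at hcon
    apply hF
    -- all iterates lie in the finite set `V`
    let g : ℕ → V := fun k => ⟨(fol nb (ext V o F))^[k] x, hcon k⟩
    obtain ⟨i, j, hij, hg⟩ := Finite.exists_ne_map_eq_of_infinite g
    rcases lt_or_gt_of_ne hij with h | h
    · refine ⟨j - i, fun k => g (i + k), by omega, ?_, ?_⟩
      · change g (i + (j - i)) = g (i + 0)
        rw [show i + (j - i) = j by omega, show i + 0 = i by omega, hg]
      · intro k _
        change (fol nb (ext V o F))^[i + (k + 1)] x = nb ((fol nb (ext V o F))^[i + k] x) (F _)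
        rw [show i + (k + 1) = (i + k) + 1 by omega, iterate_succ_apply']
        change nb _ (ext V o F _) = _
        rw [ext_mem (hcon (i + k))]
    · refine ⟨i - j, fun k => g (j + k), by omega, ?_, ?_⟩
      · change g (j + (i - j)) = g (j + 0)
        rw [show j + (i - j) = i by omega, show j + 0 = j by omega, hg]
      · intro k _
        change (fol nb (ext V o F))^[j + (k + 1)] x = nb ((fol nb (ext V o F))^[j + k] x) (F _)
        rw [show j + (k + 1) = (j + k) + 1 by omega, iterate_succ_apply']
        change nb _ (ext V o F _) = _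
        rw [ext_mem (hcon (j + k))]
  · rintro hA ⟨k, x, hk, hx, hstep⟩
    obtain ⟨n, hn⟩ := hA (x 0) (x 0).2
    -- the iterates of `x 0` follow the cycle
    have h1 : ∀ i ≤ k, (fol nb (ext V o F))^[i] (x 0 : Vtx d) = x i := by
      intro i
      induction i with
      | zero => intro _; rfl
      | succ i ih =>
        intro hi
        rw [iterate_succ_apply', ih (by omega)]
        change nb _ (ext V o F _) = _
        rw [ext_mem (x i).2, hstep i (by omega)]
    have hper : IsPeriodicPt (fol nb (ext V o F)) k (x 0 : Vtx d) := by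
      change (fol nb (ext V o F))^[k] (x 0 : Vtx d) = x 0
      rw [h1 k le_rfl, hx]
    apply hn
    rw [← hper.iterate_mod_apply n, h1 _ (Nat.mod_lt n hk).le]
    exact (x (n % k)).2

lemma ncard_eq (V : Finset (Vtx d)) (o : Dir d) (P : (V → Dir d) → Prop) (Q : Config d → Prop)
    [DecidablePred Q] (hPQ : ∀ F, P F ↔ Q (ext V o F)) :
    {F : V → Dir d | NoCycle V F ∧ P F}.ncard = ((AV nb V o).filter Q).card := by
  rw [← Set.ncard_image_of_injective _ (ext_injective V o), ← Set.ncard_coe_finset]
  congr 1
  ext ρ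
  simp only [Set.mem_image, Set.mem_setOf_eq, coe_filter, mem_AV]
  constructor
  · rintro ⟨F, ⟨h1, h2⟩, rfl⟩
    exact ⟨⟨fun x hx => ext_not_mem hx, (noCycle_iff V o F).mp h1⟩, (hPQ F).mp h2⟩
  · rintro ⟨⟨h1, h2⟩, h3⟩
    have he : ext V o (fun x => ρ x.1) = ρ := by
      funext x
      by_cases hx : x ∈ V
      · rw [ext_mem hx]
      · rw [ext_not_mem hx, h1 x hx]
    refine ⟨fun x => ρ x.1, ⟨?_, ?_⟩, he⟩
    · rw [noCycle_iff V o, he]; exact h2
    · rw [hPQ, he]; exact h3

end OusfAux

open OusfAux in
theorem ousf_eq_PV {d : ℕ} (a : Vtx d) (r : ℕ) (o : Dir d) (B : Finset (Vtx d × Dir d))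
    (hB : ∀ b ∈ B, b.1 ∈ inner a r) :
    ousf a r B = PV nb (inner a r) o {ρ | ∀ b ∈ B, ρ b.1 = b.2} := by
  classical
  unfold ousf PV
  have h1 := ncard_eq (inner a r) o
    (fun F => ∀ b ∈ B, ∃ h : b.1 ∈ inner a r, F ⟨b.1, h⟩ = b.2)
    (fun ρ => ρ ∈ {ρ : Config d | ∀ b ∈ B, ρ b.1 = b.2}) (by
      intro F
      simp only [Set.mem_setOf_eq]
      constructor
      · intro h b hb
        obtain ⟨hm, he⟩ := h b hb
        rw [ext_mem hm, he]
      · intro h b hb
        refine ⟨hB b hb, ?_⟩
        have := h b hb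
        rwa [ext_mem (hB b hb)] at this)
  have h2 := ncard_eq (inner a r) o (fun _ => True) (fun _ => True) (by simp)
  simp only [and_true, Finset.filter_true] at h2
  rw [h1, h2]
  congr!

end Pool.Agent.H32.OW
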