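import Pool.Agent.H32.OW.Phi
import Pool.Agent.H32.OW.Exist
import Pool.Agent.H32.OW.Meas
import Pool.Agent.H32.OW.Ousf

/-!
# Passage to the limit: rotor walk stationarity of the oriented wired uniform spanning forest
-/

set_option autoImplicit false

namespace Pool.Agent.H32.OW

open Function Finset Filter Topology MeasureTheory

variable {d : ℕ}

/-! ### Local events -/

/-- The event `E` depends only on the rotors in `S`. -/
def IsLoc (S : Finset (Vtx d)) (E : Set (Config d)) : Prop :=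
  ∀ ρ ρ' : Config d, (∀ x ∈ S, ρ x = ρ' x) → (ρ ∈ E ↔ ρ' ∈ E)

/-- The pattern `η` as a set of edges. -/
noncomputable def pat (S : Finset (Vtx d)) (η : S → Dir d) : Finset (Vtx d × Dir d) :=
  univ.image fun x : S => (x.1, η x)

lemma mem_cyl_pat {S : Finset (Vtx d)} {η : S → Dir d} {ρ : Config d} :
    (∀ b ∈ pat S η, ρ b.1 = b.2) ↔ (fun x : S => ρ x) = η := by
  unfold pat
  simp only [mem_image, mem_univ, true_and, forall_exists_index]
  constructor
  · intro h
    funext x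
    exact h _ x rfl
  · rintro rfl b x rfl
    rfl

lemma IsLoc.exists_patterns {S : Finset (Vtx d)} {E : Set (Config d)} (hE : IsLoc S E) :
    ∃ T : Finset (S → Dir d), ∀ ρ : Config d, ρ ∈ E ↔ (fun x : S => ρ x) ∈ T := by
  classical
  refine ⟨univ.filter fun η => ∃ ρ ∈ E, (fun x : S => ρ x) = η, fun ρ => ?_⟩
  simp only [mem_filter, mem_univ, true_and]
  constructor
  · intro h
    exact ⟨ρ, h, rfl⟩
  · rintro ⟨ρ', h1, h2⟩
    exact (hE ρ' ρ fun x hx => congrFun h2 ⟨x, hx⟩).mp h1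

lemma PV_eq_sum {V : Finset (Vtx d)} {o : Dir d} {S : Finset (Vtx d)} {E : Set (Config d)}
    {T : Finset (S → Dir d)} (hT : ∀ ρ : Config d, ρ ∈ E ↔ (fun x : S => ρ x) ∈ T) :
    PV nb V o E = ∑ η ∈ T, PV nb V o {ρ | ∀ b ∈ pat S η, ρ b.1 = b.2} := by
  classical
  unfold PV
  rw [← sum_div]
  congr 1
  have h1 := card_eq_sum_card_fiberwise (s := (AV nb V o).filter fun ρ => ρ ∈ E) (t := T)
    (f := fun (ρ : Config d) (x : S) => ρ x) (fun ρ hρ => by
      rw [mem_coe, mem_filter] at hρ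
      exact mem_coe.mpr ((hT ρ).mp hρ.2))
  rw [h1]
  push_cast
  refine sum_congr rfl fun η hη => ?_
  congr 2
  ext ρ
  simp only [mem_filter, Set.mem_ofPred_eq]
  rw [mem_cyl_pat]
  constructor
  · rintro ⟨⟨h1, _⟩, h2⟩
    exact ⟨h1, h2⟩
  · rintro ⟨h1, h2⟩
    exact ⟨⟨h1, (hT ρ).mpr (h2 ▸ hη)⟩, h2⟩

lemma IsLoc.measurableSet {S : Finset (Vtx d)} {E : Set (Config d)} (hE : IsLoc S E) :
    MeasurableSet E := by
  obtain ⟨T, hT⟩ := hE.exists_patterns
  have h1 : E = ⋃ η ∈ T, {ρ : Config d | ∀ b ∈ pat S η, ρ b.1 = b.2} := by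
    ext ρ
    rw [hT]
    simp only [Set.mem_iUnion, Set.mem_ofPred_eq, mem_cyl_pat, exists_prop, exists_eq_right']
  rw [h1]
  exact MeasurableSet.biUnion (Set.to_countable _) fun η _ => measurableSet_cyl _

lemma measureReal_eq_sum (μ : Measure (Config d)) [IsProbabilityMeasure μ]
    {S : Finset (Vtx d)} {E : Set (Config d)}
    {T : Finset (S → Dir d)} (hT : ∀ ρ : Config d, ρ ∈ E ↔ (fun x : S => ρ x) ∈ T) :
    μ.real E = ∑ η ∈ T, μ.real {ρ | ∀ b ∈ pat S η, ρ b.1 = b.2} := by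
  have h1 : E = ⋃ η ∈ T, {ρ : Config d | ∀ b ∈ pat S η, ρ b.1 = b.2} := by
    ext ρ
    rw [hT]
    simp only [Set.mem_iUnion, Set.mem_ofPred_eq, mem_cyl_pat, exists_prop, exists_eq_right']
  rw [h1, measureReal_biUnion_finset]
  · intro η _ η' _ hne
    rw [Function.onFun, Set.disjoint_left]
    intro ρ h2 h3
    simp only [Set.mem_ofPred_eq] at h2 h3
    rw [mem_cyl_pat] at h2 h3
    exact hne (h2.symm.trans h3)
  · exact fun η _ => measurableSet_cyl _

/-! ### Convergence on local events -/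

/-- The finite volume laws converge to `μ` on cylinders. -/
def Conv (a : Vtx d) (o : Dir d) (μ : Measure (Config d)) : Prop :=
  ∀ B : Finset (Vtx d × Dir d), Tendsto (fun r => PV nb (inner a r) o {ρ | ∀ b ∈ B, ρ b.1 = b.2})
    atTop (𝓝 (μ.real {ρ | ∀ b ∈ B, ρ b.1 = b.2}))

lemma eventually_subset_inner (a : Vtx d) (S : Finset (Vtx d)) :
    ∀ᶠ r in atTop, S ⊆ inner a r := by
  classical
  filter_upwards [eventually_ge_atTop (∑ x ∈ S, gdist x a + 1)] with r hr x hx
  rw [mem_inner]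
  have : gdist x a ≤ ∑ x ∈ S, gdist x a :=
    single_le_sum (f := fun x => gdist x a) (fun _ _ => Nat.zero_le _) hx
  omega

lemma IsOWUSF.conv {a : Vtx d} {μ : Measure (Config d)} (h : IsOWUSF a μ) (o : Dir d) :
    Conv a o μ := by
  classical
  intro B
  refine (h.2 B).congr' ?_
  filter_upwards [eventually_subset_inner a (B.image Prod.fst)] with r hr
  exact ousf_eq_PV a r o B fun b hb => hr (mem_image_of_mem _ hb)

lemma Conv.isOWUSF {a : Vtx d} {μ : Measure (Config d)} [IsProbabilityMeasure μ] {o : Dir d}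
    (h : Conv a o μ) : IsOWUSF a μ := by
  classical
  refine ⟨inferInstance, fun B => (h B).congr' ?_⟩
  filter_upwards [eventually_subset_inner a (B.image Prod.fst)] with r hr
  exact (ousf_eq_PV a r o B fun b hb => hr (mem_image_of_mem _ hb)).symm

lemma Conv.loc {a : Vtx d} {o : Dir d} {μ : Measure (Config d)} [IsProbabilityMeasure μ]
    (h : Conv a o μ) {S : Finset (Vtx d)} {E : Set (Config d)} (hE : IsLoc S E) :
    Tendsto (fun r => PV nb (inner a r) o E) atTop (𝓝 (μ.real E)) := by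
  obtain ⟨T, hT⟩ := hE.exists_patterns
  rw [measureReal_eq_sum μ hT]
  have h1 : (fun r => PV nb (inner a r) o E) =
      fun r => ∑ η ∈ T, PV nb (inner a r) o {ρ | ∀ b ∈ pat S η, ρ b.1 = b.2} := by
    funext r
    exact PV_eq_sum hT
  rw [h1]
  exact tendsto_finsetSum _ fun η _ => h _

/-! ### Local events of the rotor walk -/

variable (τ : Vtx d → Equiv.Perm (Dir d)) (a : Vtx d)

lemma rwk_local {ρ ρ' : Config d} {t : ℕ} (h : ∀ x ∈ inner a t, ρ x = ρ' x) :
    (rwk nb τ a ρ t).1 = (rwk nb τ a ρ' t).1 ∧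
      ∀ x, ρ x = ρ' x → (rwk nb τ a ρ t).2 x = (rwk nb τ a ρ' t).2 x :=
  rwk_congr nb τ a t fun j hj => h _ (by
    rw [mem_inner]
    exact lt_of_le_of_lt (rwk_dist τ a ρ j) hj)

lemma isLoc_pos (t : ℕ) (T : Set (Vtx d)) :
    IsLoc (inner a t) {ρ | (rwk nb τ a ρ t).1 ∈ T} := by
  intro ρ ρ' h
  simp only [Set.mem_ofPred_eq]
  rw [(rwk_local τ a h).1]

lemma isLoc_visits (t₀ k : ℕ) (x : Vtx d) : IsLoc (inner a t₀)
    {ρ | k ≤ ((range t₀).filter fun t => (rwk nb τ a ρ t).1 = x).card} := by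
  intro ρ ρ' h
  simp only [Set.mem_ofPred_eq]
  have : ((range t₀).filter fun t => (rwk nb τ a ρ t).1 = x) =
      ((range t₀).filter fun t => (rwk nb τ a ρ' t).1 = x) := by
    refine filter_congr fun t ht => ?_
    rw [(rwk_local τ a (t := t) fun y hy =>
      h y (inner_mono (by have := mem_range.mp ht; omega) hy)).1]
  rw [this]

lemma isLoc_conf (t : ℕ) (T : Finset (Vtx d)) (E : Set (Config d)) (hE : IsLoc T E) :
    IsLoc (inner a t ∪ T) {ρ | (rwk nb τ a ρ t).2 ∈ E} := by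
  classical
  intro ρ ρ' h
  simp only [Set.mem_ofPred_eq]
  refine hE _ _ fun x hx => ?_
  exact (rwk_local τ a (t := t) fun y hy => h y (mem_union_left _ hy)).2 x
    (h x (mem_union_right _ hx))

lemma isLoc_DD (T : Finset (Vtx d)) (R M : ℕ) : IsLoc (inner a M) (DD τ a T R M) := by
  have key : ∀ ρ ρ' : Config d, (∀ x ∈ inner a M, ρ x = ρ' x) → ρ ∈ DD τ a T R M →
      ρ' ∈ DD τ a T R M := by
    rintro ρ ρ' h ⟨t, h1, h2, h3⟩
    have h4 : ∀ s ≤ t, (rwk nb τ a ρ s).1 = (rwk nb τ a ρ' s).1 := fun s hs =>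
      (rwk_congr nb τ a s fun j hj => h _ (h3 j (by omega))).1
    refine ⟨t, h1, by rw [← h4 t le_rfl]; exact h2, fun s hs => ?_⟩
    rw [← h4 s hs]
    exact h3 s hs
  exact fun ρ ρ' h => ⟨key ρ ρ' h, key ρ' ρ fun x hx => (h x hx).symm⟩

lemma isLoc_cyl (B : Finset (Vtx d × Dir d)) :
    IsLoc (B.image Prod.fst) {ρ : Config d | ∀ b ∈ B, ρ b.1 = b.2} := by
  classical
  have key : ∀ ρ ρ' : Config d, (∀ x ∈ B.image Prod.fst, ρ x = ρ' x) →
      (∀ b ∈ B, ρ b.1 = b.2) → ∀ b ∈ B, ρ' b.1 = b.2 := by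
    intro ρ ρ' h h1 b hb
    rw [← h b.1 (mem_image_of_mem _ hb)]
    exact h1 b hb
  exact fun ρ ρ' h => ⟨key ρ ρ' h, key ρ' ρ fun x hx => (h x hx).symm⟩

/-! ### Transience -/

/-- The walk visits `x` infinitely often with probability zero. -/
lemma measure_infinite_visits (hd : 3 ≤ d) (hτ : IsRotorMechanism τ) {o : Dir d}
    {μ : Measure (Config d)} [IsProbabilityMeasure μ] (h : Conv a o μ) (x : Vtx d) :
    ∀ᵐ ρ ∂μ, {t : ℕ | (rwk nb τ a ρ t).1 = x}.Finite := by
  classical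
  obtain ⟨C, hC⟩ := visits_prob hd τ hτ a x o
  set E : ℕ → ℕ → Set (Config d) := fun k t₀ =>
    {ρ | k ≤ ((range t₀).filter fun t => (rwk nb τ a ρ t).1 = x).card} with hE
  have h1 : ∀ k, 0 < k → ∀ t₀, μ.real (E k t₀) ≤ C / k := by
    intro k hk t₀
    refine le_of_tendsto (h.loc (isLoc_visits τ a t₀ k x)) ?_
    filter_upwards [eventually_ge_atTop t₀] with r hr
    exact hC t₀ _ (inner_mono hr) k hk
  have hmono : ∀ k, Monotone (E k) := by
    intro k s t hst ρ hρ
    refine le_trans hρ (card_le_card (filter_subset_filter _ (range_subset_range.mpr hst)))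
  have h2 : ∀ k, 0 < k → μ (⋃ t₀, E k t₀) ≤ ENNReal.ofReal (C / k) := by
    intro k hk
    rw [(hmono k).measure_iUnion]
    refine iSup_le fun t₀ => ?_
    rw [← ofReal_measureReal]
    exact ENNReal.ofReal_le_ofReal (h1 k hk t₀)
  rw [ae_iff]
  have hsub : ∀ k, {ρ : Config d | ¬ {t : ℕ | (rwk nb τ a ρ t).1 = x}.Finite} ⊆
      ⋃ t₀, E k t₀ := by
    intro k ρ hρ
    obtain ⟨s, hs1, hs2⟩ := Set.Infinite.exists_subset_card_eq hρ k
    rw [Set.mem_iUnion]
    refine ⟨s.sup id + 1, ?_⟩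
    show k ≤ _
    rw [← hs2]
    refine card_le_card fun t ht => ?_
    rw [mem_filter, mem_range]
    have h3 : t ≤ s.sup id := le_sup (f := id) ht
    exact ⟨by omega, hs1 ht⟩
  refine nonpos_iff_eq_zero.mp ?_
  have hlim : Tendsto (fun k : ℕ => ENNReal.ofReal (C / k)) atTop (𝓝 0) := by
    rw [← ENNReal.ofReal_zero]
    exact ENNReal.tendsto_ofReal (tendsto_const_div_atTop_nhds_zero_nat C)
  refine ge_of_tendsto hlim ?_
  filter_upwards [eventually_gt_atTop 0] with k hk
  exact (measure_mono (hsub k)).trans (h2 k hk)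

lemma rwalk_eq (ρ : Config d) (t : ℕ) : rwalk τ a ρ t = rwk nb τ a ρ t := rfl

lemma ae_transient (hd : 3 ≤ d) (hτ : IsRotorMechanism τ) {o : Dir d}
    {μ : Measure (Config d)} [IsProbabilityMeasure μ] (h : Conv a o μ) :
    ∀ᵐ ρ ∂μ, IsTransient τ a ρ := by
  unfold IsTransient
  rw [ae_all_iff]
  exact fun x => measure_infinite_visits τ a hd hτ h x

/-! ### The final configuration -/

lemma finalConfig_eq {ρ : Config d} {x : Vtx d} {e : Dir d}
    (h : ∀ᶠ t in atTop, (rwk nb τ a ρ t).2 x = e) : finalConfig τ a ρ x = e := by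
  classical
  have h1 : ∃ e, ∀ᶠ t in atTop, (rwalk τ a ρ t).2 x = e := ⟨e, h⟩
  have h2 : finalConfig τ a ρ x = h1.choose := by
    unfold finalConfig
    rw [dif_pos h1]
  rw [h2]
  have h3 := h1.choose_spec
  obtain ⟨t, ht1, ht2⟩ := (h3.and h).exists
  rw [← ht1, ← ht2]
  rfl

lemma finalConfig_eq_iff {ρ : Config d} {x : Vtx d} {e : Dir d} :
    finalConfig τ a ρ x = e ↔ (∀ᶠ t in atTop, (rwk nb τ a ρ t).2 x = e) ∨
      ((∀ e', ¬ ∀ᶠ t in atTop, (rwk nb τ a ρ t).2 x = e') ∧ ρ x = e) := by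
  classical
  by_cases h1 : ∃ e, ∀ᶠ t in atTop, (rwk nb τ a ρ t).2 x = e
  · obtain ⟨e', he'⟩ := h1
    rw [finalConfig_eq τ a he']
    constructor
    · rintro rfl
      exact Or.inl he'
    · rintro (h2 | h2)
      · obtain ⟨t, ht1, ht2⟩ := (he'.and h2).exists
        rw [← ht1, ← ht2]
      · exact absurd he' (h2.1 e')
  · have h2 : finalConfig τ a ρ x = ρ x := by
      have h1' : ¬ ∃ e, ∀ᶠ t in atTop, (rwalk τ a ρ t).2 x = e := h1
      unfold finalConfig
      rw [dif_neg h1']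
    rw [h2]
    constructor
    · intro h3
      exact Or.inr ⟨fun e' he' => h1 ⟨e', he'⟩, h3⟩
    · rintro (h3 | h3)
      · exact absurd ⟨e, h3⟩ h1
      · exact h3.2

lemma measurable_finalConfig : Measurable (finalConfig τ a) := by
  classical
  have h1 : ∀ (x : Vtx d) (e : Dir d) (t : ℕ),
      MeasurableSet {ρ : Config d | (rwk nb τ a ρ t).2 x = e} := by
    intro x e t
    have h2 : IsLoc {x} {ρ : Config d | ρ x = e} := by
      intro ρ ρ' h
      simp only [Set.mem_ofPred_eq]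
      rw [h x (mem_singleton_self x)]
    exact (isLoc_conf τ a t {x} _ h2).measurableSet
  have h2 : ∀ (x : Vtx d) (e : Dir d),
      MeasurableSet {ρ : Config d | ∀ᶠ t in atTop, (rwk nb τ a ρ t).2 x = e} := by
    intro x e
    have h3 : {ρ : Config d | ∀ᶠ t in atTop, (rwk nb τ a ρ t).2 x = e} =
        ⋃ N : ℕ, ⋂ t : ℕ, ⋂ _ : N ≤ t, {ρ : Config d | (rwk nb τ a ρ t).2 x = e} := by
      ext ρ
      simp [eventually_atTop]
    rw [h3]
    exact MeasurableSet.iUnion fun N => MeasurableSet.iInter fun t => MeasurableSet.iInter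
      fun _ => h1 x e t
  rw [measurable_pi_iff]
  intro x
  refine measurable_to_countable' fun e => ?_
  have h3 : (fun ρ : Config d => finalConfig τ a ρ x) ⁻¹' {e} =
      {ρ : Config d | ∀ᶠ t in atTop, (rwk nb τ a ρ t).2 x = e} ∪
        ((⋂ e', {ρ : Config d | ∀ᶠ t in atTop, (rwk nb τ a ρ t).2 x = e'}ᶜ) ∩
          {ρ : Config d | ρ x = e}) := by
    ext ρ
    simp only [Set.mem_preimage, Set.mem_singleton_iff, Set.mem_union, Set.mem_inter_iff,
      Set.mem_iInter, Set.mem_compl_iff, Set.mem_ofPred_eq]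
    exact finalConfig_eq_iff τ a
  rw [h3]
  refine (h2 x e).union ((MeasurableSet.iInter fun e' => (h2 x e').compl).inter ?_)
  exact measurableSet_eq_fun (measurable_pi_apply x) measurable_const

/-! ### The comparison in infinite volume -/

/-- The walk visits `T` at a time at least `R`. -/
def DI (T : Finset (Vtx d)) (R : ℕ) : Set (Config d) :=
  {ρ | ∃ t, R ≤ t ∧ (rwk nb τ a ρ t).1 ∈ T}

lemma measurableSet_DI (T : Finset (Vtx d)) (R : ℕ) : MeasurableSet (DI τ a T R) := by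
  have h1 : DI τ a T R = ⋃ t : ℕ, ⋃ _ : R ≤ t, {ρ | (rwk nb τ a ρ t).1 ∈ (T : Set (Vtx d))} := by
    ext ρ
    simp [DI]
  rw [h1]
  exact MeasurableSet.iUnion fun t => MeasurableSet.iUnion fun _ =>
    (isLoc_pos τ a t (T : Set (Vtx d))).measurableSet

lemma tendsto_DI (hd : 3 ≤ d) (hτ : IsRotorMechanism τ) {o : Dir d}
    {μ : Measure (Config d)} [IsProbabilityMeasure μ] (h : Conv a o μ) (T : Finset (Vtx d)) :
    Tendsto (fun R => μ.real (DI τ a T R)) atTop (𝓝 0) := by
  have hanti : Antitone (DI τ a T) := by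
    rintro R R' hR ρ ⟨t, h1, h2⟩
    exact ⟨t, hR.trans h1, h2⟩
  have h0 : μ (⋂ R, DI τ a T R) = 0 := by
    refine measure_mono_null (t := {ρ | ¬ IsTransient τ a ρ}) ?_ (ae_transient τ a hd hτ h)
    intro ρ hρ htr
    rw [Set.mem_iInter] at hρ
    have hfin : {t : ℕ | (rwk nb τ a ρ t).1 ∈ T}.Finite := by
      have h2 : {t : ℕ | (rwk nb τ a ρ t).1 ∈ T} =
          ⋃ x ∈ T, {t : ℕ | (rwk nb τ a ρ t).1 = x} := by
        ext t
        simp
      rw [h2]
      exact T.finite_toSet.biUnion fun x _ => htr x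
    obtain ⟨N, hN⟩ := hfin.bddAbove
    obtain ⟨t, ht1, ht2⟩ := hρ (N + 1)
    have := hN ht2
    omega
  have h1 := tendsto_measure_iInter_atTop (μ := μ)
    (fun R => (measurableSet_DI τ a T R).nullMeasurableSet) hanti ⟨0, measure_ne_top _ _⟩
  rw [h0] at h1
  exact (ENNReal.tendsto_toReal ENNReal.zero_ne_top).comp h1

/-- The main theorem for one measure. -/
theorem stationary_of_conv (hd : 3 ≤ d) (hτ : IsRotorMechanism τ) {o : Dir d}
    {μ : Measure (Config d)} [IsProbabilityMeasure μ] (h : Conv a o μ) :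
    IsStationary τ a μ := by
  classical
  refine ⟨ae_transient τ a hd hτ h, ?_⟩
  have hmeas := measurable_finalConfig τ a
  have : IsProbabilityMeasure (μ.map (finalConfig τ a)) :=
    Measure.isProbabilityMeasure_map hmeas.aemeasurable
  refine measure_eq_of_cylinders _ _ fun B => ?_
  set E : Set (Config d) := {ρ | ∀ b ∈ B, ρ b.1 = b.2} with hE
  set T := B.image Prod.fst with hT
  have hEloc : IsLoc T E := isLoc_cyl B
  rw [map_measureReal_apply hmeas (measurableSet_cyl B)]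
  -- comparison at time `R`
  have h1 : ∀ R, |μ.real E - μ.real {ρ | (rwk nb τ a ρ R).2 ∈ E}| ≤ μ.real (DI τ a T R) := by
    intro R
    refine le_of_forall_pos_le_add fun δ hδ => ?_
    have hcard : (0 : ℝ) < (inner a R).card + 1 := by positivity
    have h2 : ∃ M, R ≤ M ∧ ∀ x ∈ inner a R, ∀ V : Finset (Vtx d), inner a (M + 1) ⊆ V →
        PV nb V o (BadSet (inner a M) x) ≤ δ / ((inner a R).card + 1) := by
      choose M0 hM0 using fun x => one_ended hd a x o (div_pos hδ hcard)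
      refine ⟨R + ∑ x ∈ inner a R, M0 x, by omega, fun x hx V hV => hM0 x _ ?_ V hV⟩
      have : M0 x ≤ ∑ x ∈ inner a R, M0 x :=
        single_le_sum (f := fun x => M0 x) (fun _ _ => Nat.zero_le _) hx
      omega
    obtain ⟨M, hRM, hM⟩ := h2
    have h3 : ∀ r, M + 1 ≤ r → |PV nb (inner a r) o E -
        PV nb (inner a r) o {ρ | (rwk nb τ a ρ R).2 ∈ E}| ≤
        δ + PV nb (inner a r) o (DD τ a T R M) := by
      intro r hr
      refine (finite_compare τ a o T E (fun ρ ρ' hh => (hEloc ρ ρ' hh).mp) hRM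
        (inner_mono (show M ≤ r by omega))).trans ?_
      refine add_le_add ?_ le_rfl
      refine (sum_le_sum fun x hx => hM x hx _ (inner_mono hr)).trans ?_
      rw [sum_const, nsmul_eq_mul, mul_div_assoc', div_le_iff₀ hcard]
      nlinarith
    have h4 : |μ.real E - μ.real {ρ | (rwk nb τ a ρ R).2 ∈ E}| ≤
        δ + μ.real (DD τ a T R M) := by
      refine le_of_tendsto_of_tendsto
        (((h.loc hEloc).sub (h.loc (isLoc_conf τ a R T E hEloc))).abs)
        ((h.loc (isLoc_DD τ a T R M)).const_add δ) ?_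
      filter_upwards [eventually_ge_atTop (M + 1)] with r hr
      exact h3 r hr
    have h5 : μ.real (DD τ a T R M) ≤ μ.real (DI τ a T R) := by
      refine measureReal_mono ?_
      rintro ρ ⟨t, ht1, ht2, -⟩
      exact ⟨t, ht1, ht2⟩
    linarith
  -- comparison with the final configuration
  have h2 : ∀ R, |μ.real {ρ | (rwk nb τ a ρ R).2 ∈ E} - μ.real (finalConfig τ a ⁻¹' E)| ≤
      μ.real (DI τ a T R) := by
    intro R
    have key : ∀ ρ, ρ ∉ DI τ a T R → ((rwk nb τ a ρ R).2 ∈ E ↔ finalConfig τ a ρ ∈ E) := by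
      intro ρ hρ
      refine hEloc _ _ fun x hx => ?_
      symm
      refine finalConfig_eq τ a ?_
      filter_upwards [eventually_ge_atTop R] with t ht
      refine rwk_const nb τ a t ht fun j hj1 _ hj3 => hρ ⟨j, hj1, ?_⟩
      rw [hj3]
      exact hx
    rw [abs_sub_le_iff]
    constructor
    · have h3 : μ.real {ρ | (rwk nb τ a ρ R).2 ∈ E} ≤
          μ.real ((finalConfig τ a ⁻¹' E) ∪ DI τ a T R) := by
        refine measureReal_mono fun ρ hρ => ?_
        by_cases h4 : ρ ∈ DI τ a T R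
        · exact Or.inr h4
        · exact Or.inl ((key ρ h4).mp hρ)
      have h4 := measureReal_union_le (μ := μ) (finalConfig τ a ⁻¹' E) (DI τ a T R)
      linarith
    · have h3 : μ.real (finalConfig τ a ⁻¹' E) ≤
          μ.real ({ρ | (rwk nb τ a ρ R).2 ∈ E} ∪ DI τ a T R) := by
        refine measureReal_mono fun ρ hρ => ?_
        by_cases h4 : ρ ∈ DI τ a T R
        · exact Or.inr h4
        · exact Or.inl ((key ρ h4).mpr hρ)
      have h4 := measureReal_union_le (μ := μ) {ρ | (rwk nb τ a ρ R).2 ∈ E} (DI τ a T R)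
      linarith
  have h3 : |μ.real (finalConfig τ a ⁻¹' E) - μ.real E| ≤ 0 := by
    have hlim := (tendsto_DI τ a hd hτ h T).const_mul 2
    rw [mul_zero] at hlim
    refine ge_of_tendsto' hlim fun R => ?_
    have h4 := abs_sub_le_iff.mp (h1 R)
    have h5 := abs_sub_le_iff.mp (h2 R)
    rw [abs_sub_le_iff]
    constructor <;> linarith [h4.1, h4.2, h5.1, h5.2]
  have h4 := abs_nonpos_iff.mp h3
  linarith

end Pool.Agent.H32.OW
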