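import Pool.Agent.H32.OW.Limit

/-!
# Existence and uniqueness of the oriented wired uniform spanning forest, main theorem
-/

set_option autoImplicit false

namespace Pool.Agent.H32.OW

open Function Finset Filter Topology MeasureTheory

variable {d : ℕ}

lemma PV_eq_EV (V : Finset (Vtx d)) (o : Dir d) (E : Set (Config d)) :
    PV nb V o E = EV nb V o (Set.indicator E fun _ => 1) := by
  classical
  unfold PV EV
  congr 1
  simp only [Set.indicator_apply]
  rw [sum_ite, sum_const_zero, add_zero, sum_const, nsmul_eq_mul, mul_one]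

/-- The finite volume probabilities of cylinders converge along all finite sets. -/
lemma exists_limit (hd : 3 ≤ d) (o : Dir d) (B : Finset (Vtx d × Dir d)) :
    ∃ l : ℝ, Tendsto (fun V => PV nb V o {ρ | ∀ b ∈ B, ρ b.1 = b.2}) atTop (𝓝 l) := by
  classical
  refine cauchySeq_tendsto_of_complete ?_
  rw [Metric.cauchySeq_iff]
  intro ε hε
  obtain ⟨V₀, hV₀⟩ := EV_cauchy hd o (B.image Prod.fst) (half_pos hε)
  refine ⟨V₀, fun V hV V' hV' => ?_⟩
  rw [Real.dist_eq, PV_eq_EV, PV_eq_EV]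
  refine lt_of_le_of_lt (hV₀ V V' hV hV' _ ?_ ?_ ?_) (half_lt_self hε)
  · intro ρ
    exact Set.indicator_nonneg (fun _ _ => zero_le_one) ρ
  · intro ρ
    rw [Set.indicator_apply]
    split_ifs <;> norm_num
  · intro ρ ρ' h
    rw [Set.indicator_apply, Set.indicator_apply]
    have := isLoc_cyl B ρ ρ' h
    simp only [this]

lemma tendsto_inner (a : Vtx d) : Tendsto (inner a) atTop atTop :=
  tendsto_atTop.mpr fun V => eventually_subset_inner a V

/-- Existence of the limit law. -/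
lemma exists_conv (hd : 3 ≤ d) (o : Dir d) :
    ∃ μ : Measure (Config d), IsProbabilityMeasure μ ∧ ∀ a, Conv a o μ := by
  classical
  choose l hl using fun B => exists_limit hd o B
  have h1 : ∀ (a : Vtx d) (B : Finset (Vtx d × Dir d)),
      Tendsto (fun r => PV nb (inner a r) o {ρ | ∀ b ∈ B, ρ b.1 = b.2}) atTop (𝓝 (l B)) :=
    fun a B => (hl B).comp (tendsto_inner a)
  obtain ⟨μ, hμ, hμ'⟩ := exists_limit_measure (fun r => AV nb (inner (0 : Vtx d) r) o)
    (fun r => AV_nonempty _ o) fun B => ⟨l B, (h1 0 B).congr fun r => by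
      unfold PV
      congr!⟩
  refine ⟨μ, hμ, fun a B => ?_⟩
  have h3 : Tendsto (fun r => PV nb (inner (0 : Vtx d) r) o {ρ | ∀ b ∈ B, ρ b.1 = b.2}) atTop
      (𝓝 (μ.real {ρ | ∀ b ∈ B, ρ b.1 = b.2})) := (hμ' B).congr fun r => by
    unfold PV
    congr!
  rw [tendsto_nhds_unique h3 (h1 0 B)]
  exact h1 a B

theorem main (d : ℕ) (hd : 3 ≤ d) :
    ∃ μ : Measure (Config d), (∀ a, IsOWUSF a μ) ∧
      (∀ (a : Vtx d) (ν : Measure (Config d)), IsOWUSF a ν → ν = μ) ∧
      ∀ (a : Vtx d) (τ : Vtx d → Equiv.Perm (Dir d)), IsRotorMechanism τ →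
        IsStationary τ a μ := by
  set o : Dir d := (⟨0, by omega⟩, true) with ho
  obtain ⟨μ, hμ, hconv⟩ := exists_conv hd o
  refine ⟨μ, fun a => (hconv a).isOWUSF, fun a ν hν => ?_, fun a τ hτ =>
    stationary_of_conv τ a hd hτ (hconv a)⟩
  have hν1 : IsProbabilityMeasure ν := hν.1
  refine measure_eq_of_cylinders ν μ fun B => ?_
  exact tendsto_nhds_unique (hν.2 B) ((hconv a).isOWUSF.2 B)

end Pool.Agent.H32.OW
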