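import Pool.Agent.H32.OW.Trans

/-!
# The rotor walk stopped when it leaves the random set of vertices with past in `U`
-/

set_option autoImplicit false

namespace Pool.Agent.H32.OW

open Function Finset

variable {d : ℕ}

open Classical in
/-- The vertices of `U` whose past is contained in `U`. -/
noncomputable def KK (U : Finset (Vtx d)) (ρ : Config d) : Finset (Vtx d) :=
  U.filter fun x => ρ ∉ BadSet U x

lemma mem_KK' {U : Finset (Vtx d)} {ρ : Config d} {x : Vtx d} :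
    x ∈ KK U ρ ↔ x ∈ U ∧ ρ ∉ BadSet U x := by
  classical
  simp only [KK, mem_filter]

lemma mem_KK {U : Finset (Vtx d)} {ρ : Config d} {x : Vtx d} :
    x ∈ KK U ρ ↔ x ∈ U ∧ ∀ y k, (fol nb ρ)^[k] y = x → y ∈ U := by
  classical
  simp only [KK, mem_filter, BadSet]
  constructor
  · rintro ⟨h1, h2⟩
    refine ⟨h1, fun y k hk => ?_⟩
    by_contra hy
    exact h2 ⟨y, k, hy, hk⟩
  · rintro ⟨h1, h2⟩
    refine ⟨h1, ?_⟩
    rintro ⟨y, k, hy, hk⟩
    exact hy (h2 y k hk)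

lemma KK_subset (U : Finset (Vtx d)) (ρ : Config d) : KK U ρ ⊆ U := fun _ h => (mem_KK.mp h).1

/-- Rotors outside do not point into the set. -/
lemma KK_closed {U : Finset (Vtx d)} {ρ : Config d} {y : Vtx d} (hy : y ∉ KK U ρ) :
    fol nb ρ y ∉ KK U ρ := by
  intro h
  rw [mem_KK] at h
  apply hy
  rw [mem_KK]
  refine ⟨h.2 y 1 rfl, fun z k hk => h.2 z (k + 1) ?_⟩
  rw [iterate_succ_apply', hk]

lemma KK_iter {U : Finset (Vtx d)} {ρ ρ' : Config d} (h : ∀ x, x ∉ KK U ρ → ρ' x = ρ x)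
    {y : Vtx d} (hy : y ∉ KK U ρ) (j : ℕ) :
    (fol nb ρ)^[j] y ∉ KK U ρ ∧ (fol nb ρ')^[j] y = (fol nb ρ)^[j] y := by
  induction j with
  | zero => exact ⟨hy, rfl⟩
  | succ j ih =>
    rw [iterate_succ_apply', iterate_succ_apply', ih.2]
    refine ⟨KK_closed ih.1, ?_⟩
    simp only [fol]
    rw [h _ ih.1]

/-- The set does not change if the rotors in it change. -/
lemma KK_eq {U : Finset (Vtx d)} {ρ ρ' : Config d} (h : ∀ x, x ∉ KK U ρ → ρ' x = ρ x) :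
    KK U ρ' = KK U ρ := by
  have h1 : ∀ y, y ∉ U → ∀ k, (fol nb ρ')^[k] y = (fol nb ρ)^[k] y := fun y hy k =>
    (KK_iter h (fun h2 => hy (KK_subset U ρ h2)) k).2
  ext x
  rw [mem_KK, mem_KK]
  refine and_congr_right fun _ => ?_
  constructor
  · intro h2 y k hk
    by_contra hy
    exact hy (h2 y k (by rw [h1 y hy]; exact hk))
  · intro h2 y k hk
    by_contra hy
    exact hy (h2 y k (by rw [← h1 y hy]; exact hk))

lemma acyc_subset {V K : Finset (Vtx d)} {ρ : Config d} (h : Acyc nb V ρ) (hK : K ⊆ V) :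
    Acyc nb K ρ := by
  intro x hx
  obtain ⟨k, hk⟩ := h x (hK hx)
  exact ⟨k, fun h1 => hk (hK h1)⟩

lemma acyc_of_KK {V U : Finset (Vtx d)} {ρ ρ' : Config d} (hV : Acyc nb V ρ)
    (h : ∀ x, x ∉ KK U ρ → ρ' x = ρ x) (hK : Acyc nb (KK U ρ) ρ') :
    Acyc nb V ρ' := by
  have h1 : ∀ y, y ∉ KK U ρ → ∃ j, (fol nb ρ')^[j] y ∉ V := by
    intro y hy
    by_cases hyV : y ∈ V
    · obtain ⟨j, hj⟩ := hV y hyV
      exact ⟨j, by rw [(KK_iter h hy j).2]; exact hj⟩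
    · exact ⟨0, hyV⟩
  intro x hx
  by_cases hxK : x ∈ KK U ρ
  · obtain ⟨k, hk⟩ := hK x hxK
    obtain ⟨j, hj⟩ := h1 _ hk
    refine ⟨j + k, ?_⟩
    rw [iterate_add_apply]
    exact hj
  · exact h1 x hxK

section phi

variable (τ : Vtx d → Equiv.Perm (Dir d)) (a : Vtx d)

/-- The configuration of the rotor walk when it leaves `KK U ρ`. -/
noncomputable def Phi (U : Finset (Vtx d)) (ρ : Config d) : Config d :=
  sig nb τ a (KK U ρ) ρ

lemma Phi_off {V U : Finset (Vtx d)} (hU : U ⊆ V) {ρ : Config d} (hρ : Acyc nb V ρ) {x : Vtx d}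
    (hx : x ∉ KK U ρ) : Phi τ a U ρ x = ρ x :=
  sig_off nb τ a (acyc_subset hρ ((KK_subset U ρ).trans hU)) hx

lemma Phi_mem {V U : Finset (Vtx d)} (hU : U ⊆ V) {o : Dir d} {ρ : Config d}
    (hρ : ρ ∈ AV nb V o) : Phi τ a U ρ ∈ AV nb V o := by
  rw [mem_AV] at hρ ⊢
  have hK : KK U ρ ⊆ V := (KK_subset U ρ).trans hU
  refine ⟨fun x hx => ?_, ?_⟩
  · rw [Phi_off τ a hU hρ.2 fun h => hx (hK h)]
    exact hρ.1 x hx
  · exact acyc_of_KK hρ.2 (fun x hx => Phi_off τ a hU hρ.2 hx)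
      (sig_acyc nb τ a (acyc_subset hρ.2 hK))

lemma Phi_inj {V U : Finset (Vtx d)} (hU : U ⊆ V) {ρ ρ' : Config d} (hρ : Acyc nb V ρ)
    (hρ' : Acyc nb V ρ') (h : Phi τ a U ρ = Phi τ a U ρ') : ρ = ρ' := by
  have h1 : KK U (Phi τ a U ρ) = KK U ρ := KK_eq fun x hx => Phi_off τ a hU hρ hx
  have h2 : KK U (Phi τ a U ρ') = KK U ρ' := KK_eq fun x hx => Phi_off τ a hU hρ' hx
  have h3 : KK U ρ = KK U ρ' := by rw [← h1, ← h2, h]
  unfold Phi at h
  rw [← h3] at h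
  exact sig_inj nb τ a (acyc_subset hρ ((KK_subset U ρ).trans hU))
    (acyc_subset hρ' (by rw [h3]; exact (KK_subset U ρ').trans hU)) h

/-- `Phi` preserves the uniform law. -/
lemma PV_Phi {V U : Finset (Vtx d)} (hU : U ⊆ V) (o : Dir d) (E : Set (Config d)) :
    PV nb V o {ρ | Phi τ a U ρ ∈ E} = PV nb V o E := by
  classical
  unfold PV
  congr 2
  have hinj : Set.InjOn (Phi τ a U) (AV nb V o : Finset (Config d)) := by
    intro ρ hρ ρ' hρ' he
    rw [mem_coe, mem_AV] at hρ hρ'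
    exact Phi_inj τ a hU hρ.2 hρ'.2 he
  have himg : (AV nb V o).image (Phi τ a U) = AV nb V o := by
    refine eq_of_subset_of_card_le (fun ρ hρ => ?_) (card_image_of_injOn hinj).ge
    obtain ⟨ρ', hρ', rfl⟩ := mem_image.mp hρ
    exact Phi_mem τ a hU hρ'
  have h1 : ((AV nb V o).filter fun ρ => ρ ∈ {ρ | Phi τ a U ρ ∈ E}).image (Phi τ a U) =
      (AV nb V o).filter fun ρ => ρ ∈ E := by
    ext η
    simp only [mem_image, mem_filter, Set.mem_ofPred_eq]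
    constructor
    · rintro ⟨ρ, ⟨h1, h2⟩, rfl⟩
      exact ⟨Phi_mem τ a hU h1, h2⟩
    · rintro ⟨h1, h2⟩
      rw [← himg] at h1
      obtain ⟨ρ, hρ, rfl⟩ := mem_image.mp h1
      exact ⟨ρ, ⟨hρ, h2⟩, rfl⟩
  rw [← h1, card_image_of_injOn]
  exact hinj.mono fun ρ hρ => (mem_filter.mp hρ).1

end phi

lemma PV_add_le {V : Finset (Vtx d)} {o : Dir d} {E E₁ E₂ : Set (Config d)}
    (h : ∀ ρ ∈ AV nb V o, ρ ∈ E → ρ ∈ E₁ ∨ ρ ∈ E₂) :
    PV nb V o E ≤ PV nb V o E₁ + PV nb V o E₂ := by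
  classical
  unfold PV
  rw [← add_div]
  refine div_le_div_of_nonneg_right ?_ (Nat.cast_nonneg _)
  have h1 : ((AV nb V o).filter fun ρ => ρ ∈ E) ⊆
      ((AV nb V o).filter fun ρ => ρ ∈ E₁) ∪ ((AV nb V o).filter fun ρ => ρ ∈ E₂) := by
    intro ρ hρ
    rw [mem_filter] at hρ
    rw [mem_union, mem_filter, mem_filter]
    rcases h ρ hρ.1 hρ.2 with h2 | h2
    · exact Or.inl ⟨hρ.1, h2⟩
    · exact Or.inr ⟨hρ.1, h2⟩
  have h2 := (card_le_card h1).trans (card_union_le _ _)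
  exact_mod_cast h2

lemma PV_biUnion_le {V : Finset (Vtx d)} {o : Dir d} {ι : Type*} (I : Finset ι)
    (E : ι → Set (Config d)) :
    PV nb V o {ρ | ∃ i ∈ I, ρ ∈ E i} ≤ ∑ i ∈ I, PV nb V o (E i) := by
  classical
  induction I using Finset.induction_on with
  | empty =>
    rw [sum_empty]
    unfold PV
    simp
  | insert i I hi ih =>
    rw [sum_insert hi]
    refine (PV_add_le (E₁ := E i) (E₂ := {ρ | ∃ i ∈ I, ρ ∈ E i}) ?_).trans
      (add_le_add le_rfl ih)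
    rintro ρ _ ⟨j, hj, hj'⟩
    rcases mem_insert.mp hj with rfl | hj
    · exact Or.inl hj'
    · exact Or.inr ⟨j, hj, hj'⟩

/-- The walk visits `T` at a time at least `R`, before it leaves the ball of radius `M`. -/
def DD (τ : Vtx d → Equiv.Perm (Dir d)) (a : Vtx d) (T : Finset (Vtx d)) (R M : ℕ) :
    Set (Config d) :=
  {ρ | ∃ t, R ≤ t ∧ (rwk nb τ a ρ t).1 ∈ T ∧ ∀ s ≤ t, (rwk nb τ a ρ s).1 ∈ inner a M}

/-- The comparison in finite volume. -/
theorem finite_compare (τ : Vtx d → Equiv.Perm (Dir d)) (a : Vtx d) (o : Dir d)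
    (T : Finset (Vtx d)) (E : Set (Config d))
    (hE : ∀ ρ ρ' : Config d, (∀ x ∈ T, ρ x = ρ' x) → ρ ∈ E → ρ' ∈ E)
    {R M : ℕ} {V : Finset (Vtx d)} (hRM : R ≤ M) (hV : inner a M ⊆ V) :
    |PV nb V o E - PV nb V o {ρ | (rwk nb τ a ρ R).2 ∈ E}| ≤
      ∑ x ∈ inner a R, PV nb V o (BadSet (inner a M) x) + PV nb V o (DD τ a T R M) := by
  have key : ∀ ρ ∈ AV nb V o, ρ ∉ {ρ | ∃ x ∈ inner a R, ρ ∈ BadSet (inner a M) x} →
      ρ ∉ DD τ a T R M → ∀ x ∈ T, Phi τ a (inner a M) ρ x = (rwk nb τ a ρ R).2 x := by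
    intro ρ hρ h1 h2 x hx
    rw [mem_AV] at hρ
    have hK : inner a R ⊆ KK (inner a M) ρ := by
      intro z hz
      rw [mem_KK']
      refine ⟨inner_mono hRM hz, fun h3 => h1 ⟨z, hz, h3⟩⟩
    have hac := acyc_subset hρ.2 ((KK_subset (inner a M) ρ).trans hV)
    have hT := le_exitTime (τ := τ) hK hac
    have hspec := exitTime_spec nb τ a hac
    refine rwk_const nb τ a _ hT fun j hj1 hj2 hj3 => h2 ?_
    refine ⟨j, hj1, by rw [hj3]; exact hx, fun s hs => ?_⟩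
    exact KK_subset _ _ (hspec.2 s (by omega))
  rw [← PV_Phi τ a hV o E]
  have hU := PV_biUnion_le (V := V) (o := o) (inner a R) fun x => BadSet (inner a M) x
  rw [abs_sub_le_iff]
  constructor
  · have h1 : PV nb V o {ρ | Phi τ a (inner a M) ρ ∈ E} ≤
        PV nb V o {ρ | (rwk nb τ a ρ R).2 ∈ E} +
          PV nb V o ({ρ | ∃ x ∈ inner a R, ρ ∈ BadSet (inner a M) x} ∪ DD τ a T R M) := by
      refine PV_add_le fun ρ hρ h => ?_
      by_cases h2 : ρ ∈ {ρ | ∃ x ∈ inner a R, ρ ∈ BadSet (inner a M) x} ∪ DD τ a T R M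
      · exact Or.inr h2
      · rw [Set.mem_union, not_or] at h2
        exact Or.inl (hE _ _ (key ρ hρ h2.1 h2.2) h)
    have h2 := PV_add_le (V := V) (o := o)
      (E := {ρ | ∃ x ∈ inner a R, ρ ∈ BadSet (inner a M) x} ∪ DD τ a T R M) fun ρ _ h => h
    linarith
  · have h1 : PV nb V o {ρ | (rwk nb τ a ρ R).2 ∈ E} ≤
        PV nb V o {ρ | Phi τ a (inner a M) ρ ∈ E} +
          PV nb V o ({ρ | ∃ x ∈ inner a R, ρ ∈ BadSet (inner a M) x} ∪ DD τ a T R M) := by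
      refine PV_add_le fun ρ hρ h => ?_
      by_cases h2 : ρ ∈ {ρ | ∃ x ∈ inner a R, ρ ∈ BadSet (inner a M) x} ∪ DD τ a T R M
      · exact Or.inr h2
      · rw [Set.mem_union, not_or] at h2
        exact Or.inl (hE _ _ (fun x hx => (key ρ hρ h2.1 h2.2 x hx).symm) h)
    have h2 := PV_add_le (V := V) (o := o)
      (E := {ρ | ∃ x ∈ inner a R, ρ ∈ BadSet (inner a M) x} ∪ DD τ a T R M) fun ρ _ h => h
    linarith

end Pool.Agent.H32.OW
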