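import Pool.Agent.H32.OW.Model

/-!
# Rotor walks stopped at a sink: the final configuration is an injective function
-/

set_option autoImplicit false

namespace Pool.Agent.H32.OW

open Function Finset

variable {W D : Type*} [DecidableEq W] (nx : W → D → W) (τ : W → Equiv.Perm D) (a : W)

@[simp] lemma rwk_zero (ρ : W → D) : rwk nx τ a ρ 0 = (a, ρ) := rfl

lemma rwk_succ (ρ : W → D) (t : ℕ) : rwk nx τ a ρ (t + 1) = vstep nx τ (rwk nx τ a ρ t) := by
  simp [rwk, iterate_succ_apply']

lemma rwk_succ_off {ρ : W → D} {t : ℕ} {x : W} (h : (rwk nx τ a ρ t).1 ≠ x) :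
    (rwk nx τ a ρ (t + 1)).2 x = (rwk nx τ a ρ t).2 x := by
  rw [rwk_succ]
  simp [vstep, update_of_ne h.symm]

/-- The rotor at `x` does not change while `x` is not visited. -/
lemma rwk_const {ρ : W → D} {x : W} {s : ℕ} :
    ∀ t, s ≤ t → (∀ j, s ≤ j → j < t → (rwk nx τ a ρ j).1 ≠ x) →
      (rwk nx τ a ρ t).2 x = (rwk nx τ a ρ s).2 x := by
  intro t hst
  induction t, hst using Nat.le_induction with
  | base => intro _; rfl
  | succ t hst ih =>
    intro h
    rw [rwk_succ_off nx τ a (h t hst (by omega)), ih fun j h1 h2 => h j h1 (by omega)]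

/-- Two configurations that agree at the visited vertices give the same walk. -/
lemma rwk_congr {ρ ρ' : W → D} :
    ∀ t, (∀ j < t, ρ (rwk nx τ a ρ j).1 = ρ' (rwk nx τ a ρ j).1) →
      (rwk nx τ a ρ t).1 = (rwk nx τ a ρ' t).1 ∧
      ∀ x, ρ x = ρ' x → (rwk nx τ a ρ t).2 x = (rwk nx τ a ρ' t).2 x := by
  intro t
  induction t with
  | zero => intro _; exact ⟨rfl, fun x hx => hx⟩
  | succ t ih =>
    intro h
    obtain ⟨h1, h2⟩ := ih fun j hj => h j (by omega)
    have h3 := h2 _ (h t (by omega))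
    rw [rwk_succ, rwk_succ]
    refine ⟨?_, fun x hx => ?_⟩
    · simp only [vstep]
      rw [h3, h1]
    · simp only [vstep]
      rw [← h1, h3]
      by_cases hxy : x = (rwk nx τ a ρ t).1
      · rw [hxy, update_self, update_self]
      · rw [update_of_ne hxy, update_of_ne hxy]
        exact h2 x hx

/-- The step of the chip when it uses the rotors. -/
def rstp (V : Finset W) (s : W × (W → D)) : W × (W → D) := cstep nx V a s (τ s.1 (s.2 s.1))

lemma rstp_in {V : Finset W} {s : W × (W → D)} (h : s.1 ∈ V) :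
    rstp nx τ a V s = vstep nx τ s := by
  simp [rstp, cstep, h, vstep]

lemma rstp_out {V : Finset W} {s : W × (W → D)} (h : s.1 ∉ V) :
    rstp nx τ a V s = (a, s.2) := by
  simp [rstp, cstep, h]

lemma rstp_good {V : Finset W} {s : W × (W → D)} (h : Good nx V a s) :
    Good nx V a (rstp nx τ a V s) := cstep_good nx h

lemma rstp_iter_good {V : Finset W} {s : W × (W → D)} (h : Good nx V a s) (n : ℕ) :
    Good nx V a ((rstp nx τ a V)^[n] s) := by
  induction n with
  | zero => exact h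
  | succ n ih => rw [iterate_succ_apply']; exact rstp_good nx τ a ih

lemma rstp_inj {V : Finset W} {s s' : W × (W → D)} (hs : Good nx V a s) (hs' : Good nx V a s')
    (h : rstp nx τ a V s = rstp nx τ a V s') : s = s' := by
  refine cstep_inj nx hs hs' h fun hx h1 => ?_
  have h2 := cstep_dir nx hx h1 h
  rw [h1] at h2 ⊢
  exact (τ s'.1).injective h2

lemma rstp_iter_inj {V : Finset W} (n : ℕ) : ∀ {s s' : W × (W → D)}, Good nx V a s →
    Good nx V a s' → (rstp nx τ a V)^[n] s = (rstp nx τ a V)^[n] s' → s = s' := by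
  induction n with
  | zero => intro s s' _ _ h; exact h
  | succ n ih =>
    intro s s' hs hs' h
    rw [iterate_succ_apply, iterate_succ_apply] at h
    exact rstp_inj nx τ a hs hs' (ih (rstp_good nx τ a hs) (rstp_good nx τ a hs') h)

lemma rstp_iter {V : Finset W} {z : W} {ρ : W → D} (hz : z ∉ V) :
    ∀ t, (∀ j < t, (rwk nx τ a ρ j).1 ∈ V) → (rstp nx τ a V)^[t + 1] (z, ρ) = rwk nx τ a ρ t := by
  intro t
  induction t with
  | zero => intro _; exact rstp_out nx τ a hz
  | succ t ih =>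
    intro h
    rw [iterate_succ_apply', ih fun j hj => h j (by omega), rstp_in nx τ a (h t (by omega)),
      rwk_succ]

lemma rstp_snd_off {V : Finset W} {s : W × (W → D)} {x : W} (hx : x ∉ V) :
    (rstp nx τ a V s).2 x = s.2 x := by
  rw [rstp, cstep_snd]
  split_ifs with h
  · rw [update_of_ne]
    rintro rfl
    exact hx h
  · rfl

lemma rstp_iter_snd_off {V : Finset W} {s : W × (W → D)} {x : W} (hx : x ∉ V) (n : ℕ) :
    ((rstp nx τ a V)^[n] s).2 x = s.2 x := by
  induction n with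
  | zero => rfl
  | succ n ih => rw [iterate_succ_apply', rstp_snd_off nx τ a hx, ih]

/-- The rotor walk leaves `V` if the rotors are acyclic on `V`. -/
lemma exists_exit_rw [Finite D] {V : Finset W} {ρ : W → D} (h : Acyc nx V ρ) :
    ∃ t, (rwk nx τ a ρ t).1 ∉ V := by
  by_contra hcon
  push Not at hcon
  obtain ⟨z, hz, hg⟩ := good_of_acyc nx h a
  have h1 : ∀ t, (rstp nx τ a V)^[t + 1] (z, ρ) = rwk nx τ a ρ t :=
    fun t => rstp_iter nx τ a hz t fun j _ => hcon j
  have hfin : {s : W × (W → D) | s.1 ∈ V ∧ ∀ x ∉ V, s.2 x = ρ x}.Finite := by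
    have h2 : {ρ' : W → D | ∀ x ∉ V, ρ' x = ρ x}.Finite := by
      have : Finite {ρ' : W → D | ∀ x ∉ V, ρ' x = ρ x} := by
        apply Finite.of_injective
          (fun (ρ' : {ρ' : W → D | ∀ x ∉ V, ρ' x = ρ x}) (v : V) => ρ'.1 v.1)
        intro ρ1 ρ2 h
        apply Subtype.ext
        funext x
        by_cases hx : x ∈ V
        · exact congrFun h ⟨x, hx⟩
        · rw [ρ1.2 x hx, ρ2.2 x hx]
      exact Set.toFinite _
    exact ((V.finite_toSet).prod h2).subset fun s hs => ⟨hs.1, hs.2⟩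
  have hmem : ∀ t : ℕ, (rstp nx τ a V)^[t + 1] (z, ρ) ∈
      {s : W × (W → D) | s.1 ∈ V ∧ ∀ x ∉ V, s.2 x = ρ x} := fun t =>
    ⟨by rw [h1]; exact hcon t, fun x hx => rstp_iter_snd_off nx τ a hx (t + 1)⟩
  obtain ⟨m, n, hmn, he⟩ := hfin.exists_lt_map_eq_of_forall_mem hmem
  have h3 : (rstp nx τ a V)^[m + 1] (z, ρ) =
      (rstp nx τ a V)^[m + 1] ((rstp nx τ a V)^[n - m] (z, ρ)) := by
    rw [← iterate_add_apply, show m + 1 + (n - m) = n + 1 by omega]
    exact he
  have h4 := rstp_iter_inj nx τ a (m + 1) hg (rstp_iter_good nx τ a hg (n - m)) h3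
  obtain ⟨k, hk⟩ : ∃ k, n - m = k + 1 := ⟨n - m - 1, by omega⟩
  rw [hk, h1] at h4
  apply hz
  have := hcon k
  rw [← h4] at this
  exact this

lemma exitTime_spec [Finite D] {V : Finset W} {ρ : W → D} (h : Acyc nx V ρ) :
    (rwk nx τ a ρ (exitTime nx τ a V ρ)).1 ∉ V ∧
      ∀ j < exitTime nx τ a V ρ, (rwk nx τ a ρ j).1 ∈ V := by
  classical
  have h1 := exists_exit_rw nx τ a h
  unfold exitTime
  rw [dif_pos h1]
  exact ⟨Nat.find_spec h1, fun j hj => not_not.mp (Nat.find_min h1 hj)⟩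

lemma exitTime_eq {V : Finset W} {ρ : W → D} {t : ℕ} (h : (rwk nx τ a ρ t).1 ∉ V)
    (h' : ∀ j < t, (rwk nx τ a ρ j).1 ∈ V) : exitTime nx τ a V ρ = t := by
  classical
  have h1 : ∃ t, (rwk nx τ a ρ t).1 ∉ V := ⟨t, h⟩
  unfold exitTime
  rw [dif_pos h1]
  refine (Nat.find_eq_iff h1).mpr ⟨h, fun n hn => ?_⟩
  rw [not_not]
  exact h' n hn

/-- The final state is the image of the initial state. -/
lemma sig_state [Finite D] {V : Finset W} {ρ : W → D} (h : Acyc nx V ρ) {z : W} (hz : z ∉ V) :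
    (rstp nx τ a V)^[exitTime nx τ a V ρ + 1] (z, ρ) =
      ((rwk nx τ a ρ (exitTime nx τ a V ρ)).1, sig nx τ a V ρ) := by
  rw [rstp_iter nx τ a hz _ (exitTime_spec nx τ a h).2]
  rfl

lemma sig_good [Finite D] {V : Finset W} {ρ : W → D} (h : Acyc nx V ρ) :
    Good nx V a ((rwk nx τ a ρ (exitTime nx τ a V ρ)).1, sig nx τ a V ρ) := by
  obtain ⟨z, hz, hg⟩ := good_of_acyc nx h a
  rw [← sig_state nx τ a h hz]
  exact rstp_iter_good nx τ a hg _

/-- The final configuration is acyclic. -/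
lemma sig_acyc [Finite D] {V : Finset W} {ρ : W → D} (h : Acyc nx V ρ) :
    Acyc nx V (sig nx τ a V ρ) :=
  acyc_of_good nx (sig_good nx τ a h) (exitTime_spec nx τ a h).1

/-- The rotors off `V` do not change. -/
lemma sig_off [Finite D] {V : Finset W} {ρ : W → D} (h : Acyc nx V ρ) {x : W} (hx : x ∉ V) :
    sig nx τ a V ρ x = ρ x := by
  refine rwk_const nx τ a _ (Nat.zero_le _) fun j _ hj heq => hx ?_
  rw [← heq]
  exact (exitTime_spec nx τ a h).2 j hj

/-- The final configuration determines the initial configuration. -/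
lemma sig_inj [Finite D] {V : Finset W} {ρ ρ' : W → D} (h : Acyc nx V ρ) (h' : Acyc nx V ρ')
    (he : sig nx τ a V ρ = sig nx τ a V ρ') : ρ = ρ' := by
  -- without loss of generality the first walk is the shorter one
  have key : ∀ {ρ ρ' : W → D}, Acyc nx V ρ → Acyc nx V ρ' →
      sig nx τ a V ρ = sig nx τ a V ρ' → exitTime nx τ a V ρ ≤ exitTime nx τ a V ρ' →
      ρ = ρ' := by
    intro ρ ρ' h h' he hle
    obtain ⟨z, hz, hg⟩ := good_of_acyc nx h a
    obtain ⟨z', hz', hg'⟩ := good_of_acyc nx h' a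
    have h1 := good_sink_unique nx (sig_good nx τ a h) (sig_good nx τ a h')
      (exitTime_spec nx τ a h).1 (exitTime_spec nx τ a h').1 he
    rw [← sig_state nx τ a h hz, ← sig_state nx τ a h' hz'] at h1
    obtain ⟨k, hk⟩ := Nat.exists_eq_add_of_le hle
    rw [hk, show exitTime nx τ a V ρ + k + 1 = exitTime nx τ a V ρ + 1 + k by omega,
      iterate_add_apply _ (exitTime nx τ a V ρ + 1) k] at h1
    have h2 := rstp_iter_inj nx τ a _ hg (rstp_iter_good nx τ a hg' k) h1
    rcases Nat.eq_zero_or_pos k with hk0 | hk0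
    · rw [hk0] at h2
      exact congrArg Prod.snd h2
    · exfalso
      obtain ⟨m, rfl⟩ : ∃ m, k = m + 1 := ⟨k - 1, by omega⟩
      rw [rstp_iter nx τ a hz' m fun j hj => (exitTime_spec nx τ a h').2 j (by omega)] at h2
      apply hz
      have := (exitTime_spec nx τ a h').2 m (by omega)
      rw [← h2] at this
      exact this
  rcases le_total (exitTime nx τ a V ρ) (exitTime nx τ a V ρ') with h1 | h1
  · exact key h h' he h1
  · exact (key h' h he.symm h1).symm

end Pool.Agent.H32.OW
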