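import Pool.Agent.H32.OW.Geo
import Pool.Agent.H32.OW.Rotor

/-!
# Expected numbers of visits of the rotor walk
-/

set_option autoImplicit false

namespace Pool.Agent.H32.OW

open Function Finset Filter Topology

section potential

variable {D : Type*} [Fintype D]

/-- The values along one period run over all directions. -/
lemma sum_orbit (τ : Equiv.Perm D) (hτ : ∀ e e', ∃ k : ℕ, (τ ^ k) e = e') (g : D → ℝ) (e : D) :
    ∑ k ∈ range (Fintype.card D), g (τ^[k] e) = ∑ e', g e' ∧ τ^[Fintype.card D] e = e := by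
  classical
  have hper : e ∈ periodicPts τ := by
    obtain ⟨k, hk⟩ := hτ (τ e) e
    refine ⟨k + 1, by omega, ?_⟩
    show τ^[k + 1] e = e
    rw [iterate_succ_apply, Equiv.Perm.iterate_eq_pow, hk]
  have hp := minimalPeriod_pos_of_mem_periodicPts hper
  set p := minimalPeriod τ e with hpdef
  have hinj : Set.InjOn (fun k => τ^[k] e) (range p : Finset ℕ) := by
    intro i hi j hj h
    rw [mem_coe, mem_range] at hi hj
    exact iterate_injOn_Iio_minimalPeriod (f := τ) (x := e) hi hj h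
  have himg : (range p).image (fun k => τ^[k] e) = univ := by
    ext e'
    simp only [mem_image, mem_range, mem_univ, iff_true]
    obtain ⟨k, hk⟩ := hτ e e'
    refine ⟨k % p, Nat.mod_lt _ hp, ?_⟩
    rw [hpdef, iterate_mod_minimalPeriod_eq, Equiv.Perm.iterate_eq_pow, hk]
  have hcard : p = Fintype.card D := by
    rw [← card_univ, ← himg, card_image_of_injOn hinj, card_range]
  rw [← hcard]
  refine ⟨?_, ?_⟩
  · rw [← himg, sum_image hinj]
  · exact iterate_minimalPeriod

lemma exists_potential [Nonempty D] (τ : Equiv.Perm D)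
    (hτ : ∀ e e', ∃ k : ℕ, (τ ^ k) e = e') (g : D → ℝ) (hg : ∑ e, g e = 0) :
    ∃ h : D → ℝ, ∀ e, h (τ e) - h e = g (τ e) := by
  set n := Fintype.card D with hn
  have hn0 : (n : ℝ) ≠ 0 := by
    rw [hn]
    exact_mod_cast Fintype.card_ne_zero
  refine ⟨fun e => (∑ k ∈ range n, ((k : ℝ) + 1) * g (τ^[k + 1] e)) / n, fun e => ?_⟩
  have key : ∀ m : ℕ, ∑ k ∈ range m, ((k : ℝ) + 1) * g (τ^[k + 2] e) -
      ∑ k ∈ range m, ((k : ℝ) + 1) * g (τ^[k + 1] e) =
      m * g (τ^[m + 1] e) - ∑ k ∈ range m, g (τ^[k + 1] e) := by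
    intro m
    induction m with
    | zero => simp
    | succ m ih =>
      rw [sum_range_succ, sum_range_succ, sum_range_succ]
      push_cast
      linear_combination ih
  have h1 := key n
  have h2 := sum_orbit τ hτ g (τ e)
  have h3 : ∑ k ∈ range n, g (τ^[k + 1] e) = 0 := by
    rw [← hg, ← h2.1]
    rfl
  have h4 : τ^[n + 1] e = τ e := by
    rw [iterate_succ_apply]
    exact h2.2
  rw [h3, h4, sub_zero] at h1
  show (∑ k ∈ range n, ((k : ℝ) + 1) * g (τ^[k + 1] (τ e))) / n -
    (∑ k ∈ range n, ((k : ℝ) + 1) * g (τ^[k + 1] e)) / n = g (τ e)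
  rw [← sub_div]
  rw [show (∑ k ∈ range n, ((k : ℝ) + 1) * g (τ^[k + 1] (τ e))) -
    (∑ k ∈ range n, ((k : ℝ) + 1) * g (τ^[k + 1] e)) = n * g (τ e) from h1]
  field_simp

end potential

section visits

variable {W D : Type*} [DecidableEq W] [Fintype D] (nx : W → D → W)

/-- Expected numbers of visits of the rotor walk in finite volume. -/
lemma visits_sum [Nonempty D] (τ : W → Equiv.Perm D)
    (hτ : ∀ x e e', ∃ k : ℕ, (τ x ^ k) e = e') (a : W) {H : W → ℝ} (H0 : ∀ z, 0 < H z)
    (H1 : ∀ z, av (fun e => H (nx z e)) < H z) (V : Finset W) (o : D) (x : W) :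
    (H x - av (fun e => H (nx x e))) * ∑ ρ ∈ AV nx V o,
      (((range (exitTime nx τ a V ρ)).filter fun t => (rwk nx τ a ρ t).1 = x).card : ℝ) ≤
      (AV nx V o).card * H a := by
  classical
  set g : W → D → ℝ := fun y e => av (fun e => H (nx y e)) - H (nx y e) with hg
  have hDc : (Fintype.card D : ℝ) ≠ 0 := by exact_mod_cast Fintype.card_ne_zero
  have hg0 : ∀ y, ∑ e, g y e = 0 := by
    intro y
    simp only [hg, sum_sub_distrib, sum_const, card_univ, nsmul_eq_mul]
    rw [av, mul_div_cancel₀ _ hDc, sub_self]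
  choose h hh using fun y => exists_potential (τ y) (hτ y) (g y) (hg0 y)
  set ep : W → ℝ := fun y => H y - av (fun e => H (nx y e)) with hep
  have hep0 : ∀ y, 0 < ep y := fun y => sub_pos.mpr (H1 y)
  -- the potential decreases by `ep` at each step
  have hstep : ∀ ρ, ∀ t, (∀ j < t, (rwk nx τ a ρ j).1 ∈ V) →
      ∑ j ∈ range t, ep (rwk nx τ a ρ j).1 + H (rwk nx τ a ρ t).1 +
        ∑ y ∈ V, h y ((rwk nx τ a ρ t).2 y) = H a + ∑ y ∈ V, h y (ρ y) := by
    intro ρ t
    induction t with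
    | zero => intro _; simp
    | succ t ih =>
      intro ht
      have h1 := ih fun j hj => ht j (by omega)
      have h2 := ht t (by omega)
      rw [sum_range_succ, ← h1, rwk_succ]
      set s := rwk nx τ a ρ t with hs
      have h3 : ∑ y ∈ V, h y ((vstep nx τ s).2 y) =
          ∑ y ∈ V, h y (s.2 y) + g s.1 (τ s.1 (s.2 s.1)) := by
        rw [← add_sum_erase V _ h2, ← add_sum_erase V (fun y => h y (s.2 y)) h2]
        have h4 : ∑ y ∈ V.erase s.1, h y ((vstep nx τ s).2 y) =
            ∑ y ∈ V.erase s.1, h y (s.2 y) := by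
          refine sum_congr rfl fun y hy => ?_
          simp only [vstep]
          rw [update_of_ne (ne_of_mem_erase hy)]
        rw [h4]
        have h5 := hh s.1 (s.2 s.1)
        simp only [vstep, update_self]
        linarith
      rw [h3]
      simp only [vstep, hg, hep]
      ring
  -- the final configuration is a bijection
  have hbij : ∑ ρ ∈ AV nx V o, ∑ y ∈ V, h y (sig nx τ a V ρ y) =
      ∑ ρ ∈ AV nx V o, ∑ y ∈ V, h y (ρ y) := by
    have hinj : Set.InjOn (sig nx τ a V) (AV nx V o : Finset (W → D)) := by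
      intro ρ hρ ρ' hρ' he
      rw [mem_coe, mem_AV] at hρ hρ'
      exact sig_inj nx τ a hρ.2 hρ'.2 he
    have himg : (AV nx V o).image (sig nx τ a V) = AV nx V o := by
      refine eq_of_subset_of_card_le (fun ρ hρ => ?_) (card_image_of_injOn hinj).ge
      obtain ⟨ρ', hρ', rfl⟩ := mem_image.mp hρ
      rw [mem_AV] at hρ' ⊢
      refine ⟨fun y hy => ?_, sig_acyc nx τ a hρ'.2⟩
      rw [sig_off nx τ a hρ'.2 hy]
      exact hρ'.1 y hy
    rw [← sum_image (f := fun ρ => ∑ y ∈ V, h y (ρ y)) hinj, himg]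
  have h1 : ∀ ρ ∈ AV nx V o, ep x *
      (((range (exitTime nx τ a V ρ)).filter fun t => (rwk nx τ a ρ t).1 = x).card : ℝ) ≤
      H a + (∑ y ∈ V, h y (ρ y) - ∑ y ∈ V, h y (sig nx τ a V ρ y)) := by
    intro ρ hρ
    rw [mem_AV] at hρ
    have h2 := hstep ρ _ (exitTime_spec nx τ a hρ.2).2
    have h3 : ep x *
        (((range (exitTime nx τ a V ρ)).filter fun t => (rwk nx τ a ρ t).1 = x).card : ℝ) ≤
        ∑ j ∈ range (exitTime nx τ a V ρ), ep (rwk nx τ a ρ j).1 := by
      rw [mul_comm, ← nsmul_eq_mul, ← sum_const]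
      calc ∑ j ∈ (range (exitTime nx τ a V ρ)).filter (fun t => (rwk nx τ a ρ t).1 = x), ep x
          = ∑ j ∈ (range (exitTime nx τ a V ρ)).filter (fun t => (rwk nx τ a ρ t).1 = x),
              ep (rwk nx τ a ρ j).1 := sum_congr rfl fun j hj => by rw [(mem_filter.mp hj).2]
        _ ≤ _ := sum_le_sum_of_subset_of_nonneg (filter_subset _ _) fun j _ _ => (hep0 _).le
    have h4 := H0 (rwk nx τ a ρ (exitTime nx τ a V ρ)).1
    have h5 : ∑ y ∈ V, h y (sig nx τ a V ρ y) =
        ∑ y ∈ V, h y ((rwk nx τ a ρ (exitTime nx τ a V ρ)).2 y) := rfl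
    linarith
  rw [mul_sum]
  refine (sum_le_sum h1).trans ?_
  rw [sum_add_distrib, sum_sub_distrib, hbij, sub_self, add_zero, sum_const, nsmul_eq_mul]

end visits

variable {d : ℕ}

lemma rwk_dist (τ : Vtx d → Equiv.Perm (Dir d)) (a : Vtx d) (ρ : Config d) (t : ℕ) :
    gdist (rwk nb τ a ρ t).1 a ≤ t := by
  induction t with
  | zero => simp [gdist_self]
  | succ t ih =>
    rw [rwk_succ]
    exact (gdist_nb_le _ _ _).trans (by omega)

lemma le_exitTime {τ : Vtx d → Equiv.Perm (Dir d)} {a : Vtx d} {ρ : Config d} {r : ℕ}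
    {V : Finset (Vtx d)} (hV : inner a r ⊆ V) (h : Acyc nb V ρ) :
    r ≤ exitTime nb τ a V ρ := by
  by_contra hcon
  push Not at hcon
  refine (exitTime_spec nb τ a h).1 (hV ?_)
  rw [mem_inner]
  exact lt_of_le_of_lt (rwk_dist τ a ρ _) hcon

/-- Markov inequality for the number of visits up to a fixed time. -/
theorem visits_prob (hd : 3 ≤ d) (τ : Vtx d → Equiv.Perm (Dir d)) (hτ : IsRotorMechanism τ)
    (a x : Vtx d) (o : Dir d) :
    ∃ C : ℝ, ∀ (t₀ : ℕ) (V : Finset (Vtx d)), inner a t₀ ⊆ V → ∀ k : ℕ, 0 < k →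
      PV nb V o {ρ | k ≤ ((range t₀).filter fun t => (rwk nb τ a ρ t).1 = x).card} ≤ C / k := by
  classical
  obtain ⟨H, -, -, H0, H1, -, -⟩ := exists_lyapunov d hd
  have : Nonempty (Fin d) := ⟨⟨0, by omega⟩⟩
  set ep := H x - av (fun e => H (nb x e)) with hep
  have hep0 : 0 < ep := sub_pos.mpr (H1 x)
  refine ⟨H a / ep, fun t₀ V hV k hk => ?_⟩
  set E : Set (Config d) :=
    {ρ | k ≤ ((range t₀).filter fun t => (rwk nb τ a ρ t).1 = x).card} with hE
  have h1 := visits_sum nb τ hτ a H0 H1 V o x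
  have h2 : (k : ℝ) * ((AV nb V o).filter fun ρ => ρ ∈ E).card ≤ ∑ ρ ∈ AV nb V o,
      (((range (exitTime nb τ a V ρ)).filter fun t => (rwk nb τ a ρ t).1 = x).card : ℝ) := by
    rw [mul_comm, ← nsmul_eq_mul, ← sum_const]
    refine (sum_le_sum (g := fun ρ => (((range (exitTime nb τ a V ρ)).filter
      fun t => (rwk nb τ a ρ t).1 = x).card : ℝ)) fun ρ hρ => ?_).trans
      (sum_le_sum_of_subset_of_nonneg (filter_subset _ _) fun ρ _ _ => Nat.cast_nonneg _)
    rw [mem_filter, mem_AV] at hρ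
    have h3 : k ≤ ((range (exitTime nb τ a V ρ)).filter
        fun t => (rwk nb τ a ρ t).1 = x).card :=
      hρ.2.trans (card_le_card (filter_subset_filter _
        (range_subset_range.mpr (le_exitTime hV hρ.1.2))))
    exact_mod_cast h3
  have h3 : PV nb V o E =
      ((AV nb V o).filter fun ρ => ρ ∈ E).card / ((AV nb V o).card : ℝ) := by
    unfold PV
    congr!
  rw [h3]
  have hk' : (0 : ℝ) < k := by exact_mod_cast hk
  rcases Nat.eq_zero_or_pos (AV nb V o).card with h0 | h0
  · rw [h0]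
    simp only [Nat.cast_zero, div_zero]
    exact div_nonneg (div_nonneg (H0 a).le hep0.le) hk'.le
  · rw [div_div, div_le_div_iff₀ (by exact_mod_cast h0) (by positivity)]
    have h4 := mul_le_mul_of_nonneg_left h2 hep0.le
    have h5 := h4.trans h1
    linarith

end Pool.Agent.H32.OW
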